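import Mathlib
import Pool.Agent.H611R3.ZL.Def

set_option autoImplicit false

open WeakDual

namespace H611R4

section

variable (A : Type) [NormedCommRing A] [NormedAlgebra ℂ A]

/-- A commutative complex Banach algebra is semisimple if its characters separate its points. -/
def Semisimple : Prop := ∀ a : A, (∀ φ : characterSpace ℂ A, φ a = 0) → a = 0

/-- `A` is regular on its Gelfand spectrum `X`: for `F ⊆ X` closed and `φ ∉ F` there is `a ∈ A` with
`â(φ) ≠ 0` and `â = 0` on `F`. -/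
def Regular : Prop :=
  ∀ (F : Set (characterSpace ℂ A)) (φ : characterSpace ℂ A), IsClosed F → φ ∉ F →
    ∃ a : A, φ a ≠ 0 ∧ ∀ ψ ∈ F, ψ a = 0

/-- A representation `u = ∑ aᵢ ⊗ bᵢ`, `∑ ‖aᵢ‖ ‖bᵢ‖ < ∞`, of an element of `A ⊗̂ A`. -/
structure Tens where
  a : ℕ → A
  b : ℕ → A
  summable : Summable fun i => ‖a i‖ * ‖b i‖

/-- `β` is a bounded bilinear form on `A`. -/
def IsBil (β : A → A → ℂ) : Prop := IsBoundedBilinearMap ℂ fun p : A × A => β p.1 p.2

variable {A}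

/-- the value `∑ β(aᵢ, bᵢ)` of the bilinear form `β` at `u = ∑ aᵢ ⊗ bᵢ` -/
noncomputable def Tens.eval (u : Tens A) (β : A → A → ℂ) : ℂ := ∑' i, β (u.a i) (u.b i)

/-- the Gelfand transform of `u = ∑ aᵢ ⊗ bᵢ` at the point `(φ, ψ)` of the spectrum `X × X` of `A ⊗̂ A`:
`∑ φ(aᵢ) ψ(bᵢ)` -/
noncomputable def Tens.gel (u : Tens A) (p : characterSpace ℂ A × characterSpace ℂ A) : ℂ :=
  u.eval fun a b => p.1 a * p.2 b

/-- the distance of `u` and `v` in the projective norm is `< ε`: the element `u - v` of `A ⊗̂ A` has a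
representation `w = ∑ aᵢ ⊗ bᵢ` with `∑ ‖aᵢ‖ ‖bᵢ‖ < ε` (elements of `A ⊗̂ A` are equal if and only if all
bounded bilinear forms agree on them) -/
def Tens.Near (u v : Tens A) (ε : ℝ) : Prop :=
  ∃ w : Tens A, ∑' i, ‖w.a i‖ * ‖w.b i‖ < ε ∧ ∀ β, IsBil A β → u.eval β - v.eval β = w.eval β

variable (A)

/-- `A ⊗̂ A` is semisimple: if the Gelfand transform of `u` vanishes then `u = 0` in `A ⊗̂ A` -/
def TensSemisimple : Prop :=
  ∀ u : Tens A, (∀ p, u.gel p = 0) → ∀ β, IsBil A β → u.eval β = 0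

/-- `A` is hyper-Tauberian: the diagonal `X_D` of `X × X` is spectral for `A ⊗̂ A`, that is, every
`u ∈ A ⊗̂ A` vanishing on `X_D` is a limit of `v ∈ A ⊗̂ A` with `supp v ∩ X_D = ∅`. -/
def HyperTaub : Prop :=
  ∀ u : Tens A, (∀ φ, u.gel (φ, φ) = 0) → ∀ ε > 0,
    ∃ v : Tens A, (∀ φ, (φ, φ) ∉ closure {p | v.gel p ≠ 0}) ∧ u.Near v ε

end

end H611R4
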