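import Mathlib
import Pool.Agent.H611R3.ZL.AM

set_option autoImplicit false
set_option maxSynthPendingDepth 3

open Filter Topology

namespace H611R4

/-! ### Task P : completion of an algebra for a polar norm -/

def TaskP : Prop := ∀ (V : Type) [CommRing V] [Algebra ℂ V] (S : Submonoid V),
  Submodule.span ℂ (S : Set V) = ⊤ → (∃ χ : V →ₐ[ℂ] ℂ, ∀ s ∈ S, ‖χ s‖ ≤ 1) →
  ∃ (A : Type) (_ : NormedCommRing A) (_ : NormedAlgebra ℂ A) (_ : CompleteSpace A)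
    (j : V →ₐ[ℂ] A),
    (∀ s ∈ S, ‖j s‖ ≤ 1) ∧
    (∀ Λ : V →ₗ[ℂ] ℂ, (∀ s ∈ S, ‖Λ s‖ ≤ 1) → ∀ v, ‖Λ v‖ ≤ ‖j v‖) ∧
    (∀ χ : V →ₐ[ℂ] ℂ, (∀ s ∈ S, ‖χ s‖ ≤ 1) →
      ∃ χ' : A →ₐ[ℂ] ℂ, (∀ v, χ' (j v) = χ v) ∧ ∀ a, ‖χ' a‖ ≤ ‖a‖)

/-! ### Task D : amenability from a bounded approximate diagonal -/

open H611R3.ZL in
def TaskD : Prop := ∀ (A : Type) [NormedCommRing A] [NormedAlgebra ℂ A],
  ∀ (J : ℕ → Type) [∀ i, Fintype (J i)] (x y : ∀ i, J i → A) (K : ℝ),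
    (∀ i (B : A →L[ℂ] A →L[ℂ] ℂ), ‖∑ j, B (x i j) (y i j)‖ ≤ K * ‖B‖) →
    (∀ (a : A) (B : A →L[ℂ] A →L[ℂ] ℂ),
      Tendsto (fun i => ∑ j, (B (a * x i j) (y i j) - B (x i j) (y i j * a))) atTop (𝓝 0)) →
    (∀ a : A, Tendsto (fun i => (∑ j, x i j * y i j) * a) atTop (𝓝 a)) →
    (∀ i, ‖∑ j, x i j * y i j‖ ≤ K) →
    IsAmenable A

/-! ### Task C1, C2 : the group algebra of `(ℕ × ℕ) →₀ ZMod 2` -/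

abbrev Gam : Type := (ℕ × ℕ) →₀ ZMod 2
abbrev VV : Type := AddMonoidAlgebra ℂ Gam

/-- the group element `g` in the group algebra -/
noncomputable def of (g : Gam) : VV := AddMonoidAlgebra.single g 1

/-- `ℓ¹` norm at most `c` -/
def L1 (v : VV) (c : ℝ) : Prop := ∀ Λ : VV →ₗ[ℂ] ℂ, (∀ g, ‖Λ (of g)‖ ≤ 1) → ‖Λ v‖ ≤ c

/-- `(1/N) ∑_{l<N} (1 + i x_{j,l})/2` -/
noncomputable def vel (N j : ℕ) : VV :=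
  ((1 : ℂ) / N) • ∑ l ∈ Finset.range N,
    ((1 / 2 : ℂ) • (1 + Complex.I • of (Finsupp.single (j, l) 1)))

def TaskC1 : Prop := ∀ (N j n : ℕ), 0 < N → L1 (vel N j ^ n) (2 ^ N * (1 / Real.sqrt 2) ^ n)

/-- the function `φ(g) = (-i)^{|supp g|} max(0, 1 - ∑_{(j,l) ∈ supp g} 1/J_j)` -/
noncomputable def phi (J : ℕ → ℕ) (g : Gam) : ℂ :=
  (-Complex.I) ^ (g.support.card) * ((max 0 (1 - ∑ i ∈ g.support, (1 : ℝ) / J i.1) : ℝ) : ℂ)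

def TaskC2 : Prop := ∀ (J : ℕ → ℕ) (N j : ℕ), (∀ k, 0 < J k) → 0 < N →
  ∀ Λ : VV →ₗ[ℂ] ℂ, (∀ g, Λ (of g) = phi J g) →
  ∀ g, ‖Λ (of g * (1 - vel N j))‖ ≤ 1 / (2 * J j) + (J j + 1) / N

end H611R4
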