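import Mathlib
import Pool.Agent.H611R4.Stmts

set_option autoImplicit false
set_option maxSynthPendingDepth 3
set_option linter.unusedSectionVars false

open Filter Topology BoundedContinuousFunction

namespace H611R4

/-- the data from which the counterexample is built -/
structure Tower (A : Type) [NormedCommRing A] [NormedAlgebra ℂ A] where
  x : ℕ × ℕ → A
  I : ℕ → Finset (ℕ × ℕ)
  mono : ∀ n, I n ⊆ I (n+1)
  x_sq : ∀ i, x i * x i = 1
  x_norm : ∀ i, ‖x i‖ ≤ 1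
  u : ℕ → A
  u_mem : ∀ n, u n ∈ Algebra.adjoin ℂ (x '' (I (n+1) : Set (ℕ × ℕ)))
  u_norm : ∀ n, ‖u n‖ ≤ 1
  C : ℕ → ℝ
  u_pow : ∀ n k, ‖u n ^ k‖ ≤ C n * (1/2)^k
  chi : Finset (ℕ × ℕ) → (A →ₐ[ℂ] ℂ)
  chi_x : ∀ s i, chi s (x i) = if i ∈ s then 1 else -1
  chi_norm : ∀ s a, ‖chi s a‖ ≤ ‖a‖
  eps : ℕ → ℝ
  eps_tendsto : Tendsto eps atTop (𝓝 0)
  rel : ∀ m n, m < n → ‖u m * (1 - ∏ j ∈ Finset.Ico (m+1) n, u j)‖ ≤ eps m
  nondeg : ∀ n, 1/2 ≤ ‖∏ j ∈ Finset.range n, u j‖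

variable {A : Type} [NormedCommRing A] [NormedAlgebra ℂ A] (T : Tower A)

namespace Tower

include T in
lemma one_norm : ‖(1 : A)‖ ≤ 1 := by
  rw [← T.x_sq (0,0)]
  refine (norm_mul_le _ _).trans ?_
  have := T.x_norm (0,0)
  nlinarith [norm_nonneg (T.x (0,0))]

/-- the subalgebra generated by the involutions of level `< n` -/
def alg (n : ℕ) : Subalgebra ℂ A := Algebra.adjoin ℂ (T.x '' (T.I n : Set (ℕ × ℕ)))

/-- idempotents -/
noncomputable def e (F s : Finset (ℕ × ℕ)) : A :=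
  (∏ i ∈ s, (1/2 : ℂ) • (1 + T.x i)) * ∏ i ∈ F \ s, (1/2 : ℂ) • (1 - T.x i)

lemma sum_e (F : Finset (ℕ × ℕ)) : ∑ s ∈ F.powerset, T.e F s = 1 := by
  have h := Finset.prod_add (fun i => (1/2 : ℂ) • (1 + T.x i)) (fun i => (1/2 : ℂ) • (1 - T.x i)) F
  unfold e
  rw [← h]
  refine Finset.prod_eq_one fun i _ => ?_
  rw [← smul_add]
  have : (1 + T.x i + (1 - T.x i)) = (2 : ℂ) • (1 : A) := by rw [two_smul]; ring
  rw [this, smul_smul]; norm_num

lemma x_mul_e {F s : Finset (ℕ × ℕ)} (hs : s ⊆ F) {i : ℕ × ℕ} (hi : i ∈ F) :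
    T.x i * T.e F s = (if i ∈ s then (1:ℂ) else -1) • T.e F s := by
  unfold e
  split_ifs with h
  · rw [← Finset.mul_prod_erase s _ h, one_smul]
    have : T.x i * ((1/2 : ℂ) • (1 + T.x i)) = (1/2 : ℂ) • (1 + T.x i) := by
      rw [mul_smul_comm, mul_add, T.x_sq, mul_one, add_comm]
    rw [← mul_assoc, ← mul_assoc, this]
  · have h' : i ∈ F \ s := Finset.mem_sdiff.2 ⟨hi, h⟩
    rw [← Finset.mul_prod_erase (F \ s) _ h']
    have : T.x i * ((1/2 : ℂ) • (1 - T.x i)) = (-1 : ℂ) • ((1/2 : ℂ) • (1 - T.x i)) := by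
      rw [mul_smul_comm, mul_sub, T.x_sq, mul_one, smul_comm, neg_one_smul, neg_sub]
    rw [← mul_assoc, mul_comm (T.x i), mul_assoc, ← mul_assoc (T.x i), this]
    rw [smul_mul_assoc, mul_smul_comm]

lemma mul_e {F s : Finset (ℕ × ℕ)} (hs : s ⊆ F) {a : A}
    (ha : a ∈ Algebra.adjoin ℂ (T.x '' (F : Set (ℕ × ℕ)))) :
    a * T.e F s = T.chi s a • T.e F s := by
  induction ha using Algebra.adjoin_induction with
  | mem a ha =>
    obtain ⟨i, hi, rfl⟩ := ha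
    rw [T.x_mul_e hs (by simpa using hi), T.chi_x]
  | algebraMap r => rw [Algebra.algebraMap_eq_smul_one, smul_mul_assoc, one_mul, map_smul, map_one,
      smul_eq_mul, mul_one]
  | add a b _ _ h1 h2 => rw [add_mul, h1, h2, map_add, add_smul]
  | mul a b _ _ h1 h2 => rw [mul_assoc, h2, mul_smul_comm, h1, smul_smul, map_mul, mul_comm (T.chi s b)]

lemma expand {F : Finset (ℕ × ℕ)} {a : A}
    (ha : a ∈ Algebra.adjoin ℂ (T.x '' (F : Set (ℕ × ℕ)))) :
    a = ∑ s ∈ F.powerset, T.chi s a • T.e F s := by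
  conv_lhs => rw [← mul_one a, ← T.sum_e F, Finset.mul_sum]
  exact Finset.sum_congr rfl fun s hs => T.mul_e (Finset.mem_powerset.1 hs) ha

lemma e_mem (F s : Finset (ℕ × ℕ)) (hs : s ⊆ F) :
    T.e F s ∈ Algebra.adjoin ℂ (T.x '' (F : Set (ℕ × ℕ))) := by
  have hx : ∀ i ∈ F, T.x i ∈ Algebra.adjoin ℂ (T.x '' (F : Set (ℕ × ℕ))) := fun i hi =>
    Algebra.subset_adjoin ⟨i, by simpa using hi, rfl⟩
  refine Subalgebra.mul_mem _ (Subalgebra.prod_mem _ fun i hi => ?_)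
    (Subalgebra.prod_mem _ fun i hi => ?_)
  · exact Subalgebra.smul_mem _ (Subalgebra.add_mem _ (Subalgebra.one_mem _) (hx i (hs hi))) _
  · exact Subalgebra.smul_mem _ (Subalgebra.sub_mem _ (Subalgebra.one_mem _)
      (hx i (Finset.mem_sdiff.1 hi).1)) _

include T in
lemma norm_prod_le {κ : Type*} (s : Finset κ) (f : κ → A) (hf : ∀ i ∈ s, ‖f i‖ ≤ 1) :
    ‖∏ i ∈ s, f i‖ ≤ 1 := by
  classical
  induction s using Finset.induction_on with
  | empty => simpa using T.one_norm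
  | insert i s hi ih =>
    rw [Finset.prod_insert hi]
    refine (norm_mul_le _ _).trans ?_
    have h1 := hf i (Finset.mem_insert_self _ _)
    have h2 := ih fun j hj => hf j (Finset.mem_insert_of_mem hj)
    nlinarith [norm_nonneg (f i), norm_nonneg (∏ i ∈ s, f i)]

lemma e_norm (F s : Finset (ℕ × ℕ)) : ‖T.e F s‖ ≤ 1 := by
  unfold e
  have h1 : ‖∏ i ∈ s, (1/2 : ℂ) • (1 + T.x i)‖ ≤ 1 := T.norm_prod_le _ _ fun i _ => by
    rw [norm_smul]
    have := norm_add_le (1 : A) (T.x i)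
    have h2 := T.one_norm
    have h3 := T.x_norm i
    norm_num
    linarith
  have h2 : ‖∏ i ∈ F \ s, (1/2 : ℂ) • (1 - T.x i)‖ ≤ 1 := T.norm_prod_le _ _ fun i _ => by
    rw [norm_smul]
    have := norm_sub_le (1 : A) (T.x i)
    have h2 := T.one_norm
    have h3 := T.x_norm i
    norm_num
    linarith
  refine (norm_mul_le _ _).trans ?_
  nlinarith [norm_nonneg (∏ i ∈ s, (1/2 : ℂ) • (1 + T.x i)), norm_nonneg (∏ i ∈ F \ s, (1/2 : ℂ) • (1 - T.x i))]

lemma chi_e (F s : Finset (ℕ × ℕ)) : T.chi s (T.e F s) = 1 := by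
  unfold e
  rw [map_mul, map_prod, map_prod]
  rw [Finset.prod_eq_one, Finset.prod_eq_one, one_mul]
  · intro i hi
    rw [map_smul, map_sub, map_one, T.chi_x, if_neg (Finset.mem_sdiff.1 hi).2, smul_eq_mul]; norm_num
  · intro i hi
    rw [map_smul, map_add, map_one, T.chi_x, if_pos hi, smul_eq_mul]; norm_num

lemma continuous_chi (s : Finset (ℕ × ℕ)) : Continuous (T.chi s) := by
  have := (LinearMap.mkContinuous (T.chi s).toLinearMap 1 (fun a => by simpa using T.chi_norm s a)).continuous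
  exact this

lemma isClosed_alg (n : ℕ) : IsClosed (T.alg n : Set A) := by
  have : (T.alg n : Set A) = {a | a = ∑ s ∈ (T.I n).powerset, T.chi s a • T.e (T.I n) s} := by
    ext a
    constructor
    · intro ha
      exact T.expand ha
    · intro ha
      rw [Set.mem_setOf_eq] at ha
      rw [ha]
      exact Subalgebra.sum_mem _ fun s hs =>
        Subalgebra.smul_mem _ (T.e_mem _ _ (Finset.mem_powerset.1 hs)) _
  rw [this]
  refine isClosed_eq continuous_id (continuous_finset_sum _ fun s _ => ?_)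
  exact (T.continuous_chi s).smul continuous_const

lemma alg_mono {m n : ℕ} (h : m ≤ n) : T.alg m ≤ T.alg n := by
  have h1 : T.I m ⊆ T.I n := by
    induction h with
    | refl => exact subset_rfl
    | step _ ih => exact ih.trans (T.mono _)
  exact Algebra.adjoin_mono (Set.image_mono (by exact_mod_cast h1))

/-- `t m n = u_m u_{m+1} ... u_{n-1}` -/
noncomputable def t (m n : ℕ) : A := ∏ j ∈ Finset.Ico m n, T.u j

lemma t_self (m : ℕ) : T.t m m = 1 := by simp [t]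

lemma t_norm (m n : ℕ) : ‖T.t m n‖ ≤ 1 := T.norm_prod_le _ _ fun i _ => T.u_norm i

lemma t_mul {m k n : ℕ} (h1 : m ≤ k) (h2 : k ≤ n) : T.t m k * T.t k n = T.t m n :=
  Finset.prod_Ico_consecutive _ h1 h2

lemma t_mem {m n k : ℕ} (h : n ≤ k) : T.t m n ∈ T.alg k :=
  Subalgebra.prod_mem _ fun j hj => T.alg_mono (by have := (Finset.mem_Ico.1 hj).2; omega) (T.u_mem j)

lemma t_succ_right {m n : ℕ} (h : m ≤ n) : T.t m (n+1) = T.t m n * T.u n :=
  Finset.prod_Ico_succ_top h _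

lemma t_rel {m k n : ℕ} (h1 : m ≤ k) (h2 : k + 1 ≤ n) :
    ‖T.t m (k+1) * (1 - T.t (k+1) n)‖ ≤ T.eps k := by
  rw [T.t_succ_right h1, mul_assoc]
  refine (norm_mul_le _ _).trans ?_
  have h3 := T.rel k n (by omega)
  have h4 := T.t_norm m k
  calc ‖T.t m k‖ * ‖T.u k * (1 - T.t (k+1) n)‖ ≤ 1 * T.eps k :=
        mul_le_mul h4 h3 (norm_nonneg _) zero_le_one
    _ = _ := one_mul _

lemma chi_u (s : Finset (ℕ × ℕ)) (n : ℕ) : ‖T.chi s (T.u n)‖ ≤ 1/2 := by
  by_contra hlt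
  push_neg at hlt
  set r := ‖T.chi s (T.u n)‖ with hr
  have h1 : ∀ k : ℕ, (2 * r) ^ k ≤ T.C n := by
    intro k
    have h2 : r ^ k ≤ T.C n * (1/2)^k := by
      rw [hr, ← norm_pow, ← map_pow]
      exact (T.chi_norm _ _).trans (T.u_pow n k)
    rw [mul_pow]
    calc 2 ^ k * r ^ k ≤ 2 ^ k * (T.C n * (1/2)^k) := by gcongr
      _ = T.C n := by
        rw [one_div, inv_pow]; field_simp
  have h3 : Tendsto (fun k : ℕ => (2 * r) ^ k) atTop atTop :=
    tendsto_pow_atTop_atTop_of_one_lt (by linarith)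
  obtain ⟨k, hk⟩ := (h3.eventually_gt_atTop (T.C n)).exists
  linarith [h1 k]

lemma chi_t (s : Finset (ℕ × ℕ)) {m n : ℕ} (h : m ≤ n) : ‖T.chi s (T.t m n)‖ ≤ (1/2)^(n-m) := by
  unfold t
  rw [map_prod, norm_prod]
  calc ∏ j ∈ Finset.Ico m n, ‖T.chi s (T.u j)‖ ≤ ∏ j ∈ Finset.Ico m n, (1/2 : ℝ) :=
        Finset.prod_le_prod (fun _ _ => norm_nonneg _) fun j _ => T.chi_u s j
    _ = _ := by simp

end Tower

end H611R4
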