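import Mathlib
import Pool.Agent.H611R3.ZL.Def

set_option autoImplicit false
set_option maxSynthPendingDepth 3
set_option linter.unusedSectionVars false

open WeakDual

namespace H611R4

/-- A commutative complex Banach algebra is semisimple if its characters separate its points. -/
def IsSemisimple (A : Type) [NormedCommRing A] [NormedAlgebra ℂ A] : Prop :=
  ∀ a : A, (∀ φ : characterSpace ℂ A, φ a = 0) → a = 0

/-- `A` is regular on its Gelfand spectrum `X`: for `F ⊆ X` closed and `φ ∉ F` there is `a ∈ A` with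
`â(φ) ≠ 0` and `â = 0` on `F`. -/
def IsRegular (A : Type) [NormedCommRing A] [NormedAlgebra ℂ A] : Prop :=
  ∀ (F : Set (characterSpace ℂ A)) (φ : characterSpace ℂ A), IsClosed F → φ ∉ F →
    ∃ a : A, φ a ≠ 0 ∧ ∀ ψ ∈ F, ψ a = 0

/-- the elementary tensor `a ⊗ b`, as a functional on the Banach space of bounded bilinear forms -/
noncomputable def tmul {A : Type} [NormedCommRing A] [NormedAlgebra ℂ A] (a b : A) :
    (A →L[ℂ] A →L[ℂ] ℂ) →L[ℂ] ℂ :=
  (ContinuousLinearMap.apply ℂ ℂ b).comp (ContinuousLinearMap.apply ℂ (A →L[ℂ] ℂ) a)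

/-- The projective tensor product `A ⊗̂ A`: the closed linear span of the elementary tensors in the dual
of the space of bounded bilinear forms on `A × A` (the embedding of `A ⊗̂ A` into its bidual). -/
noncomputable def ProjSq (A : Type) [NormedCommRing A] [NormedAlgebra ℂ A] :
    Submodule ℂ ((A →L[ℂ] A →L[ℂ] ℂ) →L[ℂ] ℂ) :=
  (Submodule.span ℂ {u | ∃ a b : A, u = tmul a b}).topologicalClosure

/-- the bilinear form `(a, b) ↦ φ(a) ψ(b)` -/
noncomputable def charForm {A : Type} [NormedCommRing A] [NormedAlgebra ℂ A]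
    (φ ψ : characterSpace ℂ A) : A →L[ℂ] A →L[ℂ] ℂ :=
  (CharacterSpace.toCLM φ).smulRight (CharacterSpace.toCLM ψ)

/-- the Gelfand transform of `u ∈ A ⊗̂ A` on the spectrum `X × X` of `A ⊗̂ A` -/
noncomputable def gelf {A : Type} [NormedCommRing A] [NormedAlgebra ℂ A]
    (u : (A →L[ℂ] A →L[ℂ] ℂ) →L[ℂ] ℂ) (p : characterSpace ℂ A × characterSpace ℂ A) : ℂ :=
  u (charForm p.1 p.2)

/-- `A ⊗̂ A` is semisimple -/
def TensorSemisimple (A : Type) [NormedCommRing A] [NormedAlgebra ℂ A] : Prop :=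
  ∀ u ∈ ProjSq A, (∀ p, gelf u p = 0) → u = 0

/-- `A` is hyper-Tauberian: the diagonal `X_D` of `X × X` is spectral for `A ⊗̂ A`, that is, every
`u ∈ A ⊗̂ A` vanishing on `X_D` is a limit of `v ∈ A ⊗̂ A` with `supp v ∩ X_D = ∅`. -/
def HyperTauberian (A : Type) [NormedCommRing A] [NormedAlgebra ℂ A] : Prop :=
  ∀ u ∈ ProjSq A, (∀ φ, gelf u (φ, φ) = 0) → ∀ ε > 0,
    ∃ v ∈ ProjSq A, (∀ φ, (φ, φ) ∉ closure {p | gelf v p ≠ 0}) ∧ ‖u - v‖ < ε

end H611R4
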