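import Mathlib
import Pool.Agent.H611R4.B1
import Pool.Agent.H611R4.Def

set_option autoImplicit false
set_option maxSynthPendingDepth 3
set_option linter.unusedSectionVars false

open Filter Topology BoundedContinuousFunction WeakDual

namespace H611R4

def TaskT : Prop := ∃ (A : Type) (_ : NormedCommRing A) (_ : NormedAlgebra ℂ A) (_ : CompleteSpace A),
  Nonempty (Tower A)

namespace Tower

variable {A : Type} [NormedCommRing A] [NormedAlgebra ℂ A] (T : Tower A)

/-- bounded sequences `a` with `a n ∈ A_n` and, for some `M` and `v ∈ A_M`, `a n = v t_M^{(n)}` for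
all `n ≥ M` -/
noncomputable def B0 : Submodule ℂ (ℕ →ᵇ A) where
  carrier := {a | (∀ n, a n ∈ T.alg n) ∧ ∃ M, ∃ v ∈ T.alg M, ∀ n, M ≤ n → a n = v * T.t M n}
  zero_mem' := ⟨fun n => by simp, 0, 0, by simp, fun n _ => by simp⟩
  add_mem' := by
    rintro a b ⟨ha, M, v, hv, hM⟩ ⟨hb, N, w, hw, hN⟩
    refine ⟨fun n => by simpa using Subalgebra.add_mem _ (ha n) (hb n), max M N,
      v * T.t M (max M N) + w * T.t N (max M N), ?_, fun n hn => ?_⟩
    · exact Subalgebra.add_mem _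
        (Subalgebra.mul_mem _ (T.alg_mono (le_max_left _ _) hv) (T.t_mem le_rfl))
        (Subalgebra.mul_mem _ (T.alg_mono (le_max_right _ _) hw) (T.t_mem le_rfl))
    · have h1 : M ≤ n := (le_max_left _ _).trans hn
      have h2 : N ≤ n := (le_max_right _ _).trans hn
      rw [BoundedContinuousFunction.coe_add, Pi.add_apply, hM n h1, hN n h2,
        ← T.t_mul (le_max_left M N) hn, ← T.t_mul (le_max_right M N) hn]
      ring
  smul_mem' := by
    rintro c a ⟨ha, M, v, hv, hM⟩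
    refine ⟨fun n => by simpa using Subalgebra.smul_mem _ (ha n) c, M, c • v,
      Subalgebra.smul_mem _ hv c, fun n hn => ?_⟩
    show c • a n = _
    rw [hM n hn, smul_mul_assoc]

/-- the counterexample -/
noncomputable def BB : Subalgebra ℂ (ℕ →ᵇ A) := (Algebra.adjoin ℂ (T.B0 : Set (ℕ →ᵇ A))).topologicalClosure

end Tower

variable {A : Type} [NormedCommRing A] [NormedAlgebra ℂ A]

/-- density: every element of `BB` is a limit of elements `λ 1 + b`, `b ∈ B0` -/
def TaskB1 : Prop := ∀ (A : Type) [NormedCommRing A] [NormedAlgebra ℂ A] (T : Tower A)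
  (a : ℕ →ᵇ A), a ∈ T.BB → ∀ ε > 0, ∃ (c : ℂ) (b : ℕ →ᵇ A), b ∈ T.B0 ∧ ‖a - (c • 1 + b)‖ < ε

/-- amenability -/
def TaskB2 : Prop := TaskD → TaskB1 → ∀ (A : Type) [NormedCommRing A] [NormedAlgebra ℂ A]
  [CompleteSpace A] (T : Tower A), H611R3.ZL.IsAmenable T.BB

/-- characters: either an evaluation or zero on `B0` -/
def TaskB3 : Prop := ∀ (A : Type) [NormedCommRing A] [NormedAlgebra ℂ A]
  [CompleteSpace A] (T : Tower A) (φ : characterSpace ℂ T.BB),
    (∃ n, ∃ s ⊆ T.I n, ∀ a : T.BB, φ a = T.chi s ((a : ℕ →ᵇ A) n)) ∨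
    (∀ a : T.BB, (a : ℕ →ᵇ A) ∈ T.B0 → φ a = 0)

/-- regularity -/
def TaskB4 : Prop := TaskB1 → TaskB3 → ∀ (A : Type) [NormedCommRing A] [NormedAlgebra ℂ A]
  [CompleteSpace A] (T : Tower A), IsRegular T.BB

/-- semisimplicity of the projective tensor square -/
def TaskB5 : Prop := TaskB1 → ∀ (A : Type) [NormedCommRing A] [NormedAlgebra ℂ A]
  [CompleteSpace A] (T : Tower A), TensorSemisimple T.BB

/-- there is a character vanishing on `B0` -/
def TaskB6 : Prop := TaskB1 → ∀ (A : Type) [NormedCommRing A] [NormedAlgebra ℂ A]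
  [CompleteSpace A] (T : Tower A), ∃ ω : characterSpace ℂ T.BB,
    ∀ a : T.BB, (a : ℕ →ᵇ A) ∈ T.B0 → ω a = 0

/-- slicing: for `v ∈ B ⊗̂ B` and a character `ω` there is `b = (id ⊗ ω)(v) ∈ B` -/
def TaskB7 : Prop := ∀ (B : Type) [NormedCommRing B] [NormedAlgebra ℂ B] [CompleteSpace B]
  (ω : characterSpace ℂ B) (v : (B →L[ℂ] B →L[ℂ] ℂ) →L[ℂ] ℂ), v ∈ ProjSq B →
    ∃ b : B, ∀ f : B →L[ℂ] ℂ, f b = v (f.smulRight (CharacterSpace.toCLM ω))

/-- failure of the hyper-Tauberian property -/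
def TaskB8 : Prop := TaskB1 → TaskB3 → TaskB6 → TaskB7 → ∀ (A : Type) [NormedCommRing A]
  [NormedAlgebra ℂ A] [CompleteSpace A] (T : Tower A), ¬ HyperTauberian T.BB

end H611R4
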