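import Mathlib
import Pool.Agent.H611R4.Stmts2

set_option autoImplicit false
set_option maxSynthPendingDepth 3
set_option linter.unusedSectionVars false

open Filter Topology

namespace H611R4

lemma of_zero : of 0 = 1 := rfl

lemma of_mul (g h : Gam) : of g * of h = of (g + h) := by
  simp [of, AddMonoidAlgebra.single_mul_single]

lemma L1.mono {v : VV} {c d : ℝ} (h : L1 v c) (hcd : c ≤ d) : L1 v d :=
  fun Λ hΛ => (h Λ hΛ).trans hcd

lemma L1_of (g : Gam) : L1 (of g) 1 := fun _ hΛ => hΛ g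

lemma L1_one : L1 (1 : VV) 1 := by
  rw [← of_zero]; exact L1_of 0

lemma L1.add {v w : VV} {c d : ℝ} (hv : L1 v c) (hw : L1 w d) : L1 (v + w) (c + d) := by
  intro Λ hΛ
  rw [map_add]
  exact (norm_add_le _ _).trans (add_le_add (hv Λ hΛ) (hw Λ hΛ))

lemma L1.smul {v : VV} {c : ℝ} (hv : L1 v c) (a : ℂ) : L1 (a • v) (‖a‖ * c) := by
  intro Λ hΛ
  rw [map_smul, norm_smul]
  exact mul_le_mul_of_nonneg_left (hv Λ hΛ) (norm_nonneg _)

lemma L1.sub {v w : VV} {c d : ℝ} (hv : L1 v c) (hw : L1 w d) : L1 (v - w) (c + d) := by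
  intro Λ hΛ
  rw [map_sub]
  exact (norm_sub_le _ _).trans (add_le_add (hv Λ hΛ) (hw Λ hΛ))

lemma L1.sum {ι : Type*} (s : Finset ι) (f : ι → VV) (c : ι → ℝ) (h : ∀ i ∈ s, L1 (f i) (c i)) :
    L1 (∑ i ∈ s, f i) (∑ i ∈ s, c i) := by
  intro Λ hΛ
  rw [map_sum]
  exact (norm_sum_le _ _).trans (Finset.sum_le_sum fun i hi => h i hi Λ hΛ)

lemma L1.apply {v : VV} {c : ℝ} (hv : L1 v c) (Λ : VV →ₗ[ℂ] ℂ) {κ : ℝ} (hκ : 0 < κ)
    (h : ∀ g, ‖Λ (of g)‖ ≤ κ) : ‖Λ v‖ ≤ c * κ := by
  have h1 := hv (((κ : ℂ)⁻¹) • Λ) (fun g => by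
    rw [LinearMap.smul_apply, norm_smul, norm_inv, Complex.norm_real, Real.norm_of_nonneg hκ.le,
      inv_mul_le_iff₀ hκ, mul_one]
    exact h g)
  rw [LinearMap.smul_apply, norm_smul, norm_inv, Complex.norm_real, Real.norm_of_nonneg hκ.le,
      inv_mul_le_iff₀ hκ] at h1
  linarith

lemma L1.nonneg {v : VV} {c : ℝ} (hv : L1 v c) : 0 ≤ c := by
  have := hv 0 (by simp)
  simpa using this

lemma L1.mul {v w : VV} {c d : ℝ} (hv : L1 v c) (hw : L1 w d) (hd : 0 < d) : L1 (v * w) (c * d) := by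
  intro Λ hΛ
  have h1 : ∀ g, ‖Λ (of g * w)‖ ≤ d := by
    intro g
    have := hw (Λ ∘ₗ LinearMap.mulLeft ℂ (of g)) (fun h => by
      simp only [LinearMap.comp_apply, LinearMap.mulLeft_apply, of_mul]; exact hΛ _)
    simpa using this
  have := hv.apply (Λ ∘ₗ LinearMap.mulRight ℂ w) hd (fun g => by simpa using h1 g)
  simpa using this

lemma L1.mul1 {v w : VV} (hv : L1 v 1) (hw : L1 w 1) : L1 (v * w) 1 := by
  simpa using hv.mul hw one_pos

lemma L1.prod1 {ι : Type*} (s : Finset ι) (f : ι → VV) (h : ∀ i ∈ s, L1 (f i) 1) :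
    L1 (∏ i ∈ s, f i) 1 := by
  classical
  induction s using Finset.induction_on with
  | empty => simpa using L1_one
  | insert i s hi ih =>
    rw [Finset.prod_insert hi]
    exact (h i (Finset.mem_insert_self _ _)).mul1 (ih fun j hj => h j (Finset.mem_insert_of_mem hj))

lemma L1.pow1 {v : VV} (h : L1 v 1) (n : ℕ) : L1 (v ^ n) 1 := by
  induction n with
  | zero => simpa using L1_one
  | succ n ih => rw [pow_succ]; exact ih.mul1 h

section key

variable (u : ℕ → VV) (C δ κ : ℕ → ℝ) (hC : ∀ j, 1 ≤ C j) (hδ : ∀ j, 0 < δ j)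
  (hu1 : ∀ j, L1 (u j) 1) (hu : ∀ j k, L1 (u j ^ k) (C j * δ j ^ k))
  (Λ : VV →ₗ[ℂ] ℂ) (h1 : ∀ g, ‖Λ (of g)‖ ≤ 1) (hκ0 : ∀ j, 0 < κ j)
  (hκ : ∀ j g, ‖Λ (of g * (1 - u j))‖ ≤ κ j)

include hu1 hκ0 hκ in
lemma telescope (a n : ℕ) (g : Gam) :
    ‖Λ (of g * (1 - ∏ j ∈ Finset.Ico a n, u j))‖ ≤ ∑ j ∈ Finset.Ico a n, κ j := by
  induction n with
  | zero => simp
  | succ n ih =>
    rcases Nat.lt_or_ge n a with h | h
    · rw [Finset.Ico_eq_empty (by omega)]; simp
    · rw [Finset.prod_Ico_succ_top h, Finset.sum_Ico_succ_top h]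
      set P := ∏ j ∈ Finset.Ico a n, u j with hP
      have h2 : of g * (1 - P * u n) = of g * (1 - P) + (of g * P) * (1 - u n) := by ring
      rw [h2, map_add]
      refine (norm_add_le _ _).trans (add_le_add ih ?_)
      have h3 : L1 (of g * P) 1 := (L1_of g).mul1 (L1.prod1 _ _ fun j _ => hu1 j)
      have h4 := h3.apply (Λ ∘ₗ LinearMap.mulRight ℂ (1 - u n)) (hκ0 n) (fun g => by
        simpa using hκ n g)
      simpa using h4

include hC hδ hu in
lemma multi_bound (P : ℕ) (t : Multiset ℕ) (ht : ∀ m ∈ t, m < P) :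
    L1 ((t.map u).prod) ((∏ m ∈ Finset.range P, C m) * (t.map δ).prod) := by
  induction P generalizing t with
  | zero =>
    have : t = 0 := Multiset.eq_zero_of_forall_notMem fun m hm => by
      have := ht m hm; omega
    subst this
    simpa using L1_one
  | succ P ih =>
    have hsplit : t = t.filter (fun m => m = P) + t.filter (fun m => ¬ m = P) :=
      (Multiset.filter_add_not (fun m => m = P) t).symm
    have h2 : t.filter (fun m => m = P) = Multiset.replicate (t.count P) P :=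
      Multiset.filter_eq' t P
    rw [hsplit, h2, Multiset.map_add, Multiset.prod_add, Multiset.map_add, Multiset.prod_add,
      Multiset.map_replicate, Multiset.prod_replicate, Multiset.map_replicate,
      Multiset.prod_replicate, Finset.prod_range_succ]
    have h3 := ih (t.filter (fun m => ¬ m = P)) (fun m hm => by
      rw [Multiset.mem_filter] at hm
      have := ht m hm.1
      omega)
    have h4 : 0 < (∏ m ∈ Finset.range P, C m) *
        ((t.filter (fun m => ¬ m = P)).map δ).prod := by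
      refine mul_pos (Finset.prod_pos fun m _ => by linarith [hC m]) ?_
      have : ∀ s : Multiset ℕ, 0 < (s.map δ).prod := by
        intro s
        induction s using Multiset.induction_on with
        | empty => simp
        | cons a s ih => rw [Multiset.map_cons, Multiset.prod_cons]; exact mul_pos (hδ a) ih
      exact this _
    refine ((hu P (t.count P)).mul h3 h4).mono (le_of_eq ?_)
    ring

variable (hsum : ∀ p n, (∏ m ∈ Finset.range (p+1), C m) * ∑ j ∈ Finset.Ico (p+1) n, κ j ≤ 1)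

include hC hδ hu1 hu h1 hκ0 hκ hsum in
theorem key (s : Multiset (ℕ × ℕ)) (g : Gam) :
    ‖Λ (of g * (s.map (fun q => u q.1 * (1 - ∏ j ∈ Finset.Ico (q.1+1) q.2, u j))).prod)‖ ≤
      (s.map (fun q => 2 * δ q.1)).prod := by
  rcases Multiset.empty_or_exists_mem s with h0 | ⟨q0, hq0⟩
  · subst h0
    simpa using h1 g
  -- a pair with maximal first entry
  obtain ⟨q, hq, hmax⟩ : ∃ q ∈ s, ∀ r ∈ s, r.1 ≤ q.1 := by
    have := Finset.exists_max_image s.toFinset Prod.fst ⟨q0, by simpa using hq0⟩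
    obtain ⟨q, hq, hmax⟩ := this
    exact ⟨q, by simpa using hq, fun r hr => hmax r (by simpa using hr)⟩
  obtain ⟨s', rfl⟩ := Multiset.exists_cons_of_mem hq
  set v : ℕ × ℕ → VV := fun q => ∏ j ∈ Finset.Ico (q.1+1) q.2, u j with hv
  have hv1 : ∀ r, L1 (v r) 1 := fun r => L1.prod1 _ _ fun j _ => hu1 j
  set CP := ∏ m ∈ Finset.range (q.1+1), C m with hCP
  have hCP0 : 0 < CP := Finset.prod_pos fun m _ => by linarith [hC m]
  have hA : L1 (((q ::ₘ s').map (fun r => u r.1)).prod)
      (CP * ((q ::ₘ s').map (fun r => δ r.1)).prod) := by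
    have := multi_bound u C δ hC hδ hu (q.1+1) ((q ::ₘ s').map Prod.fst) (fun m hm => by
      rw [Multiset.mem_map] at hm
      obtain ⟨r, hr, rfl⟩ := hm
      exact Nat.lt_succ_of_le (hmax r hr))
    simpa [Multiset.map_map, Function.comp_def] using this
  have hB : ∀ s' : Multiset (ℕ × ℕ), L1 ((s'.map (fun r => 1 - v r)).prod) (2 ^ (Multiset.card s')) := by
    intro s'
    induction s' using Multiset.induction_on with
    | empty => simpa using L1_one
    | cons a s ih =>
      rw [Multiset.map_cons, Multiset.prod_cons, Multiset.card_cons, pow_succ']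
      refine L1.mul ?_ ih (by positivity)
      have := L1_one.sub (hv1 a)
      norm_num at this
      exact this
  have hprod : ∀ s : Multiset (ℕ × ℕ), (s.map (fun q => u q.1 * (1 - v q))).prod
      = (s.map (fun r => u r.1)).prod * (s.map (fun r => 1 - v r)).prod := by
    intro s
    rw [← Multiset.prod_map_mul]
  have hP : L1 (((q ::ₘ s').map (fun r => u r.1)).prod * (s'.map (fun r => 1 - v r)).prod)
      (CP * ((q ::ₘ s').map (fun r => δ r.1)).prod * 2 ^ (Multiset.card s')) :=
    hA.mul (hB s') (by positivity)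
  have hgP : L1 (of g * (((q ::ₘ s').map (fun r => u r.1)).prod * (s'.map (fun r => 1 - v r)).prod))
      (1 * (CP * ((q ::ₘ s').map (fun r => δ r.1)).prod * 2 ^ (Multiset.card s'))) := by
    refine (L1_of g).mul hP ?_
    have : ∀ s : Multiset (ℕ × ℕ), 0 < (s.map (fun r => δ r.1)).prod := by
      intro s
      induction s using Multiset.induction_on with
      | empty => simp
      | cons a s ih => rw [Multiset.map_cons, Multiset.prod_cons]; exact mul_pos (hδ _) ih
    have := this (q ::ₘ s')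
    positivity
  have hfin := hgP.apply (Λ ∘ₗ LinearMap.mulRight ℂ (1 - v q)) (κ := CP⁻¹) (inv_pos.2 hCP0)
    (fun g => by
      have h3 := telescope u κ hu1 Λ hκ0 hκ (q.1+1) q.2 g
      have h4 := hsum q.1 q.2
      simp only [LinearMap.comp_apply, LinearMap.mulRight_apply]
      refine h3.trans ?_
      rw [← hCP] at h4
      rw [← mul_le_mul_iff_right₀ hCP0, mul_inv_cancel₀ hCP0.ne']
      exact h4)
  have h5 : (Λ ∘ₗ LinearMap.mulRight ℂ (1 - v q))
      (of g * (((q ::ₘ s').map (fun r => u r.1)).prod * (s'.map (fun r => 1 - v r)).prod))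
      = Λ (of g * ((q ::ₘ s').map (fun q => u q.1 * (1 - v q))).prod) := by
    rw [hprod]
    simp only [LinearMap.comp_apply, LinearMap.mulRight_apply, Multiset.map_cons,
      Multiset.prod_cons]
    congr 1
    ring
  rw [h5] at hfin
  refine hfin.trans ?_
  have h6 : ((q ::ₘ s').map (fun q => 2 * δ q.1)).prod =
      2 ^ (Multiset.card s' + 1) * ((q ::ₘ s').map (fun r => δ r.1)).prod := by
    rw [Multiset.prod_map_mul, Multiset.map_const', Multiset.prod_replicate, Multiset.card_cons]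
  rw [h6]
  have h7 : 0 ≤ ((q ::ₘ s').map (fun r => δ r.1)).prod := by
    apply Multiset.prod_nonneg
    intro a ha
    rw [Multiset.mem_map] at ha
    obtain ⟨r, _, rfl⟩ := ha
    exact (hδ _).le
  have h8 : 1 * (CP * ((q ::ₘ s').map (fun r => δ r.1)).prod * 2 ^ (Multiset.card s')) * CP⁻¹
      = 2 ^ (Multiset.card s') * ((q ::ₘ s').map (fun r => δ r.1)).prod := by
    field_simp
  rw [h8]
  refine mul_le_mul_of_nonneg_right ?_ h7
  exact pow_le_pow_right₀ (by norm_num) (Nat.le_succ _)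

end key

end H611R4
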