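import Mathlib
import Pool.Agent.H611R4.Stmts

set_option autoImplicit false
set_option maxSynthPendingDepth 3

/-!
# Task C1 of project H611-HT (helper811)
-/

open Finset

namespace H611R4

namespace C1

theorem of_mul_of (g h : Gam) : of g * of h = of (g + h) := by
  unfold of
  rw [AddMonoidAlgebra.single_mul_single, one_mul]

theorem of_zero : of 0 = 1 := rfl

theorem of_sq (j l : ℕ) : of (Finsupp.single (j, l) (1 : ZMod 2)) * of (Finsupp.single (j, l) 1) = 1 := by
  rw [of_mul_of, ← Finsupp.single_add]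
  have : (1 : ZMod 2) + 1 = 0 := by decide
  rw [this, Finsupp.single_zero, of_zero]

/-- the projection factor of sign `ε` -/
noncomputable def pf (ε : ℂ) (j l : ℕ) : VV := (1 / 2 : ℂ) • (1 + ε • of (Finsupp.single (j, l) 1))

theorem x_mul_pf (ε : ℂ) (hε : ε * ε = 1) (j l : ℕ) :
    of (Finsupp.single (j, l) 1) * pf ε j l = ε • pf ε j l := by
  unfold pf
  rw [mul_smul_comm, mul_add, mul_one, mul_smul_comm, of_sq, smul_comm ε, smul_add ε, smul_smul, hε, one_smul]
  rw [add_comm]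

noncomputable def es (N j : ℕ) (s : Finset ℕ) : VV :=
  (∏ l ∈ s, pf 1 j l) * ∏ l ∈ Finset.range N \ s, pf (-1) j l

theorem sum_es (N j : ℕ) : ∑ s ∈ (Finset.range N).powerset, es N j s = 1 := by
  unfold es
  rw [← Finset.prod_add]
  apply Finset.prod_eq_one
  intro l _
  unfold pf
  rw [← smul_add]
  have : (1 : VV) + (1 : ℂ) • of (Finsupp.single (j, l) 1) + (1 + (-1 : ℂ) • of (Finsupp.single (j, l) 1)) =
      (2 : ℂ) • (1 : VV) := by
    rw [one_smul, neg_one_smul, two_smul]; abel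
  rw [this, smul_smul]; norm_num

theorem x_mul_es (N j l : ℕ) (s : Finset ℕ) (hs : s ⊆ Finset.range N) (hl : l ∈ Finset.range N) :
    of (Finsupp.single (j, l) 1) * es N j s = (if l ∈ s then (1 : ℂ) else -1) • es N j s := by
  unfold es
  split_ifs with h
  · rw [← Finset.mul_prod_erase s _ h, ← mul_assoc, ← mul_assoc, x_mul_pf 1 (by norm_num)]
    rw [one_smul, one_smul]
  · have h' : l ∈ Finset.range N \ s := Finset.mem_sdiff.mpr ⟨hl, h⟩
    rw [← Finset.mul_prod_erase (Finset.range N \ s) _ h']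
    generalize (∏ l ∈ s, pf 1 j l) = P
    generalize (∏ x ∈ (Finset.range N \ s).erase l, pf (-1) j x) = R
    have h1 := x_mul_pf (-1) (by norm_num) j l
    rw [show of (Finsupp.single (j, l) 1) * (P * (pf (-1) j l * R)) =
      P * ((of (Finsupp.single (j, l) 1) * pf (-1) j l) * R) by ring, h1]
    rw [smul_mul_assoc, mul_smul_comm]

noncomputable def cs (N : ℕ) (s : Finset ℕ) : ℂ :=
  ((1 : ℂ) / N) * ∑ l ∈ Finset.range N, (1 / 2 : ℂ) * (1 + Complex.I * (if l ∈ s then (1 : ℂ) else -1))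

theorem vel_mul_es (N j : ℕ) (s : Finset ℕ) (hs : s ⊆ Finset.range N) :
    vel N j * es N j s = cs N s • es N j s := by
  unfold vel cs
  rw [smul_mul_assoc, Finset.sum_mul, mul_smul, Finset.sum_smul]
  congr 1
  apply Finset.sum_congr rfl
  intro l hl
  rw [smul_mul_assoc, add_mul, one_mul, smul_mul_assoc, x_mul_es N j l s hs hl, mul_smul, add_smul,
    one_smul, mul_smul]

theorem norm_cs (N : ℕ) (hN : 0 < N) (s : Finset ℕ) : ‖cs N s‖ ≤ 1 / Real.sqrt 2 := by
  unfold cs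
  have h1 : ∀ l ∈ Finset.range N, ‖(1 / 2 : ℂ) * (1 + Complex.I * (if l ∈ s then (1 : ℂ) else -1))‖ ≤ 1 / Real.sqrt 2 := by
    intro l _
    have h2 : (1 : ℝ) / Real.sqrt 2 = Real.sqrt 2 / 2 := by
      rw [div_eq_div_iff (by positivity) (by norm_num)]
      have := Real.mul_self_sqrt (show (0:ℝ) ≤ 2 by norm_num)
      linarith
    have h3 : ‖(1 + Complex.I * (if l ∈ s then (1 : ℂ) else -1))‖ = Real.sqrt 2 := by
      rw [Complex.norm_def]
      congr 1
      rw [Complex.normSq_apply]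
      split_ifs <;> simp <;> norm_num
    rw [norm_mul, h3, h2]
    norm_num
    linarith
  rw [norm_mul]
  have h2 := (norm_sum_le _ _).trans (Finset.sum_le_sum h1)
  rw [Finset.sum_const, Finset.card_range, nsmul_eq_mul] at h2
  have hNR : (0 : ℝ) < N := by exact_mod_cast hN
  have h3 : ‖(1 : ℂ) / N‖ = 1 / N := by
    rw [norm_div, norm_one, Complex.norm_natCast]
  rw [h3]
  calc (1 : ℝ) / N * ‖∑ l ∈ Finset.range N, (1 / 2 : ℂ) * (1 + Complex.I * (if l ∈ s then (1 : ℂ) else -1))‖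
      ≤ 1 / N * (N * (1 / Real.sqrt 2)) := by gcongr
    _ = 1 / Real.sqrt 2 := by field_simp

theorem pow_mul_es (N j n : ℕ) (s : Finset ℕ) (hs : s ⊆ Finset.range N) :
    vel N j ^ n * es N j s = cs N s ^ n • es N j s := by
  induction n with
  | zero => rw [pow_zero, pow_zero, one_mul, one_smul]
  | succ n ih =>
    rw [pow_succ, mul_assoc, vel_mul_es N j s hs, mul_smul_comm, ih, smul_smul, pow_succ, mul_comm]

theorem prod_bd (Λ : VV →ₗ[ℂ] ℂ) (ε : ℂ) (hε : ‖ε‖ = 1) (j : ℕ) (s : Finset ℕ)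
    (w : VV) (hw : ∀ g, ‖Λ (w * of g)‖ ≤ 1) : ∀ g, ‖Λ ((w * ∏ l ∈ s, pf ε j l) * of g)‖ ≤ 1 := by
  classical
  induction s using Finset.induction_on with
  | empty => simpa using hw
  | insert a s ha ih =>
    intro g
    rw [Finset.prod_insert ha]
    have h1 : w * (pf ε j a * ∏ l ∈ s, pf ε j l) * of g =
        (1 / 2 : ℂ) • ((w * ∏ l ∈ s, pf ε j l) * of g) +
        ((1 / 2 : ℂ) * ε) • ((w * ∏ l ∈ s, pf ε j l) * of (Finsupp.single (j, a) 1 + g)) := by
      rw [← of_mul_of]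
      generalize (∏ l ∈ s, pf ε j l) = P
      unfold pf
      generalize of (Finsupp.single (j, a) 1) = x
      generalize of g = y
      rw [smul_mul_assoc, mul_smul_comm, smul_mul_assoc, mul_smul, ← smul_add]
      congr 1
      rw [add_mul, one_mul, mul_add, add_mul, smul_mul_assoc, mul_smul_comm, smul_mul_assoc]
      congr 2
      ring
    rw [h1, map_add, map_smul, map_smul, smul_eq_mul, smul_eq_mul]
    have h2 := ih g
    have h3 := ih (Finsupp.single (j, a) 1 + g)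
    calc ‖(1 / 2 : ℂ) * Λ ((w * ∏ l ∈ s, pf ε j l) * of g) +
          (1 / 2 : ℂ) * ε * Λ ((w * ∏ l ∈ s, pf ε j l) * of (Finsupp.single (j, a) 1 + g))‖
        ≤ ‖(1 / 2 : ℂ) * Λ ((w * ∏ l ∈ s, pf ε j l) * of g)‖ +
          ‖(1 / 2 : ℂ) * ε * Λ ((w * ∏ l ∈ s, pf ε j l) * of (Finsupp.single (j, a) 1 + g))‖ := norm_add_le _ _
      _ ≤ 1 / 2 * 1 + 1 / 2 * 1 := by
          rw [norm_mul, norm_mul, norm_mul, hε, mul_one]
          have h4 : ‖(1 / 2 : ℂ)‖ = 1 / 2 := by norm_num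
          rw [h4]
          gcongr
      _ = 1 := by norm_num

theorem es_bd (Λ : VV →ₗ[ℂ] ℂ) (hΛ : ∀ g, ‖Λ (of g)‖ ≤ 1) (N j : ℕ) (s : Finset ℕ) : ‖Λ (es N j s)‖ ≤ 1 := by
  have h1 := prod_bd Λ 1 (by norm_num) j s 1 (by intro g; rw [one_mul]; exact hΛ g)
  have h2 := prod_bd Λ (-1) (by norm_num) j (Finset.range N \ s) _ h1 0
  rw [of_zero, mul_one, one_mul] at h2
  exact h2

end C1

open C1 in
theorem taskC1 : TaskC1 := by
  intro N j n hN Λ hΛ
  have h1 : vel N j ^ n = ∑ s ∈ (Finset.range N).powerset, cs N s ^ n • es N j s := by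
    calc vel N j ^ n = vel N j ^ n * ∑ s ∈ (Finset.range N).powerset, es N j s := by rw [sum_es, mul_one]
      _ = ∑ s ∈ (Finset.range N).powerset, cs N s ^ n • es N j s := by
        rw [Finset.mul_sum]
        apply Finset.sum_congr rfl
        intro s hs
        exact pow_mul_es N j n s (Finset.mem_powerset.mp hs)
  rw [h1, map_sum]
  have h2 : ∀ s ∈ (Finset.range N).powerset, ‖Λ (cs N s ^ n • es N j s)‖ ≤ (1 / Real.sqrt 2) ^ n := by
    intro s _
    rw [map_smul, smul_eq_mul, norm_mul, norm_pow]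
    have h3 := norm_cs N hN s
    have h4 := es_bd Λ hΛ N j s
    calc ‖cs N s‖ ^ n * ‖Λ (es N j s)‖ ≤ (1 / Real.sqrt 2) ^ n * 1 := by gcongr
      _ = _ := mul_one _
  refine ((norm_sum_le _ _).trans (Finset.sum_le_sum h2)).trans (le_of_eq ?_)
  rw [Finset.sum_const, Finset.card_powerset, Finset.card_range, nsmul_eq_mul]
  push_cast
  ring

end H611R4
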