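import Mathlib
import Pool.Agent.H611R4.Stmts

set_option autoImplicit false

open Filter Topology

namespace H611R4

/-- the weight of a group element -/
noncomputable def c2W (J : ℕ → ℕ) (g : Gam) : ℝ := ∑ i ∈ g.support, (1 : ℝ) / J i.1

lemma c2_phi (J : ℕ → ℕ) (g : Gam) :
    phi J g = (-Complex.I) ^ (g.support.card) * ((max 0 (1 - c2W J g) : ℝ) : ℂ) := rfl

lemma c2_of_mul (g h : Gam) : of g * of h = of (g + h) := by
  unfold of
  rw [AddMonoidAlgebra.single_mul_single, one_mul]

lemma c2_formula (J : ℕ → ℕ) (N j : ℕ) (hN : 0 < N) (Λ : VV →ₗ[ℂ] ℂ)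
    (hΛ : ∀ g, Λ (of g) = phi J g) (g : Gam) :
    Λ (of g * (1 - vel N j)) = (1 / (2 * (N : ℂ))) *
      ∑ l ∈ Finset.range N, (phi J g - Complex.I * phi J (g + Finsupp.single (j, l) 1)) := by
  have h1 : of g * vel N j = ((1 : ℂ) / N) • ∑ l ∈ Finset.range N,
      ((1 / 2 : ℂ) • (of g + Complex.I • of (g + Finsupp.single (j, l) 1))) := by
    unfold vel
    rw [mul_smul_comm, Finset.mul_sum]
    congr 1
    apply Finset.sum_congr rfl
    intro l _
    rw [mul_smul_comm, mul_add, mul_one, mul_smul_comm, c2_of_mul]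
  have hN' : (N : ℂ) ≠ 0 := by exact_mod_cast hN.ne'
  rw [mul_sub, mul_one, map_sub, hΛ, h1, map_smul, map_sum]
  have h2 : ∀ l ∈ Finset.range N, Λ ((1 / 2 : ℂ) • (of g + Complex.I • of (g + Finsupp.single (j, l) 1)))
      = (1 / 2 : ℂ) * phi J g + (1 / 2 : ℂ) * Complex.I * phi J (g + Finsupp.single (j, l) 1) := by
    intro l _
    rw [map_smul, map_add, map_smul, hΛ, hΛ, smul_eq_mul, smul_eq_mul]
    ring
  rw [Finset.sum_congr rfl h2, Finset.sum_add_distrib, Finset.sum_sub_distrib, Finset.sum_const,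
    Finset.sum_const, ← Finset.mul_sum, ← Finset.mul_sum, Finset.card_range, smul_eq_mul,
    nsmul_eq_mul, nsmul_eq_mul]
  field_simp
  ring

lemma c2_pow_norm (k : ℕ) : ‖(-Complex.I) ^ k‖ = 1 := by
  rw [norm_pow, norm_neg, Complex.norm_I, one_pow]

lemma c2_phi_norm (J : ℕ → ℕ) (g : Gam) (hW : 0 ≤ c2W J g) : ‖phi J g‖ ≤ 1 := by
  rw [c2_phi, norm_mul, c2_pow_norm, one_mul, Complex.norm_real, Real.norm_eq_abs,
    abs_of_nonneg (le_max_left _ _)]
  apply max_le <;> linarith

lemma c2W_nonneg (J : ℕ → ℕ) (g : Gam) : 0 ≤ c2W J g :=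
  Finset.sum_nonneg fun i _ => by positivity

lemma c2_max_lip (a d : ℝ) (hd : 0 ≤ d) : |max 0 (1 - a) - max 0 (1 - (a + d))| ≤ d := by
  rw [abs_le]
  rcases le_total 0 (1 - a) with h1 | h1 <;> rcases le_total 0 (1 - (a + d)) with h2 | h2 <;>
    simp only [max_eq_right h1, max_eq_left h1, max_eq_right h2, max_eq_left h2] <;>
    constructor <;> linarith

lemma c2_not_mem (J : ℕ → ℕ) (g : Gam) (j l : ℕ) (h : (j, l) ∉ g.support) :
    ‖phi J g - Complex.I * phi J (g + Finsupp.single (j, l) 1)‖ ≤ 1 / J j := by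
  have hd : Disjoint g.support (Finsupp.single (j, l) (1 : ZMod 2)).support := by
    rw [Finsupp.support_single_ne_zero _ one_ne_zero, Finset.disjoint_singleton_right]
    exact h
  have hs : (g + Finsupp.single (j, l) (1 : ZMod 2)).support = insert (j, l) g.support := by
    rw [Finsupp.support_add_eq hd, Finsupp.support_single_ne_zero _ one_ne_zero,
      Finset.union_comm]
    rfl
  have hcard : (g + Finsupp.single (j, l) (1 : ZMod 2)).support.card = g.support.card + 1 := by
    rw [hs, Finset.card_insert_of_notMem h]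
  have hW : c2W J (g + Finsupp.single (j, l) (1 : ZMod 2)) = c2W J g + 1 / J j := by
    unfold c2W
    rw [hs, Finset.sum_insert h, add_comm]
  have e : phi J g - Complex.I * phi J (g + Finsupp.single (j, l) 1)
      = (-Complex.I) ^ (g.support.card) *
        ((max 0 (1 - c2W J g) - max 0 (1 - (c2W J g + 1 / J j)) : ℝ) : ℂ) := by
    rw [c2_phi, c2_phi, hcard, hW, pow_succ]
    push_cast
    have hI : Complex.I * Complex.I = -1 := Complex.I_mul_I
    linear_combination ((-Complex.I) ^ (g.support.card) *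
      ((max 0 (1 - (c2W J g + 1 / J j)) : ℝ) : ℂ)) * hI
  rw [e, norm_mul, c2_pow_norm, one_mul, Complex.norm_real, Real.norm_eq_abs]
  exact c2_max_lip _ _ (by positivity)

lemma c2_mem (J : ℕ → ℕ) (g : Gam) (j l : ℕ) (h : (j, l) ∈ g.support)
    (hbig : 1 + 1 / (J j : ℝ) ≤ c2W J g) :
    phi J g - Complex.I * phi J (g + Finsupp.single (j, l) 1) = 0 := by
  have hg : g (j, l) = 1 := by
    have h1 := Finsupp.mem_support_iff.1 h
    generalize g (j, l) = x at h1
    revert x
    decide
  have hs : (g + Finsupp.single (j, l) (1 : ZMod 2)).support = g.support.erase (j, l) := by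
    ext x
    rw [Finsupp.mem_support_iff, Finset.mem_erase, Finsupp.mem_support_iff, Finsupp.add_apply]
    by_cases hx : x = (j, l)
    · subst hx
      rw [hg, Finsupp.single_eq_same]
      constructor
      · intro h2; exact absurd (by decide : (1 : ZMod 2) + 1 = 0) h2
      · intro h2; exact absurd rfl h2.1
    · rw [Finsupp.single_eq_of_ne hx, add_zero]
      exact ⟨fun h2 => ⟨hx, h2⟩, fun h2 => h2.2⟩
  have hW : c2W J (g + Finsupp.single (j, l) (1 : ZMod 2)) = c2W J g - 1 / J j := by
    unfold c2W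
    rw [hs, ← Finset.add_sum_erase _ _ h]
    ring
  have hp : (0 : ℝ) ≤ 1 / (J j : ℝ) := by positivity
  rw [c2_phi, c2_phi, hW, max_eq_left (by linarith), max_eq_left (by linarith)]
  simp

lemma c2_count (J : ℕ → ℕ) (hJ : ∀ k, 0 < J k) (g : Gam) (N j : ℕ)
    (hsmall : c2W J g < 1 + 1 / (J j : ℝ)) :
    (((Finset.range N).filter (fun l => (j, l) ∈ g.support)).card : ℝ) ≤ J j + 1 := by
  have hJj : (0 : ℝ) < J j := by exact_mod_cast hJ j
  have h1 : (((Finset.range N).filter (fun l => (j, l) ∈ g.support)).card : ℝ) * (1 / J j)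
      ≤ c2W J g := by
    have himg : ((Finset.range N).filter (fun l => (j, l) ∈ g.support)).image (fun l => (j, l))
        ⊆ g.support := by
      intro x hx
      rw [Finset.mem_image] at hx
      obtain ⟨l, hl, rfl⟩ := hx
      exact (Finset.mem_filter.1 hl).2
    calc (((Finset.range N).filter (fun l => (j, l) ∈ g.support)).card : ℝ) * (1 / J j)
        = ∑ l ∈ (Finset.range N).filter (fun l => (j, l) ∈ g.support), (1 : ℝ) / J j := by
          rw [Finset.sum_const, nsmul_eq_mul]
      _ = ∑ x ∈ ((Finset.range N).filter (fun l => (j, l) ∈ g.support)).image (fun l => (j, l)),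
            (1 : ℝ) / J x.1 := by
          rw [Finset.sum_image]
          intro a _ b _ hab
          exact (Prod.mk.inj hab).2
      _ ≤ c2W J g := Finset.sum_le_sum_of_subset_of_nonneg himg (fun i _ _ => by positivity)
  have h2 := h1.trans hsmall.le
  have h3 : (((Finset.range N).filter (fun l => (j, l) ∈ g.support)).card : ℝ) * (1 / J j) * J j
      ≤ (1 + 1 / (J j : ℝ)) * J j := mul_le_mul_of_nonneg_right h2 hJj.le
  have e1 : (((Finset.range N).filter (fun l => (j, l) ∈ g.support)).card : ℝ) * (1 / J j) * J j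
      = (((Finset.range N).filter (fun l => (j, l) ∈ g.support)).card : ℝ) := by
    field_simp
  have e2 : (1 + 1 / (J j : ℝ)) * J j = J j + 1 := by field_simp
  rw [e1, e2] at h3
  exact h3

theorem taskC2 : TaskC2 := by
  intro J N j hJ hN Λ hΛ g
  have hJj : (0 : ℝ) < J j := by exact_mod_cast hJ j
  have hNR : (0 : ℝ) < N := by exact_mod_cast hN
  rw [c2_formula J N j hN Λ hΛ g, norm_mul]
  have hn : ‖(1 / (2 * (N : ℂ)))‖ = 1 / (2 * (N : ℝ)) := by
    rw [norm_div, norm_one, norm_mul, Complex.norm_natCast]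
    norm_num
  rw [hn]
  -- the sum
  have hsum : ‖∑ l ∈ Finset.range N, (phi J g - Complex.I * phi J (g + Finsupp.single (j, l) 1))‖
      ≤ N * (1 / J j) + 2 * (J j + 1) := by
    refine (norm_sum_le _ _).trans ?_
    rw [← Finset.sum_filter_add_sum_filter_not (Finset.range N) (fun l => (j, l) ∈ g.support)]
    have hout : ∑ l ∈ (Finset.range N).filter (fun l => ¬ (j, l) ∈ g.support),
        ‖phi J g - Complex.I * phi J (g + Finsupp.single (j, l) 1)‖ ≤ N * (1 / J j) := by
      calc ∑ l ∈ (Finset.range N).filter (fun l => ¬ (j, l) ∈ g.support),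
            ‖phi J g - Complex.I * phi J (g + Finsupp.single (j, l) 1)‖
          ≤ ∑ l ∈ (Finset.range N).filter (fun l => ¬ (j, l) ∈ g.support), 1 / (J j : ℝ) :=
            Finset.sum_le_sum fun l hl => c2_not_mem J g j l (Finset.mem_filter.1 hl).2
        _ = (((Finset.range N).filter (fun l => ¬ (j, l) ∈ g.support)).card : ℝ) * (1 / J j) := by
            rw [Finset.sum_const, nsmul_eq_mul]
        _ ≤ N * (1 / J j) := by
            have : ((Finset.range N).filter (fun l => ¬ (j, l) ∈ g.support)).card ≤ N := by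
              simpa using Finset.card_filter_le (Finset.range N) (fun l => ¬ (j, l) ∈ g.support)
            gcongr
    have hin : ∑ l ∈ (Finset.range N).filter (fun l => (j, l) ∈ g.support),
        ‖phi J g - Complex.I * phi J (g + Finsupp.single (j, l) 1)‖ ≤ 2 * (J j + 1) := by
      by_cases hbig : 1 + 1 / (J j : ℝ) ≤ c2W J g
      · have h0 : ∑ l ∈ (Finset.range N).filter (fun l => (j, l) ∈ g.support),
            ‖phi J g - Complex.I * phi J (g + Finsupp.single (j, l) 1)‖ = 0 := by
          apply Finset.sum_eq_zero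
          intro l hl
          rw [c2_mem J g j l (Finset.mem_filter.1 hl).2 hbig, norm_zero]
        rw [h0]
        positivity
      · have hcount := c2_count J hJ g N j (not_le.1 hbig)
        calc ∑ l ∈ (Finset.range N).filter (fun l => (j, l) ∈ g.support),
              ‖phi J g - Complex.I * phi J (g + Finsupp.single (j, l) 1)‖
            ≤ ∑ l ∈ (Finset.range N).filter (fun l => (j, l) ∈ g.support), (2 : ℝ) := by
              apply Finset.sum_le_sum
              intro l _
              refine (norm_sub_le _ _).trans ?_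
              rw [norm_mul, Complex.norm_I, one_mul]
              have a1 := c2_phi_norm J g (c2W_nonneg J g)
              have a2 := c2_phi_norm J (g + Finsupp.single (j, l) 1) (c2W_nonneg J _)
              linarith
          _ = (((Finset.range N).filter (fun l => (j, l) ∈ g.support)).card : ℝ) * 2 := by
              rw [Finset.sum_const, nsmul_eq_mul]
          _ ≤ 2 * (J j + 1) := by linarith
    linarith
  calc 1 / (2 * (N : ℝ)) * ‖∑ l ∈ Finset.range N,
        (phi J g - Complex.I * phi J (g + Finsupp.single (j, l) 1))‖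
      ≤ 1 / (2 * (N : ℝ)) * (N * (1 / J j) + 2 * (J j + 1)) := by gcongr
    _ = 1 / (2 * J j) + (J j + 1) / N := by field_simp

end H611R4
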