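import Pool.Agent.H611R4.Stmts

/-! TASK P of project H611-HT: completion of an algebra for a polar norm -/

set_option autoImplicit false
set_option maxSynthPendingDepth 3

open Filter Topology

namespace H611R4

variable {V : Type} [CommRing V] [Algebra ℂ V] (S : Submonoid V)

/-- polar of `S` -/
def Pol : Type := {L : V →ₗ[ℂ] ℂ // ∀ s ∈ S, ‖L s‖ ≤ 1}

instance : Nonempty (Pol S) := ⟨⟨0, fun s _ => by simp⟩⟩

/-- polar norm -/
noncomputable def pN (v : V) : ℝ := ⨆ L : Pol S, ‖L.1 v‖

lemma bdd (hS : Submodule.span ℂ (S : Set V) = ⊤) (v : V) :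
    BddAbove (Set.range fun L : Pol S => ‖L.1 v‖) := by
  have hv : v ∈ Submodule.span ℂ (S : Set V) := by
    rw [hS]
    trivial
  have key : ∃ B : ℝ, ∀ L : Pol S, ‖L.1 v‖ ≤ B := by
    induction hv using Submodule.span_induction with
    | mem x hx => exact ⟨1, fun L => L.2 x hx⟩
    | zero => exact ⟨0, fun L => by simp⟩
    | add x y _ _ hx hy =>
      obtain ⟨B, hB⟩ := hx
      obtain ⟨C, hC⟩ := hy
      refine ⟨B + C, fun L => ?_⟩
      rw [map_add]
      exact le_trans (norm_add_le _ _) (add_le_add (hB L) (hC L))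
    | smul a x _ hx =>
      obtain ⟨B, hB⟩ := hx
      refine ⟨‖a‖ * B, fun L => ?_⟩
      rw [map_smul, norm_smul]
      exact mul_le_mul_of_nonneg_left (hB L) (norm_nonneg _)
  obtain ⟨B, hB⟩ := key
  exact ⟨B, by rintro _ ⟨L, rfl⟩; exact hB L⟩

lemma le_pN (hS : Submodule.span ℂ (S : Set V) = ⊤) (L : V →ₗ[ℂ] ℂ) (hL : ∀ s ∈ S, ‖L s‖ ≤ 1)
    (v : V) : ‖L v‖ ≤ pN S v :=
  le_ciSup (bdd S hS v) (⟨L, hL⟩ : Pol S)

lemma pN_nonneg (v : V) : 0 ≤ pN S v := Real.iSup_nonneg fun _ => norm_nonneg _

lemma pN_le {v : V} {c : ℝ} (h : ∀ L : V →ₗ[ℂ] ℂ, (∀ s ∈ S, ‖L s‖ ≤ 1) → ‖L v‖ ≤ c) :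
    pN S v ≤ c := ciSup_le fun L => h L.1 L.2

lemma le_mul_pN (hS : Submodule.span ℂ (S : Set V) = ⊤) (M : V →ₗ[ℂ] ℂ) (c : ℝ) (hc : 0 ≤ c)
    (hM : ∀ s ∈ S, ‖M s‖ ≤ c) (v : V) : ‖M v‖ ≤ c * pN S v := by
  rcases hc.eq_or_lt with h | h
  · subst h
    have hv : v ∈ Submodule.span ℂ (S : Set V) := by
      rw [hS]
      trivial
    have : M v = 0 := by
      induction hv using Submodule.span_induction with
      | mem x hx => exact norm_le_zero_iff.mp (hM x hx)
      | zero => simp
      | add x y _ _ hx hy => rw [map_add, hx, hy, add_zero]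
      | smul a x _ hx => rw [map_smul, hx, smul_zero]
    rw [this]
    simp
  · have h1 := le_pN S hS (((c : ℂ)⁻¹) • M) (fun s hs => by
      rw [LinearMap.smul_apply, norm_smul, norm_inv, Complex.norm_real, Real.norm_eq_abs,
        abs_of_pos h]
      calc c⁻¹ * ‖M s‖ ≤ c⁻¹ * c := mul_le_mul_of_nonneg_left (hM s hs) (by positivity)
        _ = 1 := inv_mul_cancel₀ h.ne') v
    rw [LinearMap.smul_apply, norm_smul, norm_inv, Complex.norm_real, Real.norm_eq_abs,
      abs_of_pos h] at h1
    calc ‖M v‖ = c * (c⁻¹ * ‖M v‖) := by field_simp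
      _ ≤ c * pN S v := mul_le_mul_of_nonneg_left h1 hc

lemma pN_mul (hS : Submodule.span ℂ (S : Set V) = ⊤) (f g : V) :
    pN S (f * g) ≤ pN S f * pN S g := by
  apply pN_le
  intro L hL
  have h1 : ∀ s ∈ S, ‖(L ∘ₗ (LinearMap.mulRight ℂ g)) s‖ ≤ pN S g := by
    intro s hs
    have h2 := le_pN S hS (L ∘ₗ (LinearMap.mulLeft ℂ s)) (fun t ht => by
      simp only [LinearMap.comp_apply, LinearMap.mulLeft_apply]
      exact hL _ (S.mul_mem hs ht)) g
    simpa using h2
  have h3 := le_mul_pN S hS (L ∘ₗ (LinearMap.mulRight ℂ g)) (pN S g) (pN_nonneg S g) h1 f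
  rw [mul_comm (pN S f)]
  simpa using h3

/-- the additive seminorm -/
noncomputable def sn (hS : Submodule.span ℂ (S : Set V) = ⊤) : AddGroupSeminorm V where
  toFun := pN S
  map_zero' := by
    apply le_antisymm _ (pN_nonneg S 0)
    apply pN_le
    intro L _
    simp
  add_le' := by
    intro x y
    apply pN_le
    intro L hL
    rw [map_add]
    exact le_trans (norm_add_le _ _) (add_le_add (le_pN S hS L hL x) (le_pN S hS L hL y))
  neg' := by
    intro x
    unfold pN
    simp

theorem taskP : TaskP := by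
  intro V _ _ S hS _
  let i1 : SeminormedAddCommGroup V := (sn S hS).toSeminormedAddCommGroup
  have hnorm : ∀ v : V, ‖v‖ = pN S v := fun v => rfl
  let i2 : SeminormedCommRing V :=
    { ‹CommRing V›, i1 with
      norm_mul_le := fun a b => by
        rw [hnorm, hnorm, hnorm]
        exact pN_mul S hS a b
      mul_comm := mul_comm }
  let i3 : NormedAlgebra ℂ V :=
    { ‹Algebra ℂ V› with
      norm_smul_le := fun r x => by
        show pN S (r • x) ≤ ‖r‖ * pN S x
        apply pN_le
        intro L hL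
        rw [map_smul, norm_smul]
        exact mul_le_mul_of_nonneg_left (le_pN S hS L hL x) (norm_nonneg _) }
  let j : V →ₐ[ℂ] UniformSpace.Completion V :=
    { (UniformSpace.Completion.coeRingHom : V →+* UniformSpace.Completion V) with
      commutes' := fun r => rfl }
  have hj : ∀ v, j v = (v : UniformSpace.Completion V) := fun v => rfl
  refine ⟨UniformSpace.Completion V, inferInstance, inferInstance, inferInstance, j, ?_, ?_, ?_⟩
  · intro s hs
    rw [hj, UniformSpace.Completion.norm_coe, hnorm]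
    apply pN_le
    intro L hL
    exact hL s hs
  · intro Λ hΛ v
    rw [hj, UniformSpace.Completion.norm_coe, hnorm]
    exact le_pN S hS Λ hΛ v
  · intro χ hχ
    have hb : ∀ v, ‖χ v‖ ≤ ‖v‖ := by
      intro v
      rw [hnorm]
      exact le_pN S hS χ.toLinearMap hχ v
    have hcont : Continuous (χ : V →+* ℂ) := by
      have : LipschitzWith 1 (χ : V → ℂ) := by
        apply LipschitzWith.of_dist_le_mul
        intro x y
        rw [dist_eq_norm, dist_eq_norm, ← map_sub]
        simpa using hb (x - y)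
      exact this.continuous
    let e := UniformSpace.Completion.extensionHom (χ : V →+* ℂ) hcont
    have he : ∀ v : V, e (v : UniformSpace.Completion V) = χ v :=
      fun v => UniformSpace.Completion.extensionHom_coe (χ : V →+* ℂ) hcont v
    refine ⟨{ e with
      commutes' := fun r => ?_ }, ?_, ?_⟩
    · show e (algebraMap ℂ (UniformSpace.Completion V) r) = r
      rw [UniformSpace.Completion.algebraMap_def, he]
      simp
    · intro v
      exact he v
    · intro a
      show ‖e a‖ ≤ ‖a‖
      induction a using UniformSpace.Completion.induction_on with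
      | hp =>
        have h1 : Continuous e := UniformSpace.Completion.continuous_extension
        exact isClosed_le h1.norm continuous_norm
      | ih a =>
        rw [he, UniformSpace.Completion.norm_coe]
        exact hb a

end H611R4
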