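import Mathlib
import Pool.Agent.H611R4.T1
import Pool.Agent.H611R4.TaskP
import Pool.Agent.H611R4.TaskC1
import Pool.Agent.H611R4.TaskC2

set_option autoImplicit false
set_option maxSynthPendingDepth 3
set_option linter.unusedSectionVars false

open Filter Topology

namespace H611R4

lemma exists_param (D : ℕ) (κ : ℝ) (hκ : 0 < κ) : ∃ J N : ℕ, 0 < J ∧ 0 < N ∧
    (D : ℝ) * (1 / (2 * (J : ℝ)) + ((J : ℝ) + 1) / (N : ℝ)) ≤ κ := by
  obtain ⟨J, hJ⟩ := exists_nat_gt ((D : ℝ) / κ)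
  have hJ0 : (0 : ℝ) < J := lt_of_le_of_lt (by positivity) hJ
  obtain ⟨N, hN⟩ := exists_nat_gt (2 * (D : ℝ) * ((J : ℝ) + 1) / κ)
  have hN0 : (0 : ℝ) < N := lt_of_le_of_lt (by positivity) hN
  refine ⟨J, N, by exact_mod_cast hJ0, by exact_mod_cast hN0, ?_⟩
  rw [div_lt_iff₀ hκ] at hJ hN
  have h1 : (D : ℝ) * (1 / (2 * (J : ℝ))) ≤ κ / 2 := by
    rw [mul_one_div, div_le_div_iff₀ (by positivity) (by norm_num)]
    nlinarith
  have h2 : (D : ℝ) * (((J : ℝ) + 1) / (N : ℝ)) ≤ κ / 2 := by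
    rw [← mul_div_assoc, div_le_div_iff₀ hN0 (by norm_num)]
    nlinarith
  rw [mul_add]
  linarith

open Classical in
/-- chosen parameters at level `j` when the product of the previous constants is `c` -/
noncomputable def param (j c : ℕ) : ℕ × ℕ :=
  if h : ∃ q : ℕ × ℕ, 0 < q.1 ∧ 0 < q.2 ∧
    ((2 * (j + 1) : ℕ) : ℝ) * (1 / (2 * (q.1 : ℝ)) + ((q.1 : ℝ) + 1) / (q.2 : ℝ)) ≤
      (1/2)^(j+2) / c then h.choose else (1, 1)

lemma param_spec (j c : ℕ) (hc : 0 < c) : 0 < (param j c).1 ∧ 0 < (param j c).2 ∧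
    ((2 * (j + 1) : ℕ) : ℝ) * (1 / (2 * ((param j c).1 : ℝ)) + (((param j c).1 : ℝ) + 1) / ((param j c).2 : ℝ)) ≤
      (1/2)^(j+2) / c := by
  have h : ∃ q : ℕ × ℕ, 0 < q.1 ∧ 0 < q.2 ∧
    ((2 * (j + 1) : ℕ) : ℝ) * (1 / (2 * (q.1 : ℝ)) + ((q.1 : ℝ) + 1) / (q.2 : ℝ)) ≤
      (1/2)^(j+2) / c := by
    obtain ⟨J, N, h1, h2, h3⟩ := exists_param (2 * (j+1)) ((1/2)^(j+2) / c) (by positivity)
    exact ⟨(J, N), h1, h2, h3⟩
  unfold param
  rw [dif_pos h]
  exact h.choose_spec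

noncomputable def cc : ℕ → ℕ
  | 0 => 1
  | j+1 => cc j * 2 ^ (param j (cc j)).2

noncomputable def JJ (j : ℕ) : ℕ := (param j (cc j)).1
noncomputable def NN (j : ℕ) : ℕ := (param j (cc j)).2

lemma cc_pos (j : ℕ) : 0 < cc j := by
  induction j with
  | zero => simp [cc]
  | succ j ih => rw [cc]; positivity

lemma JJ_pos (j : ℕ) : 0 < JJ j := (param_spec j _ (cc_pos j)).1
lemma NN_pos (j : ℕ) : 0 < NN j := (param_spec j _ (cc_pos j)).2.1

lemma cc_eq (p : ℕ) : (cc p : ℝ) = ∏ m ∈ Finset.range p, (2:ℝ) ^ NN m := by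
  induction p with
  | zero => simp [cc]
  | succ p ih => rw [cc, Finset.prod_range_succ, ← ih]; push_cast; rfl

lemma cc_mono {p q : ℕ} (h : p ≤ q) : (cc p : ℝ) ≤ cc q := by
  induction h with
  | refl => exact le_rfl
  | step _ ih =>
    refine ih.trans ?_
    rw [cc]; push_cast
    exact le_mul_of_one_le_right (by positivity) (one_le_pow₀ (by norm_num))

noncomputable def kap (j : ℕ) : ℝ := (1/2)^(j+2) / cc j

lemma kap_pos (j : ℕ) : 0 < kap j := by
  have := cc_pos j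
  unfold kap; positivity

noncomputable def uu (j : ℕ) : VV := vel (NN j) j ^ (2 * (j + 1))

lemma vel_L1 (N j : ℕ) (hN : 0 < N) : L1 (vel N j) 1 := by
  unfold vel
  have h1 : ∀ l ∈ Finset.range N, L1 ((1 / 2 : ℂ) • (1 + Complex.I • of (Finsupp.single (j, l) 1))) 1 := by
    intro l _
    have := (L1_one.add ((L1_of (Finsupp.single (j, l) 1)).smul Complex.I)).smul (1/2 : ℂ)
    norm_num at this
    simpa using this
  have h2 := (L1.sum _ _ _ h1).smul ((1:ℂ) / N)
  refine h2.mono ?_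
  simp only [one_div, norm_inv, Complex.norm_natCast, Finset.sum_const, Finset.card_range,
    nsmul_eq_mul, mul_one]
  rw [inv_mul_cancel₀]
  exact_mod_cast hN.ne'

lemma uu_L1 (j : ℕ) : L1 (uu j) 1 := (vel_L1 _ _ (NN_pos j)).pow1 _

lemma uu_pow (j k : ℕ) : L1 (uu j ^ k) (2 ^ NN j * ((1/2)^(j+1)) ^ k) := by
  unfold uu
  rw [← pow_mul]
  refine (taskC1 (NN j) j (2 * (j+1) * k) (NN_pos j)).mono (le_of_eq ?_)
  congr 1
  rw [pow_mul, pow_mul, one_div, inv_pow, Real.sq_sqrt (by norm_num)]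
  norm_num

/-- the functional `φ` -/
noncomputable def Lam : VV →ₗ[ℂ] ℂ :=
  (Finsupp.lift ℂ ℂ Gam (phi JJ)) ∘ₗ (AddMonoidAlgebra.coeffLinearEquiv ℂ).toLinearMap

lemma Lam_of (g : Gam) : Lam (of g) = phi JJ g := by
  simp [Lam, of]

lemma phi_norm (J : ℕ → ℕ) (g : Gam) : ‖phi J g‖ ≤ 1 := by
  unfold phi
  rw [norm_mul, norm_pow, norm_neg, Complex.norm_I, one_pow, one_mul, Complex.norm_real,
    Real.norm_of_nonneg (le_max_left _ _)]
  refine max_le zero_le_one ?_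
  have : 0 ≤ ∑ i ∈ g.support, (1 : ℝ) / J i.1 := Finset.sum_nonneg fun i _ => by positivity
  linarith

lemma phi_zero (J : ℕ → ℕ) : phi J 0 = 1 := by simp [phi]

lemma Lam_bd (g : Gam) : ‖Lam (of g)‖ ≤ 1 := by rw [Lam_of]; exact phi_norm _ _

lemma kappa_vel (j : ℕ) (g : Gam) : ‖Lam (of g * (1 - vel (NN j) j))‖ ≤
    1 / (2 * JJ j) + (JJ j + 1) / NN j :=
  taskC2 JJ (NN j) j JJ_pos (NN_pos j) Lam Lam_of g

lemma kappa_uu (j : ℕ) (g : Gam) : ‖Lam (of g * (1 - uu j))‖ ≤ kap j := by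
  have hk0 : (0 : ℝ) < 1 / (2 * JJ j) + (JJ j + 1) / NN j := by
    have h1 := JJ_pos j
    have h2 := NN_pos j
    positivity
  have h1 := telescope (fun _ => vel (NN j) j) (fun _ => 1 / (2 * JJ j) + (JJ j + 1) / NN j)
    (fun _ => vel_L1 _ _ (NN_pos j)) Lam (fun _ => hk0) (fun _ g => kappa_vel j g) 0 (2 * (j+1)) g
  simp only [Finset.prod_const, Nat.card_Ico, Nat.sub_zero, Finset.sum_const, nsmul_eq_mul] at h1
  exact h1.trans (param_spec j (cc j) (cc_pos j)).2.2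

lemma hsum (p n : ℕ) : (∏ m ∈ Finset.range (p+1), (2:ℝ) ^ NN m) * ∑ j ∈ Finset.Ico (p+1) n, kap j ≤ 1 := by
  rw [← cc_eq, Finset.mul_sum]
  calc ∑ j ∈ Finset.Ico (p+1) n, (cc (p+1) : ℝ) * kap j ≤ ∑ j ∈ Finset.Ico (p+1) n, (1/2 : ℝ)^(j+2) := by
        refine Finset.sum_le_sum fun j hj => ?_
        have h1 := cc_mono (Finset.mem_Ico.1 hj).1
        have h2 : (0:ℝ) < cc j := by exact_mod_cast cc_pos j
        unfold kap
        rw [← mul_div_assoc, div_le_iff₀ h2, mul_comm]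
        gcongr
    _ ≤ ∑ j ∈ Finset.range n, (1/2 : ℝ)^(j+2) := by
        refine Finset.sum_le_sum_of_subset_of_nonneg ?_ fun _ _ _ => by positivity
        intro j hj
        exact Finset.mem_range.2 (Finset.mem_Ico.1 hj).2
    _ ≤ 1 := by
        have h3 : ∀ n : ℕ, ∑ j ∈ Finset.range n, (1/2 : ℝ)^(j+2) = 1/2 - (1/2)^(n+1) := by
          intro n
          induction n with
          | zero => norm_num
          | succ n ih => rw [Finset.sum_range_succ, ih]; ring
        rw [h3]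
        have : (0:ℝ) < (1/2)^(n+1) := by positivity
        linarith

lemma kap_sum (n : ℕ) : ∑ j ∈ Finset.Ico 0 n, kap j ≤ 1/2 := by
  calc ∑ j ∈ Finset.Ico 0 n, kap j ≤ ∑ j ∈ Finset.range n, (1/2 : ℝ)^(j+2) := by
        rw [Nat.Ico_zero_eq_range]
        refine Finset.sum_le_sum fun j _ => ?_
        unfold kap
        have : (1:ℝ) ≤ cc j := by exact_mod_cast cc_pos j
        exact div_le_self (by positivity) this
    _ ≤ 1/2 := by
        have h3 : ∀ n : ℕ, ∑ j ∈ Finset.range n, (1/2 : ℝ)^(j+2) = 1/2 - (1/2)^(n+1) := by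
          intro n
          induction n with
          | zero => norm_num
          | succ n ih => rw [Finset.sum_range_succ, ih]; ring
        rw [h3]
        have : (0:ℝ) < (1/2)^(n+1) := by positivity
        linarith

/-- the relations -/
noncomputable def rr (q : ℕ × ℕ) : VV := uu q.1 * (1 - ∏ j ∈ Finset.Ico (q.1+1) q.2, uu j)

theorem Lam_key (s : Multiset (ℕ × ℕ)) (g : Gam) :
    ‖Lam (of g * (s.map rr).prod)‖ ≤ (s.map (fun q => 2 * (1/2 : ℝ)^(q.1+1))).prod :=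
  key uu (fun j => 2 ^ NN j) (fun j => (1/2)^(j+1)) kap (fun j => one_le_pow₀ (by norm_num))
    (fun j => by positivity) uu_L1 uu_pow Lam Lam_bd kap_pos kappa_uu hsum s g

/-- scaled relations -/
noncomputable def rho (q : ℕ × ℕ) : VV := (((2 * (1/2 : ℝ)^(q.1+1))⁻¹ : ℝ) : ℂ) • rr q

/-- the submonoid -/
noncomputable def SS : Submonoid VV where
  carrier := {w | ∃ (g : Gam) (s : Multiset (ℕ × ℕ)), w = of g * (s.map rho).prod}
  one_mem' := ⟨0, 0, by simp [of_zero]⟩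
  mul_mem' := by
    rintro a b ⟨g, s, rfl⟩ ⟨h, t, rfl⟩
    refine ⟨g + h, s + t, ?_⟩
    rw [Multiset.map_add, Multiset.prod_add, ← of_mul]
    ring

lemma of_mem_SS (g : Gam) : of g ∈ SS := ⟨g, 0, by simp⟩
lemma rho_mem_SS (q : ℕ × ℕ) : rho q ∈ SS := ⟨0, {q}, by simp [of_zero]⟩

lemma span_SS : Submodule.span ℂ (SS : Set VV) = ⊤ := by
  rw [eq_top_iff]
  intro v _
  induction v using AddMonoidAlgebra.induction_linear with
  | zero => exact Submodule.zero_mem _
  | add a b ha hb => exact Submodule.add_mem _ (ha trivial) (hb trivial)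
  | single g c =>
    have : (AddMonoidAlgebra.single g c : VV) = c • of g := by simp [of]
    rw [this]
    exact Submodule.smul_mem _ _ (Submodule.subset_span (of_mem_SS g))

lemma rho_prod (s : Multiset (ℕ × ℕ)) : (s.map rho).prod =
    ((((s.map (fun q => 2 * (1/2 : ℝ)^(q.1+1))).prod)⁻¹ : ℝ) : ℂ) • (s.map rr).prod := by
  induction s using Multiset.induction_on with
  | empty => simp
  | cons a s ih =>
    rw [Multiset.map_cons, Multiset.prod_cons, ih, Multiset.map_cons, Multiset.prod_cons,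
      Multiset.map_cons, Multiset.prod_cons, rho, smul_mul_smul_comm]
    congr 1
    push_cast
    simp only [mul_inv]

lemma prod_pos' (s : Multiset (ℕ × ℕ)) : 0 < (s.map (fun q => 2 * (1/2 : ℝ)^(q.1+1))).prod := by
  induction s using Multiset.induction_on with
  | empty => simp
  | cons a s ih => rw [Multiset.map_cons, Multiset.prod_cons]; positivity

lemma Lam_SS (w : VV) (hw : w ∈ SS) : ‖Lam w‖ ≤ 1 := by
  obtain ⟨g, s, rfl⟩ := hw
  rw [rho_prod, mul_smul_comm, map_smul, norm_smul, Complex.norm_real, norm_inv,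
    Real.norm_of_nonneg (prod_pos' s).le, inv_mul_le_iff₀ (prod_pos' s), mul_one]
  exact Lam_key s g

/-- sign -/
noncomputable def sg (s : Finset (ℕ × ℕ)) (i : ℕ × ℕ) : ℂ := if i ∈ s then 1 else -1

lemma sg_sq (s : Finset (ℕ × ℕ)) (i : ℕ × ℕ) : sg s i * sg s i = 1 := by
  unfold sg; split_ifs <;> norm_num

/-- the characters -/
noncomputable def chiHom (s : Finset (ℕ × ℕ)) : Multiplicative Gam →* ℂ where
  toFun g := (Multiplicative.toAdd g).prod fun i a => sg s i ^ a.val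
  map_one' := by simp
  map_mul' g h := by
    rw [toAdd_mul]
    refine Finsupp.prod_add_index' (fun i => by simp) (fun i a b => ?_)
    have h2 := sg_sq s i
    fin_cases a <;> fin_cases b
    · show sg s i ^ 0 = sg s i ^ 0 * sg s i ^ 0
      simp
    · show sg s i ^ 1 = sg s i ^ 0 * sg s i ^ 1
      simp
    · show sg s i ^ 1 = sg s i ^ 1 * sg s i ^ 0
      simp
    · show sg s i ^ 0 = sg s i ^ 1 * sg s i ^ 1
      simp [h2]

noncomputable def chiV (s : Finset (ℕ × ℕ)) : VV →ₐ[ℂ] ℂ := AddMonoidAlgebra.lift ℂ ℂ Gam (chiHom s)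

lemma chiV_of (s : Finset (ℕ × ℕ)) (g : Gam) : chiV s (of g) = chiHom s (Multiplicative.ofAdd g) := by
  unfold chiV of
  rw [AddMonoidAlgebra.lift_single, one_smul]

lemma chiV_x (s : Finset (ℕ × ℕ)) (i : ℕ × ℕ) :
    chiV s (of (Finsupp.single i 1)) = if i ∈ s then 1 else -1 := by
  rw [chiV_of]
  show (Finsupp.single i (1 : ZMod 2)).prod (fun i a => sg s i ^ a.val) = _
  rw [Finsupp.prod_single_index (by simp), show (1 : ZMod 2).val = 1 from rfl, pow_one]
  rfl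

lemma chiV_of_norm (s : Finset (ℕ × ℕ)) (g : Gam) : ‖chiV s (of g)‖ = 1 := by
  have h1 : chiV s (of g) * chiV s (of g) = 1 := by
    rw [← map_mul, of_mul]
    have : g + g = 0 := by
      ext i
      exact CharTwo.add_self_eq_zero (g i)
    rw [this, of_zero, map_one]
  have h2 : ‖chiV s (of g)‖ * ‖chiV s (of g)‖ = 1 := by rw [← norm_mul, h1, norm_one]
  nlinarith [norm_nonneg (chiV s (of g))]

lemma le_of_pow_le {r δ C : ℝ} (hr : 0 ≤ r) (hδ : 0 < δ) (h : ∀ k : ℕ, r ^ k ≤ C * δ ^ k) : r ≤ δ := by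
  by_contra hlt
  push Not at hlt
  have h1 : ∀ k : ℕ, (r / δ) ^ k ≤ C := by
    intro k
    rw [div_pow, div_le_iff₀ (by positivity)]
    exact h k
  have h3 : Tendsto (fun k : ℕ => (r / δ) ^ k) atTop atTop :=
    tendsto_pow_atTop_atTop_of_one_lt (by rw [lt_div_iff₀ hδ]; linarith)
  obtain ⟨k, hk⟩ := (h3.eventually_gt_atTop C).exists
  linarith [h1 k]

lemma chiV_uu (s : Finset (ℕ × ℕ)) (j : ℕ) : ‖chiV s (uu j)‖ ≤ (1/2)^(j+1) := by
  refine le_of_pow_le (C := 2 ^ NN j) (norm_nonneg _) (by positivity) fun k => ?_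
  rw [← norm_pow, ← map_pow]
  exact uu_pow j k (chiV s).toLinearMap (fun g => (chiV_of_norm s g).le)

lemma chiV_rr (s : Finset (ℕ × ℕ)) (q : ℕ × ℕ) : ‖chiV s (rr q)‖ ≤ 2 * (1/2)^(q.1+1) := by
  unfold rr
  rw [map_mul, norm_mul, mul_comm]
  have h1 : ‖chiV s (1 - ∏ j ∈ Finset.Ico (q.1+1) q.2, uu j)‖ ≤ 2 := by
    have h2 := (L1_one.sub (L1.prod1 (Finset.Ico (q.1+1) q.2) uu fun j _ => uu_L1 j))
      (chiV s).toLinearMap (fun g => (chiV_of_norm s g).le)
    norm_num at h2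
    rw [map_sub, map_one, map_prod]
    exact h2
  exact mul_le_mul h1 (chiV_uu s q.1) (norm_nonneg _) (by norm_num)

lemma chiV_SS (s : Finset (ℕ × ℕ)) (w : VV) (hw : w ∈ SS) : ‖chiV s w‖ ≤ 1 := by
  obtain ⟨g, t, rfl⟩ := hw
  rw [map_mul, norm_mul, chiV_of_norm, one_mul]
  induction t using Multiset.induction_on with
  | empty => simp
  | cons a t ih =>
    rw [Multiset.map_cons, Multiset.prod_cons, map_mul, norm_mul]
    have h1 : ‖chiV s (rho a)‖ ≤ 1 := by
      unfold rho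
      have hpos : (0:ℝ) < 2 * (1/2)^(a.1+1) := by positivity
      rw [map_smul, norm_smul, Complex.norm_real, norm_inv, Real.norm_of_nonneg hpos.le,
        inv_mul_le_iff₀ hpos, mul_one]
      exact chiV_rr s a
    exact mul_le_one₀ h1 (norm_nonneg _) ih

/-- index sets -/
noncomputable def II (n : ℕ) : Finset (ℕ × ℕ) :=
  (Finset.range n).biUnion fun m => (Finset.range (NN m)).image fun l => (m, l)

lemma II_mono (n : ℕ) : II n ⊆ II (n+1) :=
  Finset.biUnion_subset_biUnion_of_subset_left _ (Finset.range_mono (Nat.le_succ n))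

lemma x_mem (n l : ℕ) (hl : l ∈ Finset.range (NN n)) : of (Finsupp.single (n, l) 1) ∈ Algebra.adjoin ℂ
    ((fun i => of (Finsupp.single i 1)) '' (II (n+1) : Set (ℕ × ℕ))) := by
  apply Algebra.subset_adjoin
  refine ⟨(n, l), ?_, rfl⟩
  have : (n, l) ∈ II (n+1) := by
    unfold II
    rw [Finset.mem_biUnion]
    exact ⟨n, Finset.mem_range.2 (Nat.lt_succ_self n), Finset.mem_image.2 ⟨l, hl, rfl⟩⟩
  exact this

lemma uu_mem (n : ℕ) : uu n ∈ Algebra.adjoin ℂ
    ((fun i => of (Finsupp.single i 1)) '' (II (n+1) : Set (ℕ × ℕ))) := by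
  unfold uu
  refine Subalgebra.pow_mem _ ?_ _
  unfold vel
  refine Subalgebra.smul_mem _ (Subalgebra.sum_mem _ fun l hl => ?_) _
  exact Subalgebra.smul_mem _ (Subalgebra.add_mem _ (Subalgebra.one_mem _)
    (Subalgebra.smul_mem _ (x_mem n l hl) _)) _

theorem taskT : TaskT := by
  obtain ⟨A, i1, i2, i3, j, hj1, hj2, hj3⟩ := taskP VV SS span_SS ⟨chiV ∅, chiV_SS ∅⟩
  have hL1 : ∀ (v : VV) (c : ℝ), L1 v c → ‖j v‖ ≤ c := by
    intro v c hv
    refine NormedSpace.norm_le_dual_bound ℂ (j v) hv.nonneg fun f => ?_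
    rcases eq_or_lt_of_le (norm_nonneg f) with h0 | h0
    · have : f = 0 := norm_eq_zero.1 h0.symm
      subst this; simp
    have := hv.apply (f.toLinearMap ∘ₗ j.toLinearMap) h0 (fun g => by
      have h1 := f.le_opNorm (j (of g))
      have h2 := hj1 (of g) (of_mem_SS g)
      have h3 : ‖f‖ * ‖j (of g)‖ ≤ ‖f‖ * 1 := by gcongr
      simpa using h1.trans h3)
    simpa using this
  choose chi' hchi1 hchi2 using fun s => hj3 (chiV s) (chiV_SS s)
  refine ⟨A, i1, i2, i3, ⟨{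
    x := fun i => j (of (Finsupp.single i 1))
    I := II
    mono := II_mono
    x_sq := ?_
    x_norm := fun i => hj1 _ (of_mem_SS _)
    u := fun n => j (uu n)
    u_mem := ?_
    u_norm := fun n => hL1 _ _ (uu_L1 n)
    C := fun n => 2 ^ NN n
    u_pow := ?_
    chi := chi'
    chi_x := fun s i => by rw [hchi1, chiV_x]
    chi_norm := hchi2
    eps := fun m => 2 * (1/2)^(m+1)
    eps_tendsto := ?_
    rel := ?_
    nondeg := ?_ }⟩⟩
  · intro i
    rw [← map_mul, of_mul]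
    have : (Finsupp.single i (1 : ZMod 2) + Finsupp.single i 1 : Gam) = 0 := by
      rw [← Finsupp.single_add, show (1 : ZMod 2) + 1 = 0 from rfl, Finsupp.single_zero]
    rw [this, of_zero, map_one]
  · intro n
    have h1 := uu_mem n
    have h2 : j (uu n) ∈ (Algebra.adjoin ℂ
      ((fun i => of (Finsupp.single i 1)) '' (II (n+1) : Set (ℕ × ℕ)))).map j :=
      Subalgebra.mem_map.2 ⟨_, h1, rfl⟩
    rw [AlgHom.map_adjoin, Set.image_image] at h2
    exact h2
  · intro n k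
    rw [← map_pow]
    refine (hL1 _ _ (uu_pow n k)).trans ?_
    have : ((1/2 : ℝ)^(n+1)) ^ k ≤ (1/2)^k := by
      refine pow_le_pow_left₀ (by positivity) ?_ k
      calc (1/2 : ℝ)^(n+1) ≤ (1/2)^1 := pow_le_pow_of_le_one (by norm_num) (by norm_num) (by omega)
        _ = 1/2 := pow_one _
    gcongr
  · have h1 : Tendsto (fun m : ℕ => (1/2 : ℝ)^m) atTop (𝓝 0) :=
      tendsto_pow_atTop_nhds_zero_of_lt_one (by norm_num) (by norm_num)
    have h2 : (fun m : ℕ => 2 * (1/2 : ℝ)^(m+1)) = fun m => (1/2 : ℝ)^m := by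
      funext m; rw [pow_succ]; ring
    rw [h2]; exact h1
  · intro m n _
    have h1 := hj1 _ (rho_mem_SS (m, n))
    unfold rho rr at h1
    have hpos : (0:ℝ) < 2 * (1/2)^(m+1) := by positivity
    rw [map_smul, norm_smul, Complex.norm_real, norm_inv, Real.norm_of_nonneg hpos.le,
        inv_mul_le_iff₀ hpos, mul_one, map_mul, map_sub, map_one, map_prod] at h1
    exact h1
  · intro n
    rw [← map_prod]
    refine le_trans ?_ (hj2 Lam Lam_SS _)
    have h1 := telescope uu kap uu_L1 Lam kap_pos kappa_uu 0 n 0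
    rw [of_zero, one_mul, Nat.Ico_zero_eq_range, map_sub] at h1
    have h2 : Lam 1 = 1 := by rw [← of_zero, Lam_of, phi_zero]
    have h3 := kap_sum n
    rw [Nat.Ico_zero_eq_range] at h3
    rw [h2] at h1
    have h4 : ‖(1:ℂ)‖ ≤ ‖1 - Lam (∏ x ∈ Finset.range n, uu x)‖ + ‖Lam (∏ x ∈ Finset.range n, uu x)‖ := by
      calc ‖(1:ℂ)‖ = ‖(1 - Lam (∏ x ∈ Finset.range n, uu x)) + Lam (∏ x ∈ Finset.range n, uu x)‖ := by
            congr 1; ring
        _ ≤ _ := norm_add_le _ _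
    rw [norm_one] at h4
    linarith

end H611R4
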