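import Mathlib
import Pool.Agent.H611R4.Stmts2

set_option autoImplicit false
set_option maxSynthPendingDepth 3
set_option linter.unusedSectionVars false

/-!
Task B1 of project H611-HT (written by helper782).
-/

open Filter Topology BoundedContinuousFunction

namespace H611R4

namespace TB1

variable {A : Type} [NormedCommRing A] [NormedAlgebra ℂ A] (T : Tower A)

lemma norm_pow_mul_le {v w x y : A} (hx : ‖x‖ ≤ 1) (hy : ‖y‖ ≤ 1) : ‖v * w * x * y‖ ≤ ‖v‖ * ‖w‖ := by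
  calc ‖v * w * x * y‖ ≤ ‖v * w * x‖ * ‖y‖ := norm_mul_le _ _
    _ ≤ ‖v * w * x‖ * 1 := by gcongr
    _ = ‖v * w * x‖ := mul_one _
    _ ≤ ‖v * w‖ * ‖x‖ := norm_mul_le _ _
    _ ≤ ‖v * w‖ * 1 := by gcongr
    _ = ‖v * w‖ := mul_one _
    _ ≤ ‖v‖ * ‖w‖ := norm_mul_le _ _

/-- products of two elements of `B0` are approximated by elements of `B0` -/
lemma mul_B0 {a b : ℕ →ᵇ A} (ha : a ∈ T.B0) (hb : b ∈ T.B0) : ∀ ε > 0, ∃ c ∈ T.B0, ‖a * b - c‖ < ε := by
  obtain ⟨ha0, M, v, hv, hM⟩ := ha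
  obtain ⟨hb0, N, w, hw, hN⟩ := hb
  intro ε hε
  set K := max M N with hK
  set v' := v * T.t M K with hv'
  set w' := w * T.t N K with hw'
  have hv'm : v' ∈ T.alg K := Subalgebra.mul_mem _ (T.alg_mono (le_max_left _ _) hv) (T.t_mem le_rfl)
  have hw'm : w' ∈ T.alg K := Subalgebra.mul_mem _ (T.alg_mono (le_max_right _ _) hw) (T.t_mem le_rfl)
  have ha1 : ∀ n, K ≤ n → a n = v' * T.t K n := fun n hn => by
    rw [hM n ((le_max_left _ _).trans hn), ← T.t_mul (le_max_left M N) hn, hv', mul_assoc]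
  have hb1 : ∀ n, K ≤ n → b n = w' * T.t K n := fun n hn => by
    rw [hN n ((le_max_right _ _).trans hn), ← T.t_mul (le_max_right M N) hn, hw', mul_assoc]
  -- choose k
  have hlim : Tendsto (fun k => (‖v'‖ * ‖w'‖) * T.eps k) atTop (𝓝 0) := by
    simpa using T.eps_tendsto.const_mul (‖v'‖ * ‖w'‖)
  obtain ⟨k, hk1, hk2⟩ := ((hlim.eventually_lt_const (half_pos hε)).and (eventually_ge_atTop K)).exists
  set f : ℕ → A := fun n => if n < k + 1 then a n * b n
    else v' * w' * (T.t K (k+1)) ^ 2 * T.t (k+1) n with hf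
  have hsq : ‖(T.t K (k+1)) ^ 2‖ ≤ 1 := by
    rw [pow_two]
    refine (norm_mul_le _ _).trans ?_
    have := T.t_norm K (k+1)
    nlinarith [norm_nonneg (T.t K (k+1))]
  have hbd : ∀ n, ‖f n‖ ≤ ‖a‖ * ‖b‖ + ‖v'‖ * ‖w'‖ := by
    intro n
    by_cases hn : n < k + 1
    · simp only [hf, if_pos hn]
      have h1 : ‖a n * b n‖ ≤ ‖a‖ * ‖b‖ := (norm_mul_le _ _).trans
        (mul_le_mul (a.norm_coe_le_norm n) (b.norm_coe_le_norm n) (norm_nonneg _) (norm_nonneg _))
      have h2 : 0 ≤ ‖v'‖ * ‖w'‖ := by positivity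
      linarith
    · simp only [hf, if_neg hn]
      have h1 := norm_pow_mul_le (v := v') (w := w') hsq (T.t_norm (k+1) n)
      have h2 : 0 ≤ ‖a‖ * ‖b‖ := by positivity
      linarith
  refine ⟨ofNormedAddCommGroupDiscrete f _ hbd, ⟨fun n => ?_, k + 1,
    v' * w' * (T.t K (k+1)) ^ 2, ?_, fun n hn => ?_⟩, ?_⟩
  · rw [coe_ofNormedAddCommGroupDiscrete]
    by_cases hn : n < k + 1
    · simp only [hf, if_pos hn]
      exact Subalgebra.mul_mem _ (ha0 n) (hb0 n)
    · simp only [hf, if_neg hn]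
      have hKn : K ≤ n := by omega
      exact Subalgebra.mul_mem _ (Subalgebra.mul_mem _ (Subalgebra.mul_mem _ (T.alg_mono hKn hv'm)
        (T.alg_mono hKn hw'm)) (Subalgebra.pow_mem _ (T.t_mem (by omega)) 2)) (T.t_mem le_rfl)
  · have hKn : K ≤ k + 1 := by omega
    exact Subalgebra.mul_mem _ (Subalgebra.mul_mem _ (T.alg_mono hKn hv'm)
        (T.alg_mono hKn hw'm)) (Subalgebra.pow_mem _ (T.t_mem le_rfl) 2)
  · rw [coe_ofNormedAddCommGroupDiscrete]
    simp only [hf, if_neg (not_lt.mpr hn)]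
  · refine lt_of_le_of_lt ((BoundedContinuousFunction.norm_le (half_pos hε).le).2 fun n => ?_)
      (half_lt_self hε)
    rw [BoundedContinuousFunction.coe_sub, Pi.sub_apply, BoundedContinuousFunction.mul_apply,
      coe_ofNormedAddCommGroupDiscrete]
    by_cases hn : n < k + 1
    · simp only [hf, if_pos hn, sub_self, norm_zero]
      exact (half_pos hε).le
    · simp only [hf, if_neg hn]
      have hKn : K ≤ n := by omega
      rw [ha1 n hKn, hb1 n hKn, ← T.t_mul (show K ≤ k + 1 by omega) (show k + 1 ≤ n by omega)]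
      have hrel := T.t_rel (m := K) (k := k) (n := n) hk2 (by omega)
      have e : v' * (T.t K (k+1) * T.t (k+1) n) * (w' * (T.t K (k+1) * T.t (k+1) n)) -
          v' * w' * (T.t K (k+1)) ^ 2 * T.t (k+1) n =
          - ((v' * w' * T.t K (k+1) * T.t (k+1) n) * (T.t K (k+1) * (1 - T.t (k+1) n))) := by ring
      rw [e, norm_neg]
      refine (norm_mul_le _ _).trans ?_
      refine le_trans (mul_le_mul (norm_pow_mul_le (T.t_norm K (k+1)) (T.t_norm (k+1) n)) hrel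
        (norm_nonneg _) (by positivity)) hk1.le

end TB1

open TB1 in
theorem taskB1 : TaskB1 := by
  intro A _ _ T a ha ε hε
  set D0 : Submodule ℂ (ℕ →ᵇ A) := Submodule.span ℂ {1} ⊔ T.B0 with hD0
  have h1 : (1 : ℕ →ᵇ A) ∈ D0 := Submodule.mem_sup_left (Submodule.mem_span_singleton_self 1)
  have hB : ∀ b ∈ T.B0, b ∈ D0 := fun b hb => Submodule.mem_sup_right hb
  have hcl : ∀ b ∈ D0, b ∈ D0.topologicalClosure := fun b hb => D0.le_topologicalClosure hb
  have hdec : ∀ d ∈ D0, ∃ (c : ℂ) (b : ℕ →ᵇ A), b ∈ T.B0 ∧ d = c • 1 + b := by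
    intro d hd
    obtain ⟨y, hy, z, hz, rfl⟩ := Submodule.mem_sup.1 hd
    obtain ⟨c, rfl⟩ := Submodule.mem_span_singleton.1 hy
    exact ⟨c, z, hz, rfl⟩
  have hBB : ∀ x ∈ T.B0, ∀ y ∈ T.B0, x * y ∈ D0.topologicalClosure := by
    intro x hx y hy
    change x * y ∈ closure (D0 : Set (ℕ →ᵇ A))
    rw [Metric.mem_closure_iff]
    intro δ hδ
    obtain ⟨c, hc, hlt⟩ := mul_B0 T hx hy δ hδ
    exact ⟨c, hB c hc, by rwa [dist_eq_norm]⟩
  have hmul0 : ∀ x ∈ D0, ∀ y ∈ D0, x * y ∈ D0.topologicalClosure := by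
    intro x hx y hy
    obtain ⟨c, b, hb, rfl⟩ := hdec x hx
    obtain ⟨c', b', hb', rfl⟩ := hdec y hy
    have e : (c • (1 : ℕ →ᵇ A) + b) * (c' • 1 + b') = (c * c') • (1 : ℕ →ᵇ A) + c • b' + c' • b + b * b' := by
      rw [add_mul, mul_add, mul_add, smul_mul_assoc, one_mul, smul_mul_assoc, one_mul, mul_smul_comm,
        mul_one, smul_smul]
      abel
    rw [e]
    refine Submodule.add_mem _ (Submodule.add_mem _ (Submodule.add_mem _ ?_ ?_) ?_) (hBB _ hb _ hb')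
    · exact Submodule.smul_mem _ _ (hcl _ h1)
    · exact Submodule.smul_mem _ _ (hcl _ (hB _ hb'))
    · exact Submodule.smul_mem _ _ (hcl _ (hB _ hb))
  have hmul : ∀ x ∈ D0.topologicalClosure, ∀ y ∈ D0.topologicalClosure,
      x * y ∈ D0.topologicalClosure := by
    intro x hx y hy
    have h := map_mem_closure₂ (s := (D0 : Set (ℕ →ᵇ A))) (t := (D0 : Set (ℕ →ᵇ A)))
      (u := closure (D0 : Set (ℕ →ᵇ A))) (f := fun x y => x * y) continuous_mul hx hy hmul0
    rwa [closure_closure] at h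
  have hadj : ∀ x ∈ Algebra.adjoin ℂ (T.B0 : Set (ℕ →ᵇ A)), x ∈ D0.topologicalClosure := by
    intro x hx
    induction hx using Algebra.adjoin_induction with
    | mem x hx => exact hcl _ (hB _ hx)
    | algebraMap r =>
      rw [Algebra.algebraMap_eq_smul_one]
      exact Submodule.smul_mem _ _ (hcl _ h1)
    | add x y _ _ h1 h2 => exact Submodule.add_mem _ h1 h2
    | mul x y _ _ h1 h2 => exact hmul _ h1 _ h2
  have ha' : a ∈ closure ((Algebra.adjoin ℂ (T.B0 : Set (ℕ →ᵇ A)) : Subalgebra ℂ (ℕ →ᵇ A)) :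
      Set (ℕ →ᵇ A)) := ha
  have ha2 : a ∈ closure (D0 : Set (ℕ →ᵇ A)) := by
    have := closure_mono (t := closure (D0 : Set (ℕ →ᵇ A))) hadj ha'
    rwa [closure_closure] at this
  obtain ⟨d, hd, hlt⟩ := Metric.mem_closure_iff.1 ha2 ε hε
  obtain ⟨c, b, hb, rfl⟩ := hdec d hd
  exact ⟨c, b, hb, by rwa [dist_eq_norm] at hlt⟩

end H611R4
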