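import Mathlib
import Pool.Agent.H611R4.Stmts2

set_option autoImplicit false
set_option maxSynthPendingDepth 3
set_option linter.unusedSectionVars false

open Filter Topology BoundedContinuousFunction WeakDual

namespace H611R4

namespace B3

variable {A : Type} [NormedCommRing A] [NormedAlgebra ℂ A] (T : Tower A)

/-- the sequence with value `a` at `n` and `0` elsewhere -/
noncomputable def pt (n : ℕ) (a : A) : ℕ →ᵇ A :=
  BoundedContinuousFunction.ofNormedAddCommGroup (fun k => if k = n then a else 0)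
    continuous_of_discreteTopology ‖a‖ (fun k => by split_ifs <;> simp)

lemma pt_apply (n : ℕ) (a : A) (k : ℕ) : pt n a k = if k = n then a else 0 := rfl

lemma pt_mem {n : ℕ} {a : A} (ha : a ∈ T.alg n) : pt n a ∈ T.B0 := by
  refine ⟨fun k => ?_, n + 1, 0, Subalgebra.zero_mem _, fun k hk => ?_⟩
  · rw [pt_apply]
    split_ifs with h
    · rw [h]; exact ha
    · exact Subalgebra.zero_mem _
  · rw [pt_apply, if_neg (by omega), zero_mul]

lemma B0_sub {a : ℕ →ᵇ A} (ha : a ∈ T.B0) : a ∈ T.BB :=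
  Subalgebra.le_topologicalClosure _ (Algebra.subset_adjoin ha)

lemma BB_val {b : ℕ →ᵇ A} (hb : b ∈ T.BB) (n : ℕ) : b n ∈ T.alg n := by
  have hcl : IsClosed {b : ℕ →ᵇ A | b n ∈ T.alg n} := by
    apply (T.isClosed_alg n).preimage
    exact continuous_eval_const n
  have hsub : ((Algebra.adjoin ℂ (T.B0 : Set (ℕ →ᵇ A)) : Subalgebra ℂ (ℕ →ᵇ A)) : Set (ℕ →ᵇ A)) ⊆
      {b : ℕ →ᵇ A | b n ∈ T.alg n} := by
    intro c hc
    have hc' : c ∈ Algebra.adjoin ℂ (T.B0 : Set (ℕ →ᵇ A)) := hc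
    show c n ∈ T.alg n
    induction hc' using Algebra.adjoin_induction with
    | mem a ha => exact ha.1 n
    | algebraMap r =>
      have : (algebraMap ℂ (ℕ →ᵇ A) r) n = algebraMap ℂ A r := rfl
      rw [this]
      exact Subalgebra.algebraMap_mem _ r
    | add a b _ _ h1 h2 => exact Subalgebra.add_mem _ (h1 ‹_›) (h2 ‹_›)
    | mul a b _ _ h1 h2 => exact Subalgebra.mul_mem _ (h1 ‹_›) (h2 ‹_›)
  have h2 := closure_minimal hsub hcl
  exact h2 hb

variable (φ : characterSpace ℂ T.BB)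

/-- the kernel of a character, as a subspace of the space of bounded sequences -/
noncomputable def NN : Submodule ℂ (ℕ →ᵇ A) where
  carrier := {f | ∃ h : f ∈ T.BB, φ ⟨f, h⟩ = 0}
  zero_mem' := ⟨Subalgebra.zero_mem _, map_zero φ⟩
  add_mem' := by
    rintro a b ⟨ha, h1⟩ ⟨hb, h2⟩
    refine ⟨Subalgebra.add_mem _ ha hb, ?_⟩
    have : (⟨a + b, Subalgebra.add_mem _ ha hb⟩ : T.BB) = ⟨a, ha⟩ + ⟨b, hb⟩ := rfl
    rw [this, map_add, h1, h2, add_zero]
  smul_mem' := by
    rintro c a ⟨ha, h1⟩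
    refine ⟨Subalgebra.smul_mem _ ha c, ?_⟩
    have : (⟨c • a, Subalgebra.smul_mem _ ha c⟩ : T.BB) = c • ⟨a, ha⟩ := rfl
    rw [this, map_smul, h1, smul_zero]

variable {T φ}

lemma pt_NN (h0 : ∀ n, ∀ s ⊆ T.I n, pt n (T.e (T.I n) s) ∈ NN T φ) {n : ℕ} {a : A}
    (ha : a ∈ T.alg n) : pt n a ∈ NN T φ := by
  have h : pt n a = ∑ s ∈ (T.I n).powerset, T.chi s a • pt n (T.e (T.I n) s) := by
    ext k
    rw [pt_apply, BoundedContinuousFunction.coe_sum, Finset.sum_apply]
    simp only [BoundedContinuousFunction.coe_smul, pt_apply]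
    split_ifs with hk
    · exact T.expand ha
    · simp
  rw [h]
  exact Submodule.sum_mem _ fun s hs =>
    Submodule.smul_mem _ _ (h0 n s (Finset.mem_powerset.mp hs))

/-- the tail sequence -/
noncomputable def yy (T : Tower A) (M : ℕ) (s : Finset (ℕ × ℕ)) : ℕ →ᵇ A :=
  BoundedContinuousFunction.ofNormedAddCommGroup
    (fun k => if M ≤ k then T.e (T.I M) s * T.t M k else 0)
    continuous_of_discreteTopology 1 (fun k => by
      split_ifs
      · refine (norm_mul_le _ _).trans ?_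
        have h1 := T.e_norm (T.I M) s
        have h2 := T.t_norm M k
        nlinarith [norm_nonneg (T.e (T.I M) s), norm_nonneg (T.t M k)]
      · simp)

lemma yy_apply (M : ℕ) (s : Finset (ℕ × ℕ)) (k : ℕ) :
    yy T M s k = if M ≤ k then T.e (T.I M) s * T.t M k else 0 := rfl

lemma yy_mem {M : ℕ} {s : Finset (ℕ × ℕ)} (hs : s ⊆ T.I M) : yy T M s ∈ T.B0 := by
  refine ⟨fun k => ?_, M, T.e (T.I M) s, T.e_mem _ _ hs, fun k hk => ?_⟩
  · rw [yy_apply]
    split_ifs with h
    · exact Subalgebra.mul_mem _ (T.alg_mono h (T.e_mem _ _ hs)) (T.t_mem le_rfl)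
    · exact Subalgebra.zero_mem _
  · rw [yy_apply, if_pos hk]

lemma norm_pow_le (T : Tower A) {a : A} (ha : ‖a‖ ≤ 1) (k : ℕ) : ‖a ^ k‖ ≤ 1 := by
  have := T.norm_prod_le (Finset.range k) (fun _ => a) (fun _ _ => ha)
  simpa using this

lemma t_pow_norm (T : Tower A) (M L k : ℕ) :
    ‖T.t M (M + L) ^ k‖ ≤ (∏ j ∈ Finset.Ico M (M + L), |T.C j|) * ((1 / 2) ^ L) ^ k := by
  induction L with
  | zero =>
    rw [add_zero, T.t_self]
    simp only [Finset.Ico_self, Finset.prod_empty, pow_zero, one_pow, one_mul]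
    exact T.one_norm
  | succ L ih =>
    have h1 : T.t M (M + (L + 1)) = T.t M (M + L) * T.u (M + L) :=
      T.t_succ_right (Nat.le_add_right M L)
    have h2 : ∏ j ∈ Finset.Ico M (M + (L + 1)), |T.C j| =
        (∏ j ∈ Finset.Ico M (M + L), |T.C j|) * |T.C (M + L)| :=
      Finset.prod_Ico_succ_top (Nat.le_add_right M L) _
    rw [h1, mul_pow, h2]
    refine (norm_mul_le _ _).trans ?_
    have h3 : ‖T.u (M + L) ^ k‖ ≤ |T.C (M + L)| * (1 / 2) ^ k :=
      (T.u_pow (M + L) k).trans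
        (mul_le_mul_of_nonneg_right (le_abs_self _) (by positivity))
    calc ‖T.t M (M + L) ^ k‖ * ‖T.u (M + L) ^ k‖
        ≤ ((∏ j ∈ Finset.Ico M (M + L), |T.C j|) * ((1 / 2) ^ L) ^ k) *
          (|T.C (M + L)| * (1 / 2) ^ k) :=
          mul_le_mul ih h3 (norm_nonneg _)
            (mul_nonneg (Finset.prod_nonneg fun _ _ => abs_nonneg _) (by positivity))
      _ = _ := by ring

lemma yy_NN (h0 : ∀ n, ∀ s ⊆ T.I n, pt n (T.e (T.I n) s) ∈ NN T φ) {M : ℕ}
    {s : Finset (ℕ × ℕ)} (hs : s ⊆ T.I M) : yy T M s ∈ NN T φ := by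
  have hyB : yy T M s ∈ T.BB := B0_sub T (yy_mem hs)
  refine ⟨hyB, ?_⟩
  set r : ℝ := ‖φ ⟨yy T M s, hyB⟩‖ with hr
  obtain ⟨K, hK⟩ : ∃ K : ℝ, ∀ a : T.BB, ‖φ a‖ ≤ K * ‖a‖ :=
    ⟨‖CharacterSpace.toCLM φ‖, fun a => (CharacterSpace.toCLM φ).le_opNorm a⟩
  have key : ∀ L k : ℕ, 1 ≤ k → r ^ k ≤
      |K| * ((∏ j ∈ Finset.Ico M (M + L), |T.C j|) * ((1 / 2) ^ L) ^ k) := by
    intro L k _
    have hmem : ∀ n, yy T M s n ^ k ∈ T.alg n := fun n =>
      Subalgebra.pow_mem _ ((yy_mem hs).1 n) k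
    have hsum : ∑ n ∈ Finset.range (M + L), pt n (yy T M s n ^ k) ∈ NN T φ :=
      Submodule.sum_mem _ fun n _ => pt_NN h0 (hmem n)
    obtain ⟨hsB, hs0⟩ := hsum
    set z : T.BB := ⟨yy T M s, hyB⟩ ^ k -
      ⟨∑ n ∈ Finset.range (M + L), pt n (yy T M s n ^ k), hsB⟩ with hz
    have hφz : φ z = φ ⟨yy T M s, hyB⟩ ^ k := by
      rw [hz, map_sub, map_pow, hs0, sub_zero]
    have hzv : ∀ m, (z : ℕ →ᵇ A) m = if m < M + L then 0 else yy T M s m ^ k := by
      intro m
      have h1 : (z : ℕ →ᵇ A) m = yy T M s m ^ k -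
          ∑ n ∈ Finset.range (M + L), pt n (yy T M s n ^ k) m := by
        rw [← Finset.sum_apply, ← BoundedContinuousFunction.coe_sum]
        rfl
      rw [h1]
      simp only [pt_apply]
      rw [Finset.sum_ite_eq]
      split_ifs with h2 h3 h3
      · rw [sub_self]
      · exact absurd (Finset.mem_range.mp h2) h3
      · exact absurd (Finset.mem_range.mpr h3) h2
      · rw [sub_zero]
    have hCnn : 0 ≤ (∏ j ∈ Finset.Ico M (M + L), |T.C j|) * ((1 / 2 : ℝ) ^ L) ^ k :=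
      mul_nonneg (Finset.prod_nonneg fun _ _ => abs_nonneg _) (by positivity)
    have hzn : ‖z‖ ≤ (∏ j ∈ Finset.Ico M (M + L), |T.C j|) * ((1 / 2) ^ L) ^ k := by
      have h1 : ‖z‖ = ‖(z : ℕ →ᵇ A)‖ := rfl
      rw [h1, BoundedContinuousFunction.norm_le hCnn]
      intro m
      rw [hzv m]
      split_ifs with h2
      · rw [norm_zero]; exact hCnn
      · rw [yy_apply, if_pos (by omega), ← T.t_mul (show M ≤ M + L by omega)
          (show M + L ≤ m by omega), mul_pow, mul_pow]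
        calc ‖T.e (T.I M) s ^ k * (T.t M (M + L) ^ k * T.t (M + L) m ^ k)‖
            ≤ ‖T.e (T.I M) s ^ k‖ * (‖T.t M (M + L) ^ k‖ * ‖T.t (M + L) m ^ k‖) :=
              (norm_mul_le _ _).trans
                (mul_le_mul_of_nonneg_left (norm_mul_le _ _) (norm_nonneg _))
          _ ≤ 1 * (((∏ j ∈ Finset.Ico M (M + L), |T.C j|) * ((1 / 2) ^ L) ^ k) * 1) := by
              apply mul_le_mul (norm_pow_le T (T.e_norm _ _) k) _ (by positivity) zero_le_one
              exact mul_le_mul (t_pow_norm T M L k) (norm_pow_le T (T.t_norm _ _) k)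
                (norm_nonneg _) hCnn
          _ = _ := by ring
    calc r ^ k = ‖φ z‖ := by rw [hφz, norm_pow]
      _ ≤ K * ‖z‖ := hK z
      _ ≤ |K| * ‖z‖ := mul_le_mul_of_nonneg_right (le_abs_self _) (norm_nonneg _)
      _ ≤ _ := mul_le_mul_of_nonneg_left hzn (abs_nonneg _)
  have hL : ∀ L : ℕ, r ≤ (1 / 2) ^ L := by
    intro L
    by_contra hlt
    push Not at hlt
    have hrp : 0 < (1 / 2 : ℝ) ^ L := by positivity
    have h3 : Tendsto (fun k : ℕ => (r / (1 / 2) ^ L) ^ k) atTop atTop :=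
      tendsto_pow_atTop_atTop_of_one_lt (by rw [lt_div_iff₀ hrp, one_mul]; exact hlt)
    obtain ⟨k, hk, hk1⟩ := ((h3.eventually_gt_atTop
      (|K| * ∏ j ∈ Finset.Ico M (M + L), |T.C j|)).and (eventually_ge_atTop 1)).exists
    have h4 := key L k hk1
    have h5 : (r / (1 / 2) ^ L) ^ k ≤ |K| * ∏ j ∈ Finset.Ico M (M + L), |T.C j| := by
      rw [div_pow, div_le_iff₀ (by positivity)]
      linarith
    linarith
  have hr0 : r ≤ 0 := by
    have h1 : Tendsto (fun L : ℕ => (1 / 2 : ℝ) ^ L) atTop (𝓝 0) :=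
      tendsto_pow_atTop_nhds_zero_of_lt_one (by norm_num) (by norm_num)
    exact ge_of_tendsto' h1 hL
  exact norm_le_zero_iff.mp hr0

end B3

open B3 in
theorem taskB3 : TaskB3 := by
  intro A _ _ _ T φ
  by_cases h : ∃ n, ∃ s ⊆ T.I n, pt n (T.e (T.I n) s) ∉ NN T φ
  · left
    obtain ⟨n, s, hs, hN⟩ := h
    refine ⟨n, s, hs, ?_⟩
    have hE : pt n (T.e (T.I n) s) ∈ T.BB := B0_sub T (pt_mem T (T.e_mem _ _ hs))
    have hne : φ ⟨pt n (T.e (T.I n) s), hE⟩ ≠ 0 := fun h0 => hN ⟨hE, h0⟩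
    intro a
    have h1 : a * ⟨pt n (T.e (T.I n) s), hE⟩ =
        T.chi s ((a : ℕ →ᵇ A) n) • (⟨pt n (T.e (T.I n) s), hE⟩ : T.BB) := by
      apply Subtype.ext
      ext k
      show (a : ℕ →ᵇ A) k * pt n (T.e (T.I n) s) k =
        T.chi s ((a : ℕ →ᵇ A) n) • pt n (T.e (T.I n) s) k
      rw [pt_apply]
      split_ifs with hk
      · rw [hk]
        exact T.mul_e hs (BB_val T a.2 n)
      · rw [mul_zero, smul_zero]
    have h2 := congrArg φ h1
    rw [map_mul, map_smul, smul_eq_mul] at h2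
    exact mul_right_cancel₀ hne h2
  · right
    push Not at h
    intro a ha
    obtain ⟨hal, M, v, hv, hM⟩ := ha
    have hdec : (a : ℕ →ᵇ A) = ∑ n ∈ Finset.range M, pt n ((a : ℕ →ᵇ A) n) +
        ∑ s ∈ (T.I M).powerset, T.chi s v • yy T M s := by
      ext k
      rw [BoundedContinuousFunction.coe_add, Pi.add_apply, BoundedContinuousFunction.coe_sum,
        BoundedContinuousFunction.coe_sum, Finset.sum_apply, Finset.sum_apply]
      simp only [pt_apply, BoundedContinuousFunction.coe_smul, yy_apply]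
      rw [Finset.sum_ite_eq]
      rcases Nat.lt_or_ge k M with hk | hk
      · rw [if_pos (Finset.mem_range.mpr hk)]
        have : ∀ s ∈ (T.I M).powerset, T.chi s v •
            (if M ≤ k then T.e (T.I M) s * T.t M k else 0) = 0 := by
          intro s _
          rw [if_neg (by omega), smul_zero]
        rw [Finset.sum_eq_zero this, add_zero]
      · rw [if_neg (by rw [Finset.mem_range]; omega), zero_add, hM k hk]
        simp only [if_pos hk]
        conv_lhs => rw [T.expand hv, Finset.sum_mul]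
        apply Finset.sum_congr rfl
        intro s _
        rw [smul_mul_assoc]
    have hmem : (a : ℕ →ᵇ A) ∈ NN T φ := by
      rw [hdec]
      apply Submodule.add_mem
      · exact Submodule.sum_mem _ fun n _ => pt_NN h (hal n)
      · exact Submodule.sum_mem _ fun s hs =>
          Submodule.smul_mem _ _ (yy_NN h (Finset.mem_powerset.mp hs))
    obtain ⟨_, h0⟩ := hmem
    exact h0

end H611R4
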