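import Pool.Agent.H611R4.Stmts2

/-! # Task B4: regularity -/

set_option autoImplicit false
set_option maxSynthPendingDepth 3
set_option linter.unusedSectionVars false

open Filter Topology BoundedContinuousFunction WeakDual

namespace H611R4

namespace TB4

variable {A : Type} [NormedCommRing A] [NormedAlgebra ℂ A] (T : Tower A)

/-- the sequence with value `e_s` at `n` and `0` elsewhere -/
noncomputable def E (n : ℕ) (s : Finset (ℕ × ℕ)) : ℕ →ᵇ A :=
  BoundedContinuousFunction.ofNormedAddCommGroupDiscrete (fun k => if k = n then T.e (T.I n) s else 0) 1 (by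
    intro k
    split_ifs
    · exact T.e_norm _ _
    · simp)

lemma E_apply (n : ℕ) (s : Finset (ℕ × ℕ)) (k : ℕ) : E T n s k = if k = n then T.e (T.I n) s else 0 := rfl

lemma E_mem_B0 {n : ℕ} {s : Finset (ℕ × ℕ)} (hs : s ⊆ T.I n) : E T n s ∈ T.B0 := by
  refine ⟨fun k => ?_, n + 1, 0, Subalgebra.zero_mem _, fun k hk => ?_⟩
  · rw [E_apply]
    split_ifs with h
    · rw [h]
      exact T.e_mem _ _ hs
    · exact Subalgebra.zero_mem _
  · rw [E_apply, if_neg (by omega), zero_mul]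

lemma B0_le_BB {a : ℕ →ᵇ A} (h : a ∈ T.B0) : a ∈ T.BB :=
  Subalgebra.le_topologicalClosure _ (Algebra.subset_adjoin h)

/-- sequences with `b n ∈ alg n` -/
noncomputable def S : Subalgebra ℂ (ℕ →ᵇ A) where
  carrier := {b | ∀ n, b n ∈ T.alg n}
  mul_mem' := by
    intro a b ha hb n
    exact Subalgebra.mul_mem _ (ha n) (hb n)
  add_mem' := by
    intro a b ha hb n
    exact Subalgebra.add_mem _ (ha n) (hb n)
  algebraMap_mem' := by
    intro r n
    exact Subalgebra.algebraMap_mem _ r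

lemma BB_le_S : T.BB ≤ S T := by
  apply Subalgebra.topologicalClosure_minimal
  · apply Algebra.adjoin_le
    intro b hb
    exact hb.1
  · have : (S T : Set (ℕ →ᵇ A)) = ⋂ n, {b | b n ∈ T.alg n} := by
      ext b
      simp [S]
    rw [this]
    apply isClosed_iInter
    intro n
    exact (T.isClosed_alg n).preimage (continuous_eval_const n)

lemma mul_E {n : ℕ} {s : Finset (ℕ × ℕ)} (hs : s ⊆ T.I n) {b : ℕ →ᵇ A} (hb : b ∈ T.BB) :
    b * E T n s = T.chi s (b n) • E T n s := by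
  ext k
  show b k * E T n s k = T.chi s (b n) • E T n s k
  rw [E_apply]
  split_ifs with h
  · rw [h]
    exact T.mul_e hs (BB_le_S T hb n)
  · simp

lemma E_sq {n : ℕ} {s : Finset (ℕ × ℕ)} (hs : s ⊆ T.I n) : E T n s * E T n s = E T n s := by
  rw [mul_E T hs (B0_le_BB T (E_mem_B0 T hs)), E_apply, if_pos rfl, T.chi_e, one_smul]

/-- as an element of the algebra -/
noncomputable def EB (n : ℕ) (s : Finset (ℕ × ℕ)) (hs : s ⊆ T.I n) : T.BB := ⟨E T n s, B0_le_BB T (E_mem_B0 T hs)⟩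

lemma EB_sq (n : ℕ) (s : Finset (ℕ × ℕ)) (hs : s ⊆ T.I n) : EB T n s hs * EB T n s hs = EB T n s hs :=
  Subtype.ext (E_sq T hs)

lemma mul_EB (n : ℕ) (s : Finset (ℕ × ℕ)) (hs : s ⊆ T.I n) (b : T.BB) :
    b * EB T n s hs = T.chi s ((b : ℕ →ᵇ A) n) • EB T n s hs :=
  Subtype.ext (mul_E T hs b.2)

/-- two characters which vanish on `B0` agree -/
lemma eq_of_kill (hB1 : TaskB1) (φ ψ : characterSpace ℂ T.BB)
    (h1 : ∀ a : T.BB, (a : ℕ →ᵇ A) ∈ T.B0 → φ a = 0) (h2 : ∀ a : T.BB, (a : ℕ →ᵇ A) ∈ T.B0 → ψ a = 0) : φ = ψ := by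
  have hcl : IsClosed {a : T.BB | φ a = ψ a} := by
    apply isClosed_eq
    · exact map_continuous φ
    · exact map_continuous ψ
  apply DFunLike.ext
  intro a
  have ha : a ∈ closure {a : T.BB | φ a = ψ a} := by
    rw [Metric.mem_closure_iff]
    intro ε hε
    obtain ⟨c, b, hb, hlt⟩ := hB1 A T a.1 a.2 ε hε
    refine ⟨c • 1 + ⟨b, B0_le_BB T hb⟩, ?_, ?_⟩
    · show φ (c • 1 + ⟨b, B0_le_BB T hb⟩) = ψ (c • 1 + ⟨b, B0_le_BB T hb⟩)
      rw [map_add, map_add, h1 ⟨b, B0_le_BB T hb⟩ hb, h2 ⟨b, B0_le_BB T hb⟩ hb, map_smul, map_smul, map_one, map_one]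
    · rw [dist_eq_norm]
      exact hlt
  exact hcl.closure_subset ha

end TB4

open TB4 in
theorem taskB4 : TaskB4 := by
  intro hB1 hB3 A _ _ _ T F φ hF hφ
  have : CompleteSpace T.BB := (Subalgebra.isClosed_topologicalClosure _).completeSpace_coe
  rcases hB3 A T φ with ⟨n, s, hs, h⟩ | h
  · refine ⟨EB T n s hs, ?_, ?_⟩
    · rw [h]
      have : T.chi s ((EB T n s hs : ℕ →ᵇ A) n) = 1 := by
        show T.chi s (E T n s n) = 1
        rw [E_apply, if_pos rfl, T.chi_e]
      rw [this]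
      exact one_ne_zero
    · intro ψ hψ
      by_contra hne
      apply hφ
      have : ψ = φ := by
        apply DFunLike.ext
        intro b
        rw [h b]
        have h1 := congrArg ψ (mul_EB T n s hs b)
        rw [map_mul, map_smul, smul_eq_mul] at h1
        exact mul_right_cancel₀ hne h1
      rwa [← this]
  · have hcov : F ⊆ ⋃ i : {p : ℕ × Finset (ℕ × ℕ) // p.2 ⊆ T.I p.1}, {ψ | ψ (EB T i.1.1 i.1.2 i.2) ≠ 0} := by
      intro ψ hψ
      rcases hB3 A T ψ with ⟨n, s, hs, h'⟩ | h'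
      · rw [Set.mem_iUnion]
        refine ⟨⟨(n, s), hs⟩, ?_⟩
        show ψ (EB T n s hs) ≠ 0
        rw [h']
        have : T.chi s ((EB T n s hs : ℕ →ᵇ A) n) = 1 := by
          show T.chi s (E T n s n) = 1
          rw [E_apply, if_pos rfl, T.chi_e]
        rw [this]
        exact one_ne_zero
      · exact absurd (eq_of_kill T hB1 φ ψ h h' ▸ hψ) hφ
    obtain ⟨t, ht⟩ := hF.isCompact.elim_finite_subcover _ (fun i => by
      have h1 : Continuous (fun ψ : characterSpace ℂ T.BB => ψ (EB T i.1.1 i.1.2 i.2)) :=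
        (WeakDual.eval_continuous (EB T i.1.1 i.1.2 i.2)).comp continuous_subtype_val
      exact isOpen_ne.preimage h1) hcov
    refine ⟨∏ i ∈ t, (1 - EB T i.1.1 i.1.2 i.2), ?_, ?_⟩
    · rw [map_prod]
      have : ∀ i ∈ t, φ (1 - EB T i.1.1 i.1.2 i.2) = 1 := by
        intro i _
        rw [map_sub, map_one, h _ (E_mem_B0 T i.2), sub_zero]
      rw [Finset.prod_congr rfl this, Finset.prod_const_one]
      exact one_ne_zero
    · intro ψ hψ
      have h1 := ht hψ
      rw [Set.mem_iUnion₂] at h1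
      obtain ⟨i, hi, h2⟩ := h1
      rw [map_prod]
      apply Finset.prod_eq_zero hi
      have h3 := congrArg ψ (EB_sq T i.1.1 i.1.2 i.2)
      rw [map_mul] at h3
      have h4 : ψ (EB T i.1.1 i.1.2 i.2) = 1 := mul_right_cancel₀ h2 (by rw [one_mul]; exact h3)
      rw [map_sub, map_one, h4, sub_self]

end H611R4
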