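import Mathlib
import Pool.Agent.H611R4.Stmts2

set_option autoImplicit false
set_option maxSynthPendingDepth 3
set_option linter.unusedSectionVars false
set_option linter.unusedVariables false

open Filter Topology BoundedContinuousFunction WeakDual

namespace H611R4

namespace B5

theorem abs_lemma {B : Type} [NormedCommRing B] [NormedAlgebra ℂ B] (S : ℕ → (B →L[ℂ] B)) (K : ℝ)
    (hK0 : 0 ≤ K)
    (hK : ∀ M a, ‖S M a‖ ≤ K * ‖a‖) (hS : ∀ a, Tendsto (fun M => S M a) atTop (𝓝 a))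
    (hf : ∀ M, ∃ (ι : Type) (_ : Fintype ι) (φ : ι → characterSpace ℂ B) (g : ι → B),
      ∀ a, S M a = ∑ i, φ i a • g i) :
    TensorSemisimple B := by
  intro u hu h0
  ext β
  show u β = 0
  set Φ : ℕ → (B →L[ℂ] B →L[ℂ] ℂ) := fun M => β.bilinearComp (S M) (S M) with hΦ
  have hΦa : ∀ M a b, Φ M a b = β (S M a) (S M b) := fun M a b => rfl
  have k1 : ∀ M, u (Φ M) = 0 := by
    intro M
    obtain ⟨ι, _, φ, g, hg⟩ := hf M
    have : Φ M = ∑ i, ∑ j, (β (g i) (g j)) • charForm (φ i) (φ j) := by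
      ext a b
      rw [hΦa, hg a, hg b]
      simp only [map_sum, map_smul, _root_.sum_apply, _root_.smul_apply,
        smul_eq_mul, charForm, ContinuousLinearMap.smulRight_apply, CharacterSpace.coe_toCLM,
        Finset.mul_sum]
      rw [Finset.sum_comm]
      refine Finset.sum_congr rfl fun i _ => Finset.sum_congr rfl fun j _ => ?_
      ring
    rw [this, map_sum]
    refine Finset.sum_eq_zero fun i _ => ?_
    rw [map_sum]
    refine Finset.sum_eq_zero fun j _ => ?_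
    rw [map_smul]
    have := h0 (φ i, φ j)
    unfold gelf at this
    rw [this, smul_zero]
  have k2 : ∀ M, ‖Φ M‖ ≤ K * K * ‖β‖ := by
    intro M
    refine ContinuousLinearMap.opNorm_le_bound₂ _ (by positivity) fun a b => ?_
    rw [hΦa]
    calc ‖β (S M a) (S M b)‖ ≤ ‖β‖ * ‖S M a‖ * ‖S M b‖ := β.le_opNorm₂ _ _
      _ ≤ ‖β‖ * (K * ‖a‖) * (K * ‖b‖) := by
        gcongr
        · exact hK _ _
        · exact hK _ _
      _ = _ := by ring
  have k3 : ∀ v ∈ Submodule.span ℂ {u : (B →L[ℂ] B →L[ℂ] ℂ) →L[ℂ] ℂ | ∃ a b : B, u = tmul a b},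
      Tendsto (fun M => v (Φ M)) atTop (𝓝 (v β)) := by
    intro v hv
    induction hv using Submodule.span_induction with
    | mem v hv =>
      obtain ⟨a, b, rfl⟩ := hv
      show Tendsto (fun M => Φ M a b) atTop (𝓝 (β a b))
      simp only [hΦa]
      have hc : Continuous fun p : B × B => β p.1 p.2 :=
        (β.continuous.comp continuous_fst).clm_apply continuous_snd
      exact (hc.tendsto (a, b)).comp ((hS a).prodMk_nhds (hS b))
    | zero => simp
    | add v w _ _ h1 h2 => exact h1.add h2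
    | smul c v _ h1 => exact h1.const_smul c
  by_contra hne
  have hpos : 0 < ‖u β‖ := norm_pos_iff.2 hne
  set δ := ‖u β‖ / (2 * (K * K * ‖β‖ + ‖β‖ + 1)) with hδ
  have hden : 0 < K * K * ‖β‖ + ‖β‖ + 1 := by positivity
  have hδ0 : 0 < δ := by positivity
  have hu' : u ∈ closure ((Submodule.span ℂ {u : (B →L[ℂ] B →L[ℂ] ℂ) →L[ℂ] ℂ | ∃ a b : B, u = tmul a b} :
      Submodule ℂ _) : Set ((B →L[ℂ] B →L[ℂ] ℂ) →L[ℂ] ℂ)) := hu
  obtain ⟨v, hv, hd⟩ := Metric.mem_closure_iff.1 hu' δ hδ0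
  rw [dist_eq_norm] at hd
  have hlim : Tendsto (fun M => ‖v β - v (Φ M)‖) atTop (𝓝 0) := by
    have := (tendsto_const_nhds (x := v β)).sub (k3 v hv)
    simpa using this.norm
  have hle : ∀ M, ‖u β‖ ≤ δ * (K * K * ‖β‖ + ‖β‖) + ‖v β - v (Φ M)‖ := by
    intro M
    have e1 : u β = (u - v) β + (v β - v (Φ M)) - (u - v) (Φ M) := by
      simp only [_root_.sub_apply, k1 M]
      ring
    have e2 : ‖(u - v) β‖ ≤ δ * ‖β‖ := ((u - v).le_opNorm β).trans (by gcongr)
    have e3 : ‖(u - v) (Φ M)‖ ≤ δ * (K * K * ‖β‖) :=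
      ((u - v).le_opNorm _).trans (mul_le_mul hd.le (k2 M) (norm_nonneg _) hδ0.le)
    calc ‖u β‖ = ‖(u - v) β + (v β - v (Φ M)) - (u - v) (Φ M)‖ := by rw [← e1]
      _ ≤ ‖(u - v) β + (v β - v (Φ M))‖ + ‖(u - v) (Φ M)‖ := norm_sub_le _ _
      _ ≤ ‖(u - v) β‖ + ‖v β - v (Φ M)‖ + ‖(u - v) (Φ M)‖ := by gcongr; exact norm_add_le _ _
      _ ≤ _ := by nlinarith
  have hle2 : ‖u β‖ ≤ δ * (K * K * ‖β‖ + ‖β‖) + 0 :=
    ge_of_tendsto' (hlim.const_add _) hle
  have : δ * (K * K * ‖β‖ + ‖β‖ + 1) = ‖u β‖ / 2 := by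
    rw [hδ]; field_simp
  nlinarith

variable {A : Type} [NormedCommRing A] [NormedAlgebra ℂ A] (T : Tower A)

/-- sequences whose `n`-th term is in `alg n` -/
noncomputable def seqAlg (n : ℕ) : Subalgebra ℂ (ℕ →ᵇ A) where
  carrier := {a | a n ∈ T.alg n}
  mul_mem' := fun {a b} ha hb => by
    show (a * b) n ∈ T.alg n
    rw [BoundedContinuousFunction.coe_mul, Pi.mul_apply]
    exact Subalgebra.mul_mem _ ha hb
  add_mem' := fun {a b} ha hb => by
    show (a + b) n ∈ T.alg n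
    rw [BoundedContinuousFunction.coe_add, Pi.add_apply]
    exact Subalgebra.add_mem _ ha hb
  algebraMap_mem' := fun r => by
    show (algebraMap ℂ (ℕ →ᵇ A) r) n ∈ T.alg n
    rw [Algebra.algebraMap_eq_smul_one]
    show r • (1 : A) ∈ T.alg n
    exact Subalgebra.smul_mem _ (Subalgebra.one_mem _) _

lemma mem_alg_of_BB {a : ℕ →ᵇ A} (ha : a ∈ T.BB) (n : ℕ) : a n ∈ T.alg n := by
  have h1 : T.BB ≤ seqAlg T n := by
    refine Subalgebra.topologicalClosure_minimal (Algebra.adjoin_le ?_) ?_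
    · intro b hb
      exact hb.1 n
    · show IsClosed ((fun b : ℕ →ᵇ A => b n) ⁻¹' (T.alg n : Set A))
      exact (T.isClosed_alg n).preimage
        ((LipschitzWith.of_dist_le_mul (K := 1) fun a b => by
          simpa using BoundedContinuousFunction.dist_coe_le_dist n).continuous)
  exact h1 ha

/-- the character `a ↦ chi s (a n)` -/
noncomputable def chr (n : ℕ) (s : Finset (ℕ × ℕ)) : characterSpace ℂ T.BB :=
  ⟨StrongDual.toWeakDual (LinearMap.mkContinuous
    { toFun := fun a : T.BB => T.chi s ((a : ℕ →ᵇ A) n)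
      map_add' := fun a b => by
        show T.chi s ((a : ℕ →ᵇ A) n + (b : ℕ →ᵇ A) n) = _
        rw [map_add]
      map_smul' := fun c a => by
        show T.chi s (c • (a : ℕ →ᵇ A) n) = _
        rw [map_smul]; rfl } 1 (fun a => by
        rw [one_mul]
        exact (T.chi_norm s _).trans ((a : ℕ →ᵇ A).norm_coe_le_norm n))), by
    constructor
    · intro h
      have h1 := congrArg (fun f : WeakDual ℂ T.BB => f (1 : T.BB)) h
      have h2 : T.chi s (1 : A) = 0 := h1
      rw [map_one] at h2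
      exact one_ne_zero h2
    · intro a b
      show T.chi s ((a : ℕ →ᵇ A) n * (b : ℕ →ᵇ A) n) = _
      rw [map_mul]
      rfl⟩

lemma chr_apply (n : ℕ) (s : Finset (ℕ × ℕ)) (a : T.BB) : chr T n s a = T.chi s ((a : ℕ →ᵇ A) n) := rfl

/-- the value of the truncation operator -/
noncomputable def tr (M : ℕ) (a : ℕ → A) (n : ℕ) : A :=
  if n ≤ M then a n else a M * T.t M n + T.chi ∅ (a M) • (1 - T.t M n)

lemma tr_norm (M : ℕ) (a : ℕ → A) (c : ℝ) (hc : 0 ≤ c) (ha : ∀ n, ‖a n‖ ≤ c) (n : ℕ) : ‖tr T M a n‖ ≤ 3 * c := by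
  unfold tr
  split_ifs with h
  · exact (ha n).trans (by linarith)
  · have h1 := T.t_norm M n
    have h2 := T.one_norm
    have h3 := ha M
    have h4 := T.chi_norm ∅ (a M)
    calc ‖a M * T.t M n + T.chi ∅ (a M) • (1 - T.t M n)‖
        ≤ ‖a M‖ * ‖T.t M n‖ + ‖T.chi ∅ (a M)‖ * (‖(1 : A)‖ + ‖T.t M n‖) := by
          refine (norm_add_le _ _).trans (add_le_add (norm_mul_le _ _) ?_)
          rw [norm_smul]
          gcongr
          exact norm_sub_le _ _
      _ ≤ c * 1 + c * (1 + 1) := by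
          gcongr
          exact h4.trans h3
      _ = _ := by ring

/-- the truncation operator on all bounded sequences -/
noncomputable def trB (M : ℕ) (a : ℕ →ᵇ A) : ℕ →ᵇ A :=
  BoundedContinuousFunction.ofNormedAddCommGroup (tr T M a) continuous_of_discreteTopology
    (3 * ‖a‖) (tr_norm T M a _ (norm_nonneg _) a.norm_coe_le_norm)

lemma trB_apply (M : ℕ) (a : ℕ →ᵇ A) (n : ℕ) : trB T M a n = tr T M a n := rfl

lemma trB_mem (M : ℕ) (a : ℕ →ᵇ A) (ha : ∀ n, a n ∈ T.alg n) : trB T M a ∈ T.BB := by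
  have h1 : trB T M a - T.chi ∅ (a M) • 1 ∈ T.B0 := by
    refine ⟨fun n => ?_, M, a M - T.chi ∅ (a M) • 1,
      Subalgebra.sub_mem _ (ha M) (Subalgebra.smul_mem _ (Subalgebra.one_mem _) _), fun n hn => ?_⟩
    · show tr T M a n - T.chi ∅ (a M) • (1 : A) ∈ T.alg n
      refine Subalgebra.sub_mem _ ?_ (Subalgebra.smul_mem _ (Subalgebra.one_mem _) _)
      unfold tr
      split_ifs with h
      · exact ha n
      · have h2 : T.alg M ≤ T.alg n := T.alg_mono (by omega)
        exact Subalgebra.add_mem _ (Subalgebra.mul_mem _ (h2 (ha M)) (T.t_mem le_rfl))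
          (Subalgebra.smul_mem _ (Subalgebra.sub_mem _ (Subalgebra.one_mem _) (T.t_mem le_rfl)) _)
    · show tr T M a n - T.chi ∅ (a M) • (1 : A) = _
      unfold tr
      split_ifs with h
      · have : n = M := le_antisymm h hn
        subst this
        rw [T.t_self, mul_one]
      · rw [sub_mul, smul_mul_assoc, one_mul, smul_sub]
        abel
  have h2 : trB T M a = (trB T M a - T.chi ∅ (a M) • 1) + T.chi ∅ (a M) • 1 := by abel
  rw [h2]
  exact Subalgebra.add_mem _ (Subalgebra.le_topologicalClosure _ (Algebra.subset_adjoin h1))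
    (Subalgebra.smul_mem _ (Subalgebra.one_mem _) _)

/-- the truncation operator on `BB` -/
noncomputable def trC (M : ℕ) : T.BB →L[ℂ] T.BB :=
  LinearMap.mkContinuous
    { toFun := fun a => ⟨trB T M a, trB_mem T M a (mem_alg_of_BB T a.2)⟩
      map_add' := fun a b => by
        apply Subtype.ext
        ext n
        show tr T M ((a : ℕ →ᵇ A) + (b : ℕ →ᵇ A) : ℕ →ᵇ A) n = tr T M (a : ℕ →ᵇ A) n + tr T M (b : ℕ →ᵇ A) n
        unfold tr
        split_ifs with h
        · rfl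
        · simp only [BoundedContinuousFunction.coe_add, Pi.add_apply, map_add, add_mul, add_smul]
          abel
      map_smul' := fun c a => by
        apply Subtype.ext
        ext n
        show tr T M (c • (a : ℕ →ᵇ A) : ℕ →ᵇ A) n = c • tr T M (a : ℕ →ᵇ A) n
        unfold tr
        split_ifs with h
        · rfl
        · simp only [BoundedContinuousFunction.coe_smul, map_smul, smul_mul_assoc, smul_add, smul_smul, smul_eq_mul] } 3
    (fun a => by
      refine (BoundedContinuousFunction.norm_le (by positivity)).2 fun n => ?_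
      exact tr_norm T M _ _ (norm_nonneg _) ((a : ℕ →ᵇ A).norm_coe_le_norm) n)

lemma trC_norm (M : ℕ) (a : T.BB) : ‖trC T M a‖ ≤ 3 * ‖a‖ := by
  refine (BoundedContinuousFunction.norm_le (by positivity)).2 fun n => ?_
  exact tr_norm T M _ _ (norm_nonneg _) ((a : ℕ →ᵇ A).norm_coe_le_norm) n

lemma trC_apply (M : ℕ) (a : T.BB) (n : ℕ) : ((trC T M a : T.BB) : ℕ →ᵇ A) n = tr T M (a : ℕ →ᵇ A) n := rfl

lemma trC_close (M K : ℕ) (hKM : K ≤ M) (c : ℂ) (b : ℕ →ᵇ A) (v : A)
    (hK : ∀ n, K ≤ n → b n = v * T.t K n) (a' : T.BB) (ha' : (a' : ℕ →ᵇ A) = c • 1 + b) :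
    ‖trC T M a' - a'‖ ≤ 2 * ‖v‖ * (1/2)^(M-K) := by
  refine (BoundedContinuousFunction.norm_le (by positivity)).2 fun n => ?_
  show ‖tr T M (a' : ℕ →ᵇ A) n - (a' : ℕ →ᵇ A) n‖ ≤ _
  unfold tr
  split_ifs with h
  · rw [sub_self, norm_zero]; positivity
  · have e0 : ∀ k, (a' : ℕ →ᵇ A) k = c • (1 : A) + b k := fun k => by rw [ha']; rfl
    have e1 : (a' : ℕ →ᵇ A) M * T.t M n + T.chi ∅ ((a' : ℕ →ᵇ A) M) • (1 - T.t M n) - (a' : ℕ →ᵇ A) n
        = T.chi ∅ (b M) • (1 - T.t M n) := by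
      rw [e0, e0, map_add, map_smul, map_one, hK n (by omega), hK M hKM,
        ← T.t_mul hKM (by omega : M ≤ n), add_mul, smul_mul_assoc, one_mul, add_smul, smul_eq_mul, mul_one,
        smul_sub c, mul_assoc]
      abel
    rw [e1, norm_smul, hK M hKM, map_mul, norm_mul]
    have h1 := T.chi_norm ∅ v
    have h2 := T.chi_t ∅ hKM
    have h3 : ‖1 - T.t M n‖ ≤ 2 := (norm_sub_le _ _).trans (by linarith [T.one_norm, T.t_norm M n])
    calc ‖T.chi ∅ v‖ * ‖T.chi ∅ (T.t K M)‖ * ‖1 - T.t M n‖ ≤ ‖v‖ * (1/2)^(M-K) * 2 := by gcongr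
      _ = _ := by ring

lemma trC_tendsto (h : TaskB1) (a : T.BB) : Tendsto (fun M => trC T M a) atTop (𝓝 a) := by
  rw [Metric.tendsto_atTop]
  intro ε hε
  obtain ⟨c, b, hb, hd⟩ := h A T a a.2 (ε/5) (by positivity)
  have hbB : b ∈ T.BB := Subalgebra.le_topologicalClosure _ (Algebra.subset_adjoin hb)
  set a' : T.BB := ⟨c • 1 + b, Subalgebra.add_mem _ (Subalgebra.smul_mem _ (Subalgebra.one_mem _) _) hbB⟩ with ha'
  obtain ⟨hbm, K, v, hv, hK⟩ := hb
  have h1 : Tendsto (fun M : ℕ => 2 * ‖v‖ * (1/2 : ℝ)^(M-K)) atTop (𝓝 0) := by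
    have h2 : Tendsto (fun M : ℕ => (1/2 : ℝ)^(M-K)) atTop (𝓝 0) :=
      (tendsto_pow_atTop_nhds_zero_of_lt_one (by norm_num) (by norm_num)).comp (tendsto_sub_atTop_nat K)
    simpa using h2.const_mul (2 * ‖v‖)
  obtain ⟨N, hN⟩ := eventually_atTop.1 (h1.eventually_lt_const (by positivity : (0:ℝ) < ε/5))
  refine ⟨max N K, fun M hM => ?_⟩
  have hMN : N ≤ M := (le_max_left _ _).trans hM
  have hMK : K ≤ M := (le_max_right _ _).trans hM
  rw [dist_eq_norm]
  have e1 : trC T M a - a = trC T M (a - a') + (trC T M a' - a') - (a - a') := by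
    rw [map_sub]; abel
  have e2 : ‖a - a'‖ < ε/5 := hd
  have e3 := trC_norm T M (a - a')
  have e4 := trC_close T M K hMK c b v hK a' rfl
  have e5 := hN M hMN
  calc ‖trC T M a - a‖ ≤ ‖trC T M (a - a')‖ + ‖trC T M a' - a'‖ + ‖a - a'‖ := by
        rw [e1]
        exact (norm_sub_le _ _).trans (by gcongr; exact norm_add_le _ _)
    _ < ε := by linarith

/-- sequence with only one nonzero term -/
noncomputable def del (n : ℕ) (x : A) : ℕ →ᵇ A :=
  BoundedContinuousFunction.ofNormedAddCommGroup (fun k => if k = n then x else 0) continuous_of_discreteTopology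
    ‖x‖ (fun k => by split_ifs <;> simp)

lemma del_mem (n : ℕ) (x : A) (hx : x ∈ T.alg n) : del n x ∈ T.BB := by
  refine Subalgebra.le_topologicalClosure _ (Algebra.subset_adjoin ?_)
  refine ⟨fun k => ?_, n+1, 0, Subalgebra.zero_mem _, fun k hk => ?_⟩
  · show (if k = n then x else 0) ∈ T.alg k
    split_ifs with h
    · rw [h]; exact hx
    · exact Subalgebra.zero_mem _
  · show (if k = n then x else 0) = _
    rw [if_neg (by omega), zero_mul]

lemma tr_congr (M : ℕ) (a b : ℕ → A) (h : ∀ n, n ≤ M → a n = b n) (n : ℕ) : tr T M a n = tr T M b n := by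
  unfold tr
  split_ifs with h1
  · exact h n h1
  · rw [h M le_rfl]

/-- evaluation -/
noncomputable def evL (k : ℕ) : T.BB →ₗ[ℂ] A where
  toFun := fun a => (a : ℕ →ᵇ A) k
  map_add' := fun a b => rfl
  map_smul' := fun c a => rfl

lemma trC_finite (M : ℕ) : ∃ (ι : Type) (_ : Fintype ι) (φ : ι → characterSpace ℂ T.BB) (g : ι → T.BB),
      ∀ a, trC T M a = ∑ i, φ i a • g i := by
  classical
  have hmem : ∀ i : {i // i ∈ (Finset.range (M+1)).sigma (fun n => (T.I n).powerset)},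
      del i.1.1 (T.e (T.I i.1.1) i.1.2) ∈ T.BB := fun i =>
    del_mem T _ _ (T.e_mem _ _ (Finset.mem_powerset.1 (Finset.mem_sigma.1 i.2).2))
  refine ⟨{i // i ∈ (Finset.range (M+1)).sigma (fun n => (T.I n).powerset)}, Finset.fintypeCoeSort _,
    fun i => chr T i.1.1 i.1.2, fun i => trC T M ⟨_, hmem i⟩, fun a => ?_⟩
  have e1 : ∑ i : {i // i ∈ (Finset.range (M+1)).sigma (fun n => (T.I n).powerset)},
      chr T i.1.1 i.1.2 a • trC T M ⟨_, hmem i⟩ = trC T M (∑ i : {i // i ∈ (Finset.range (M+1)).sigma (fun n => (T.I n).powerset)},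
      chr T i.1.1 i.1.2 a • (⟨_, hmem i⟩ : T.BB)) := by
    rw [map_sum]
    exact Finset.sum_congr rfl fun i _ => by rw [map_smul]
  rw [e1]
  apply Subtype.ext
  ext k
  rw [trC_apply, trC_apply]
  refine tr_congr T M _ _ (fun n hn => ?_) k
  show evL T n a = evL T n _
  rw [map_sum]
  have e2 : ∀ i : {i // i ∈ (Finset.range (M+1)).sigma (fun n => (T.I n).powerset)},
      evL T n (chr T i.1.1 i.1.2 a • (⟨_, hmem i⟩ : T.BB)) =
        (fun j : (_ : ℕ) × Finset (ℕ × ℕ) => T.chi j.2 ((a : ℕ →ᵇ A) j.1) • (if n = j.1 then T.e (T.I j.1) j.2 else 0)) i.1 := by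
    intro i
    rw [map_smul]
    rfl
  rw [Finset.sum_congr rfl fun i _ => e2 i]
  rw [Finset.sum_coe_sort ((Finset.range (M+1)).sigma (fun n => (T.I n).powerset))
    (fun j : (_ : ℕ) × Finset (ℕ × ℕ) => T.chi j.2 ((a : ℕ →ᵇ A) j.1) • (if n = j.1 then T.e (T.I j.1) j.2 else 0)),
    Finset.sum_sigma, Finset.sum_eq_single n]
  · simp only [if_true]
    exact T.expand (mem_alg_of_BB T a.2 n)
  · intro m _ hm
    refine Finset.sum_eq_zero fun s _ => ?_
    rw [if_neg (Ne.symm hm), smul_zero]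
  · intro h
    exact absurd (Finset.mem_range.2 (by omega)) h

end B5

theorem taskB5 : TaskB5 := fun h A _ _ _ T =>
  B5.abs_lemma (B5.trC T) 3 (by norm_num) (B5.trC_norm T) (B5.trC_tendsto T h) (B5.trC_finite T)

end H611R4
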