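import Pool.Agent.H611R4.Stmts2

set_option autoImplicit false
set_option maxSynthPendingDepth 3
set_option linter.unusedSectionVars false

open Filter Topology BoundedContinuousFunction WeakDual

namespace H611R4

namespace Tower

variable {A : Type} [NormedCommRing A] [NormedAlgebra ℂ A] (T : Tower A)

/-- evaluation at `n` followed by the character `chi ∅` -/
noncomputable def b6hom (n : ℕ) : T.BB →ₐ[ℂ] ℂ where
  toFun a := T.chi ∅ ((a : ℕ →ᵇ A) n)
  map_one' := by simp
  map_mul' a b := by simp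
  map_zero' := by simp
  map_add' a b := by simp
  commutes' r := by
    have h : (((algebraMap ℂ T.BB r : T.BB) : ℕ →ᵇ A)) n = algebraMap ℂ A r := by
      rw [Algebra.algebraMap_eq_smul_one, Algebra.algebraMap_eq_smul_one]
      rfl
    rw [h, AlgHom.commutes]

end Tower

theorem taskB6 : TaskB6 := by
  intro _ A _ _ _ T
  haveI hcomp : CompleteSpace T.BB :=
    (Subalgebra.isClosed_topologicalClosure
      (Algebra.adjoin ℂ (T.B0 : Set (ℕ →ᵇ A)))).completeSpace_coe
  let φ : ℕ → characterSpace ℂ T.BB := fun n => CharacterSpace.equivAlgHom.symm (T.b6hom n)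
  have hφ : ∀ n (a : T.BB), φ n a = T.chi ∅ ((a : ℕ →ᵇ A) n) := fun n a => rfl
  obtain ⟨ω, -, hω⟩ := (isCompact_univ : IsCompact (Set.univ : Set (characterSpace ℂ T.BB))).ultrafilter_le_nhds
    ((hyperfilter ℕ).map φ) (by simp)
  refine ⟨ω, fun a ha => ?_⟩
  have h1 : Tendsto (fun n => φ n a) (hyperfilter ℕ : Filter ℕ) (𝓝 (ω a)) := by
    have hc : Continuous (fun ψ : characterSpace ℂ T.BB => ψ a) :=
      (WeakDual.eval_continuous a).comp continuous_subtype_val
    have ht : Tendsto φ (hyperfilter ℕ : Filter ℕ) (𝓝 ω) := hω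
    exact (hc.tendsto ω).comp ht
  have h2 : Tendsto (fun n => φ n a) atTop (𝓝 0) := by
    obtain ⟨-, M, v, hv, hM⟩ := ha
    have h3 : Tendsto (fun n : ℕ => ‖T.chi ∅ v‖ * ((1/2 : ℝ) ^ (n - M))) atTop (𝓝 0) := by
      have h4 : Tendsto (fun n : ℕ => ((1/2 : ℝ) ^ (n - M))) atTop (𝓝 0) :=
        (tendsto_pow_atTop_nhds_zero_of_lt_one (by norm_num) (by norm_num)).comp
          (tendsto_sub_atTop_nat M)
      simpa using h4.const_mul ‖T.chi ∅ v‖
    refine squeeze_zero_norm' ?_ h3
    filter_upwards [eventually_ge_atTop M] with n hn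
    rw [hφ, hM n hn, map_mul, norm_mul]
    exact mul_le_mul_of_nonneg_left (T.chi_t ∅ hn) (norm_nonneg _)
  exact tendsto_nhds_unique h1 (h2.mono_left Nat.hyperfilter_le_atTop)

end H611R4
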