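import Mathlib
import Pool.Agent.H611R4.Stmts2

set_option autoImplicit false
set_option maxSynthPendingDepth 3

open Filter Topology BoundedContinuousFunction WeakDual

namespace H611R4

theorem taskB7 : TaskB7 := by
  intro B _ _ _ ω v hv
  let w : B →L[ℂ] ℂ := CharacterSpace.toCLM ω
  let R : (B →L[ℂ] ℂ) →L[ℂ] (B →L[ℂ] (B →L[ℂ] ℂ)) :=
    (ContinuousLinearMap.smulRightL ℂ B (B →L[ℂ] ℂ)).flip w
  have hR : ∀ f : B →L[ℂ] ℂ, R f = f.smulRight w := fun f => rfl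
  let S : ((B →L[ℂ] B →L[ℂ] ℂ) →L[ℂ] ℂ) →L[ℂ] ((B →L[ℂ] ℂ) →L[ℂ] ℂ) :=
    (ContinuousLinearMap.compL ℂ (B →L[ℂ] ℂ) (B →L[ℂ] B →L[ℂ] ℂ) ℂ).flip R
  have hS : ∀ u f, S u f = u (f.smulRight w) := fun u f => rfl
  let J : B →L[ℂ] ((B →L[ℂ] ℂ) →L[ℂ] ℂ) := NormedSpace.inclusionInDoubleDual ℂ B
  have hJ : ∀ b f, J b f = f b := fun b f => rfl
  have hiso : Isometry J := (NormedSpace.inclusionInDoubleDualLi (𝕜 := ℂ) (E := B)).isometry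
  have hcl : IsClosed (Set.range J) := hiso.isClosedEmbedding.isClosed_range
  let t : Submodule ℂ ((B →L[ℂ] B →L[ℂ] ℂ) →L[ℂ] ℂ) :=
    (LinearMap.range (J : B →ₗ[ℂ] ((B →L[ℂ] ℂ) →L[ℂ] ℂ))).comap
      (S : ((B →L[ℂ] B →L[ℂ] ℂ) →L[ℂ] ℂ) →ₗ[ℂ] ((B →L[ℂ] ℂ) →L[ℂ] ℂ))
  have ht : IsClosed (t : Set ((B →L[ℂ] B →L[ℂ] ℂ) →L[ℂ] ℂ)) := by
    have h : (t : Set ((B →L[ℂ] B →L[ℂ] ℂ) →L[ℂ] ℂ)) = S ⁻¹' (Set.range J) := by
      ext u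
      simp only [t, Submodule.comap_coe, Set.mem_preimage, SetLike.mem_coe, LinearMap.mem_range,
        Set.mem_range]
      rfl
    rw [h]
    exact hcl.preimage S.continuous
  have hle : ProjSq B ≤ t := by
    apply Submodule.topologicalClosure_minimal _ _ ht
    rw [Submodule.span_le]
    rintro u ⟨a, b, rfl⟩
    show S (tmul a b) ∈ LinearMap.range (J : B →ₗ[ℂ] ((B →L[ℂ] ℂ) →L[ℂ] ℂ))
    refine ⟨w b • a, ?_⟩
    ext f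
    show f (w b • a) = (f.smulRight w) a b
    simp [mul_comm]
  have hv' : S v ∈ LinearMap.range (J : B →ₗ[ℂ] ((B →L[ℂ] ℂ) →L[ℂ] ℂ)) := hle hv
  obtain ⟨b, hb⟩ := hv'
  refine ⟨b, fun f => ?_⟩
  have h := congrArg (fun F : (B →L[ℂ] ℂ) →L[ℂ] ℂ => F f) hb
  exact h

end H611R4
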