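import Mathlib
import Pool.Agent.H611R4.Stmts2

set_option autoImplicit false
set_option maxSynthPendingDepth 3
set_option linter.unusedSectionVars false

open Filter Topology BoundedContinuousFunction WeakDual

namespace H611R4

namespace TB8

variable {A : Type} [NormedCommRing A] [NormedAlgebra ℂ A] (T : Tower A)

/-- evaluation at `n` on `BB` -/
def evn (n : ℕ) : T.BB →ₐ[ℂ] A where
  toFun a := (a : ℕ →ᵇ A) n
  map_one' := rfl
  map_mul' _ _ := rfl
  map_zero' := rfl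
  map_add' _ _ := rfl
  commutes' _ := rfl

lemma isClosed_BB : IsClosed (T.BB : Set (ℕ →ᵇ A)) := Subalgebra.isClosed_topologicalClosure _

instance [CompleteSpace A] : CompleteSpace T.BB := (isClosed_BB T).completeSpace_coe

lemma one_le : ‖(1 : T.BB)‖ ≤ 1 := by
  have h : ‖((1 : T.BB) : ℕ →ᵇ A)‖ ≤ 1 := by
    rw [BoundedContinuousFunction.norm_le zero_le_one]
    intro n
    exact T.one_norm
  exact h

lemma norm_char_le [CompleteSpace A] (φ : characterSpace ℂ T.BB) (a : T.BB) : ‖φ a‖ ≤ ‖a‖ := by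
  have h1 := CharacterSpace.norm_le_norm_one φ
  have h2 := (toStrongDual (φ : WeakDual ℂ T.BB)).le_opNorm a
  have h3 : ‖toStrongDual (φ : WeakDual ℂ T.BB)‖ ≤ 1 := h1.trans (one_le T)
  have h4 : ‖toStrongDual (φ : WeakDual ℂ T.BB)‖ * ‖a‖ ≤ 1 * ‖a‖ :=
    mul_le_mul_of_nonneg_right h3 (norm_nonneg a)
  rw [one_mul] at h4
  exact h2.trans h4

/-- the character `a ↦ χ_s (a n)` -/
noncomputable def ev [CompleteSpace A] (n : ℕ) (s : Finset (ℕ × ℕ)) : characterSpace ℂ T.BB :=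
  CharacterSpace.equivAlgHom.symm ((T.chi s).comp (evn T n))

lemma ev_apply [CompleteSpace A] (n : ℕ) (s : Finset (ℕ × ℕ)) (a : T.BB) :
    ev T n s a = T.chi s ((a : ℕ →ᵇ A) n) := by
  unfold ev
  rw [CharacterSpace.equivAlgHom_symm_coe]
  rfl

lemma B0_le {b : ℕ →ᵇ A} (hb : b ∈ T.B0) : b ∈ T.BB :=
  Subalgebra.le_topologicalClosure _ (Algebra.subset_adjoin hb)

/-- two characters vanishing on `B0` coincide -/
lemma char_unique [CompleteSpace A] (K1 : TaskB1) (φ ψ : characterSpace ℂ T.BB)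
    (hφ : ∀ a : T.BB, (a : ℕ →ᵇ A) ∈ T.B0 → φ a = 0)
    (hψ : ∀ a : T.BB, (a : ℕ →ᵇ A) ∈ T.B0 → ψ a = 0) : φ = ψ := by
  refine CharacterSpace.ext fun a => ?_
  rw [← sub_eq_zero, ← norm_le_zero_iff]
  refine le_of_forall_pos_le_add fun ε hε => ?_
  obtain ⟨c, b, hb, hab⟩ := K1 A T a a.2 (ε / 2) (by positivity)
  set b' : T.BB := ⟨b, B0_le T hb⟩
  have h1 : ‖a - (c • 1 + b')‖ < ε / 2 := hab
  have e1 : φ a = φ (a - (c • 1 + b')) + c := by
    rw [map_sub, map_add, map_smul, map_one, hφ b' hb]; simp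
  have e2 : ψ a = ψ (a - (c • 1 + b')) + c := by
    rw [map_sub, map_add, map_smul, map_one, hψ b' hb]; simp
  have h2 := norm_char_le T φ (a - (c • 1 + b'))
  have h3 := norm_char_le T ψ (a - (c • 1 + b'))
  rw [e1, e2, add_sub_add_right_eq_sub]
  refine (norm_sub_le _ _).trans ?_
  linarith

/-- evaluations converge to `ω` -/
lemma le_nhds_omega [CompleteSpace A] (K1 : TaskB1) (ω : characterSpace ℂ T.BB)
    (hω : ∀ a : T.BB, (a : ℕ →ᵇ A) ∈ T.B0 → ω a = 0) :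
    Filter.map (fun p : ℕ × Finset (ℕ × ℕ) => ev T p.1 p.2) (Filter.comap Prod.fst atTop) ≤ 𝓝 ω := by
  refine le_nhds_of_unique_clusterPt fun ψ hψ => ?_
  refine char_unique T K1 ψ ω (fun a ha => ?_) hω
  have h1 : Tendsto (fun φ : characterSpace ℂ T.BB => φ a)
      (Filter.map (fun p : ℕ × Finset (ℕ × ℕ) => ev T p.1 p.2) (Filter.comap Prod.fst atTop))
      (𝓝 0) := by
    rw [tendsto_map'_iff]
    obtain ⟨_, M, v, hv, hM⟩ := ha
    have h2 : Tendsto (fun p : ℕ × Finset (ℕ × ℕ) => ‖v‖ * (1/2 : ℝ)^(p.1 - M))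
        (Filter.comap Prod.fst atTop) (𝓝 0) := by
      have h3 : Tendsto (fun n : ℕ => ‖v‖ * (1/2 : ℝ)^(n - M)) atTop (𝓝 (‖v‖ * 0)) :=
        ((tendsto_pow_atTop_nhds_zero_of_lt_one (by norm_num) (by norm_num)).comp
          (tendsto_sub_atTop_nat M)).const_mul _
      rw [mul_zero] at h3
      exact h3.comp tendsto_comap
    refine squeeze_zero_norm' ?_ h2
    have h4 : ∀ᶠ p : ℕ × Finset (ℕ × ℕ) in Filter.comap Prod.fst atTop, M ≤ p.1 :=
      tendsto_comap.eventually (eventually_ge_atTop M)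
    filter_upwards [h4] with p hp
    show ‖ev T p.1 p.2 a‖ ≤ _
    rw [ev_apply, hM _ hp, map_mul, norm_mul]
    exact mul_le_mul (T.chi_norm _ _) (T.chi_t _ hp) (norm_nonneg _) (norm_nonneg _)
  have h2 : Tendsto (fun φ : characterSpace ℂ T.BB => φ a) (𝓝 ψ) (𝓝 (ψ a)) := by
    have : Continuous (fun φ : characterSpace ℂ T.BB => φ a) :=
      (WeakDual.eval_continuous a).comp continuous_subtype_val
    exact this.tendsto ψ
  have : (𝓝 ψ ⊓ Filter.map (fun p : ℕ × Finset (ℕ × ℕ) => ev T p.1 p.2)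
    (Filter.comap Prod.fst atTop)).NeBot := hψ
  exact tendsto_nhds_unique (h2.mono_left inf_le_left) (h1.mono_left inf_le_right)

lemma BB_alg (K1 : TaskB1) (a : T.BB) (n : ℕ) : (a : ℕ →ᵇ A) n ∈ T.alg n := by
  have h : (a : ℕ →ᵇ A) n ∈ closure (T.alg n : Set A) := by
    rw [Metric.mem_closure_iff]
    intro ε hε
    obtain ⟨c, b, hb, hab⟩ := K1 A T a a.2 ε hε
    refine ⟨c • 1 + b n, ?_, ?_⟩
    · exact Subalgebra.add_mem _ (Subalgebra.smul_mem _ (Subalgebra.one_mem _) c) (hb.1 n)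
    · rw [dist_eq_norm]
      exact (BoundedContinuousFunction.norm_coe_le_norm ((a : ℕ →ᵇ A) - (c • 1 + b)) n).trans_lt hab
  rwa [(T.isClosed_alg n).closure_eq] at h

end TB8

open TB8 in
theorem taskB8 : TaskB8 := by
  intro K1 _ K6 K7 A _ _ _ T hH
  obtain ⟨ω, hω⟩ := K6 K1 A T
  set a0 : ℕ →ᵇ A := BoundedContinuousFunction.ofNormedAddCommGroup (T.t 0)
    continuous_of_discreteTopology 1 (T.t_norm 0) with ha0
  have ha0n : ∀ n, a0 n = T.t 0 n := fun n => rfl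
  have ha0B : a0 ∈ T.B0 := ⟨fun n => T.t_mem le_rfl, 0, 1, Subalgebra.one_mem _, fun n _ => by
    rw [ha0n, one_mul]⟩
  set a : T.BB := ⟨a0, B0_le T ha0B⟩ with ha
  have hωa : ω a = 0 := hω a ha0B
  have huP : tmul a 1 - tmul 1 a ∈ ProjSq T.BB := by
    refine Submodule.sub_mem _ ?_ ?_
    · exact Submodule.le_topologicalClosure _ (Submodule.subset_span ⟨a, 1, rfl⟩)
    · exact Submodule.le_topologicalClosure _ (Submodule.subset_span ⟨1, a, rfl⟩)
  have happ : ∀ (f g : T.BB →L[ℂ] ℂ), (tmul a 1 - tmul 1 a) (f.smulRight g) = f a * g 1 - f 1 * g a := by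
    intro f g
    rfl
  have hug : ∀ φ, gelf (tmul a 1 - tmul 1 a) (φ, φ) = 0 := by
    intro φ
    show (tmul a 1 - tmul 1 a) ((CharacterSpace.toCLM φ).smulRight (CharacterSpace.toCLM φ)) = 0
    rw [happ]
    simp only [CharacterSpace.coe_toCLM, map_one]
    ring
  obtain ⟨v, hvP, hv, huv⟩ := hH _ huP hug (1/4) (by norm_num)
  obtain ⟨b, hb⟩ := K7 T.BB ω v hvP
  -- `‖a - b‖ ≤ 1/4`
  have hab : ‖a - b‖ ≤ 1/4 := by
    refine NormedSpace.norm_le_dual_bound ℂ _ (by norm_num) fun f => ?_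
    have e1 : f (a - b) = ((tmul a 1 - tmul 1 a) - v) (f.smulRight (CharacterSpace.toCLM ω)) := by
      rw [_root_.sub_apply _ v, happ, map_sub, hb]
      simp only [CharacterSpace.coe_toCLM, map_one, hωa]
      ring
    rw [e1]
    refine (ContinuousLinearMap.le_opNorm _ _).trans ?_
    have h1 : ‖f.smulRight (CharacterSpace.toCLM ω)‖ ≤ ‖f‖ := by
      rw [ContinuousLinearMap.norm_smulRight_apply]
      have h2 : ‖CharacterSpace.toCLM ω‖ ≤ 1 := by
        refine ContinuousLinearMap.opNorm_le_bound _ zero_le_one fun x => ?_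
        rw [one_mul]
        exact norm_char_le T ω x
      calc ‖f‖ * ‖CharacterSpace.toCLM ω‖ ≤ ‖f‖ * 1 := by gcongr
        _ = ‖f‖ := mul_one _
    calc _ ≤ (1/4) * ‖f‖ := mul_le_mul huv.le h1 (norm_nonneg _) (by norm_num)
      _ = _ := rfl
  -- neighbourhood
  have hopen : IsOpen {φ : characterSpace ℂ T.BB | (φ, ω) ∈ (closure {p | gelf v p ≠ 0})ᶜ} :=
    isClosed_closure.isOpen_compl.preimage (Continuous.prodMk continuous_id continuous_const)
  have hmem : {φ : characterSpace ℂ T.BB | (φ, ω) ∈ (closure {p | gelf v p ≠ 0})ᶜ} ∈ 𝓝 ω :=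
    hopen.mem_nhds (hv ω)
  have hF := le_nhds_omega T K1 ω hω hmem
  rw [Filter.mem_map, Filter.mem_comap] at hF
  obtain ⟨t, ht, hsub⟩ := hF
  obtain ⟨N, hN⟩ := (Filter.mem_atTop_sets.1 ht)
  have hz : ∀ s, T.chi s ((b : ℕ →ᵇ A) N) = 0 := by
    intro s
    have h1 : (ev T N s, ω) ∈ (closure {p | gelf v p ≠ 0})ᶜ := by
      have : ((N, s) : ℕ × Finset (ℕ × ℕ)) ∈ Prod.fst ⁻¹' t := hN N le_rfl
      exact hsub this
    have h2 : gelf v (ev T N s, ω) = 0 := by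
      by_contra h
      exact h1 (subset_closure h)
    have h3 := hb (CharacterSpace.toCLM (ev T N s))
    rw [CharacterSpace.coe_toCLM, ev_apply] at h3
    rw [h3]
    exact h2
  have hbN : (b : ℕ →ᵇ A) N = 0 := by
    rw [T.expand (BB_alg T K1 b N)]
    refine Finset.sum_eq_zero fun s _ => ?_
    rw [hz, zero_smul]
  have h1 : ‖(a0 : ℕ →ᵇ A) N - (b : ℕ →ᵇ A) N‖ ≤ 1/4 := by
    have : ‖((a - b : T.BB) : ℕ →ᵇ A)‖ ≤ 1/4 := hab
    exact (BoundedContinuousFunction.norm_coe_le_norm ((a - b : T.BB) : ℕ →ᵇ A) N).trans this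
  rw [hbN, sub_zero, ha0n] at h1
  have h2 := T.nondeg N
  unfold Tower.t at h1
  rw [← Finset.range_eq_Ico] at h1
  linarith

end H611R4
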