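import Mathlib
import Pool.Agent.H611R4.T2
import Pool.Agent.H611R4.TaskB1
import Pool.Agent.H611R4.TaskB3
import Pool.Agent.H611R4.TaskB4
import Pool.Agent.H611R4.TaskB5
import Pool.Agent.H611R4.TaskB6
import Pool.Agent.H611R4.TaskB7
import Pool.Agent.H611R4.TaskB8
import Pool.Agent.H611R4.TaskD

set_option autoImplicit false
set_option maxSynthPendingDepth 3
set_option linter.unusedSectionVars false

open Filter Topology BoundedContinuousFunction WeakDual

namespace H611R4

theorem semisimple_BB {A : Type} [NormedCommRing A] [NormedAlgebra ℂ A] (T : Tower A) :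
    IsSemisimple T.BB := by
  intro a ha
  apply Subtype.ext
  ext n
  have h1 := B5.mem_alg_of_BB T a.2 n
  have h2 := T.expand h1
  rw [h2]
  simp only [ZeroMemClass.coe_zero, BoundedContinuousFunction.coe_zero, Pi.zero_apply]
  refine Finset.sum_eq_zero fun s _ => ?_
  have h3 := ha (B5.chr T n s)
  rw [B5.chr_apply] at h3
  rw [h3, zero_smul]

theorem final (hB2 : TaskB2) : ∃ (A : Type) (_ : NormedCommRing A) (_ : NormedAlgebra ℂ A),
    CompleteSpace A ∧ IsSemisimple A ∧ IsRegular A ∧ TensorSemisimple A ∧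
      H611R3.ZL.Amenable A ∧ ¬ HyperTauberian A := by
  obtain ⟨A, i1, i2, i3, ⟨T⟩⟩ := taskT
  refine ⟨T.BB, inferInstance, inferInstance, ?_, semisimple_BB T, taskB4 taskB1 taskB3 A T,
    taskB5 taskB1 A T, ?_, taskB8 taskB1 taskB3 taskB6 taskB7 A T⟩
  · exact (Subalgebra.isClosed_topologicalClosure _).completeSpace_coe
  · rw [H611R3.ZL.amenable_iff]
    exact hB2 taskD taskB1 A T

end H611R4
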