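import Mathlib
import Pool.Agent.H611R4.Final
import Pool.Agent.H611R4.Def2

set_option autoImplicit false
set_option maxSynthPendingDepth 3
set_option linter.unusedSectionVars false

open Filter Topology BoundedContinuousFunction WeakDual

namespace H611R4

lemma tmul_norm {A : Type} [NormedCommRing A] [NormedAlgebra ℂ A] (a b : A) :
    ‖tmul a b‖ ≤ ‖a‖ * ‖b‖ := by
  refine ContinuousLinearMap.opNorm_le_bound _ (by positivity) fun β => ?_
  show ‖β a b‖ ≤ _
  refine (β.le_opNorm₂ a b).trans (le_of_eq ?_)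
  ring

theorem tensSemisimple_of {A : Type} [NormedCommRing A] [NormedAlgebra ℂ A]
    (h : TensorSemisimple A) : TensSemisimple A := by
  intro u hu β hβ
  have hs : Summable fun i => tmul (u.a i) (u.b i) :=
    Summable.of_norm_bounded u.summable fun i => tmul_norm _ _
  have happ : ∀ γ : A →L[ℂ] A →L[ℂ] ℂ,
      (∑' i, tmul (u.a i) (u.b i)) γ = ∑' i, γ (u.a i) (u.b i) := by
    intro γ
    have := (ContinuousLinearMap.apply ℂ ℂ γ).map_tsum hs
    exact this
  have hmem : (∑' i, tmul (u.a i) (u.b i)) ∈ ProjSq A := by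
    have hcl : IsClosed (ProjSq A : Set ((A →L[ℂ] A →L[ℂ] ℂ) →L[ℂ] ℂ)) :=
      Submodule.isClosed_topologicalClosure _
    refine hcl.mem_of_tendsto hs.hasSum (Eventually.of_forall fun s => ?_)
    refine Submodule.sum_mem _ fun i _ => ?_
    exact Submodule.le_topologicalClosure _ (Submodule.subset_span ⟨_, _, rfl⟩)
  have h0 := h _ hmem (by
    intro p
    unfold gelf
    rw [happ]
    exact hu p)
  have h1 := happ hβ.toContinuousLinearMap
  rw [h0] at h1
  exact h1.symm

open TB8 in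
theorem not_HT {A : Type} [NormedCommRing A] [NormedAlgebra ℂ A] [CompleteSpace A] (T : Tower A) :
    ¬ HyperTaub T.BB := by
  intro hH
  have K1 : TaskB1 := taskB1
  obtain ⟨ω, hω⟩ := taskB6 K1 A T
  have : CompleteSpace T.BB := (Subalgebra.isClosed_topologicalClosure _).completeSpace_coe
  set a0 : ℕ →ᵇ A := BoundedContinuousFunction.ofNormedAddCommGroup (T.t 0)
    continuous_of_discreteTopology 1 (T.t_norm 0) with ha0
  have ha0n : ∀ n, a0 n = T.t 0 n := fun n => rfl
  have ha0B : a0 ∈ T.B0 := ⟨fun n => T.t_mem le_rfl, 0, 1, Subalgebra.one_mem _, fun n _ => by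
    rw [ha0n, one_mul]⟩
  set a : T.BB := ⟨a0, B0_le T ha0B⟩ with ha
  have hωa : ω a = 0 := hω a ha0B
  let ua : ℕ → T.BB := fun i => if i = 0 then a else if i = 1 then -1 else 0
  let ub : ℕ → T.BB := fun i => if i = 0 then 1 else if i = 1 then a else 0
  have hsupp : ∀ i, i ∉ Finset.range 2 → ua i = 0 ∧ ub i = 0 := by
    intro i hi
    rw [Finset.mem_range] at hi
    have h0 : i ≠ 0 := by omega
    have h1 : i ≠ 1 := by omega
    simp [ua, ub, h0, h1]
  let u : Tens T.BB := ⟨ua, ub, summable_of_ne_finset_zero (s := Finset.range 2) fun i hi => by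
    simp [(hsupp i hi).1]⟩
  have hueval : ∀ β : T.BB → T.BB → ℂ, β 0 0 = 0 → u.eval β = β a 1 + β (-1) a := by
    intro β h0
    unfold Tens.eval
    rw [tsum_eq_sum (s := Finset.range 2) (fun i hi => by
      show β (ua i) (ub i) = 0
      rw [(hsupp i hi).1, (hsupp i hi).2, h0])]
    rw [Finset.sum_range_succ, Finset.sum_range_one]
    rfl
  have hug : ∀ φ, u.gel (φ, φ) = 0 := by
    intro φ
    unfold Tens.gel
    rw [hueval _ (by simp)]
    simp
  obtain ⟨v, hv, w, hw, hnear⟩ := hH u hug (1/4) (by norm_num)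
  have hchar : ∀ x : T.BB, ‖ω x‖ ≤ ‖x‖ := norm_char_le T ω
  have hsb : Summable fun i => ω (v.b i) • v.a i :=
    Summable.of_norm_bounded v.summable fun i => by
      rw [norm_smul, mul_comm]
      exact mul_le_mul_of_nonneg_left (hchar _) (norm_nonneg _)
  set b : T.BB := ∑' i, ω (v.b i) • v.a i with hbdef
  have hb : ∀ f : T.BB →L[ℂ] ℂ, f b = v.eval fun x y => f x * ω y := by
    intro f
    rw [hbdef, f.map_tsum hsb]
    unfold Tens.eval
    refine tsum_congr fun i => ?_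
    rw [map_smul, smul_eq_mul, mul_comm]
  have hbil : ∀ f : T.BB →L[ℂ] ℂ, IsBil T.BB fun x y => f x * ω y := fun f =>
    (f.smulRight (CharacterSpace.toCLM ω)).isBoundedBilinearMap
  -- `‖a - b‖ ≤ 1/4`
  have hab : ‖a - b‖ ≤ 1/4 := by
    refine NormedSpace.norm_le_dual_bound ℂ _ (by norm_num) fun f => ?_
    have e1 : f (a - b) = w.eval fun x y => f x * ω y := by
      rw [← hnear _ (hbil f), map_sub, hb, hueval _ (by simp)]
      simp [hωa]
    rw [e1]
    unfold Tens.eval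
    have h2 : Summable fun i => ‖f‖ * (‖w.a i‖ * ‖w.b i‖) := w.summable.mul_left _
    calc ‖∑' i, f (w.a i) * ω (w.b i)‖ ≤ ∑' i, ‖f‖ * (‖w.a i‖ * ‖w.b i‖) := by
          refine tsum_of_norm_bounded h2.hasSum fun i => ?_
          rw [norm_mul]
          calc ‖f (w.a i)‖ * ‖ω (w.b i)‖ ≤ (‖f‖ * ‖w.a i‖) * ‖w.b i‖ :=
                mul_le_mul (f.le_opNorm _) (hchar _) (norm_nonneg _) (by positivity)
            _ = _ := by ring
      _ = ‖f‖ * ∑' i, ‖w.a i‖ * ‖w.b i‖ := tsum_mul_left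
      _ ≤ ‖f‖ * (1/4) := by gcongr
      _ = _ := mul_comm _ _
  -- neighbourhood
  have hopen : IsOpen {φ : characterSpace ℂ T.BB | (φ, ω) ∈ (closure {p | v.gel p ≠ 0})ᶜ} :=
    isClosed_closure.isOpen_compl.preimage (Continuous.prodMk continuous_id continuous_const)
  have hmem : {φ : characterSpace ℂ T.BB | (φ, ω) ∈ (closure {p | v.gel p ≠ 0})ᶜ} ∈ 𝓝 ω :=
    hopen.mem_nhds (hv ω)
  have hF := le_nhds_omega T K1 ω hω hmem
  rw [Filter.mem_map, Filter.mem_comap] at hF
  obtain ⟨t, ht, hsub⟩ := hF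
  obtain ⟨N, hN⟩ := (Filter.mem_atTop_sets.1 ht)
  have hz : ∀ s, T.chi s ((b : ℕ →ᵇ A) N) = 0 := by
    intro s
    have h1 : (ev T N s, ω) ∈ (closure {p | v.gel p ≠ 0})ᶜ := by
      have : ((N, s) : ℕ × Finset (ℕ × ℕ)) ∈ Prod.fst ⁻¹' t := hN N le_rfl
      exact hsub this
    have h2 : v.gel (ev T N s, ω) = 0 := by
      by_contra h
      exact h1 (subset_closure h)
    have h3 := hb (CharacterSpace.toCLM (ev T N s))
    rw [CharacterSpace.coe_toCLM, ev_apply] at h3
    rw [h3]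
    exact h2
  have hbN : (b : ℕ →ᵇ A) N = 0 := by
    rw [T.expand (BB_alg T K1 b N)]
    refine Finset.sum_eq_zero fun s _ => ?_
    rw [hz, zero_smul]
  have h1 : ‖(a0 : ℕ →ᵇ A) N - (b : ℕ →ᵇ A) N‖ ≤ 1/4 := by
    have : ‖((a - b : T.BB) : ℕ →ᵇ A)‖ ≤ 1/4 := hab
    exact (BoundedContinuousFunction.norm_coe_le_norm ((a - b : T.BB) : ℕ →ᵇ A) N).trans this
  rw [hbN, sub_zero, ha0n] at h1
  have h2 := T.nondeg N
  unfold Tower.t at h1
  rw [← Finset.range_eq_Ico] at h1
  linarith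

theorem final2 (hB2 : TaskB2) : ∃ (A : Type) (_ : NormedCommRing A) (_ : NormedAlgebra ℂ A),
    CompleteSpace A ∧ Semisimple A ∧ Regular A ∧ TensSemisimple A ∧
      H611R3.ZL.Amenable A ∧ ¬ HyperTaub A := by
  obtain ⟨A, i1, i2, i3, ⟨T⟩⟩ := taskT
  refine ⟨T.BB, inferInstance, inferInstance, ?_, semisimple_BB T, taskB4 taskB1 taskB3 A T,
    tensSemisimple_of (taskB5 taskB1 A T), ?_, not_HT T⟩
  · exact (Subalgebra.isClosed_topologicalClosure _).completeSpace_coe
  · rw [H611R3.ZL.amenable_iff]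
    exact hB2 taskD taskB1 A T

end H611R4
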