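import Mathlib
import Pool.Agent.H611R4.Stmts2

set_option autoImplicit false
set_option maxSynthPendingDepth 3
set_option linter.unusedSectionVars false

/-! Task B2 of project H611-HT: amenability (helper589). -/

open Filter Topology BoundedContinuousFunction WeakDual

namespace H611R4

namespace TB2

section comm

variable {R κ : Type} [CommRing R] [Algebra ℂ R] [DecidableEq κ]

lemma symm_sum (F : Finset κ) (z : κ → R) (hz : ∀ k, z k * z k = 1) (k : κ) (hk : k ∈ F)
    (β : R →ₗ[ℂ] R →ₗ[ℂ] ℂ) :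
    ∑ s ∈ F.powerset, β (z k * ∏ i ∈ s, z i) (∏ i ∈ s, z i)
      = ∑ s ∈ F.powerset, β (∏ i ∈ s, z i) (z k * ∏ i ∈ s, z i) := by
  have hF : F = insert k (F.erase k) := (Finset.insert_erase hk).symm
  have hnot : k ∉ F.erase k := Finset.notMem_erase k F
  rw [hF, Finset.sum_powerset_insert hnot, Finset.sum_powerset_insert hnot, add_comm]
  have hz2 : ∀ p : R, z k * (z k * p) = p := fun p => by rw [← mul_assoc, hz, one_mul]
  congr 1
  · apply Finset.sum_congr rfl
    intro t ht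
    have hkt : k ∉ t := fun h => hnot (Finset.mem_powerset.1 ht h)
    rw [Finset.prod_insert hkt, hz2]
  · apply Finset.sum_congr rfl
    intro t ht
    have hkt : k ∉ t := fun h => hnot (Finset.mem_powerset.1 ht h)
    rw [Finset.prod_insert hkt, hz2]

lemma comm_adjoin (F : Finset κ) (z : κ → R) (hz : ∀ k, z k * z k = 1) (c : R)
    (hc : c ∈ Algebra.adjoin ℂ (z '' (F : Set κ))) :
    ∀ β : R →ₗ[ℂ] R →ₗ[ℂ] ℂ, ∑ s ∈ F.powerset, β (c * ∏ i ∈ s, z i) (∏ i ∈ s, z i)
      = ∑ s ∈ F.powerset, β (∏ i ∈ s, z i) (c * ∏ i ∈ s, z i) := by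
  induction hc using Algebra.adjoin_induction with
  | mem a ha =>
    obtain ⟨k, hk, rfl⟩ := ha
    intro β
    exact symm_sum F z hz k (by simpa using hk) β
  | algebraMap r =>
    intro β
    apply Finset.sum_congr rfl
    intro s _
    rw [Algebra.algebraMap_eq_smul_one, smul_mul_assoc, one_mul, map_smul, map_smul,
      LinearMap.smul_apply]
  | add a b _ _ h1 h2 =>
    intro β
    simp only [add_mul, map_add, LinearMap.add_apply, Finset.sum_add_distrib]
    rw [h1 β, h2 β]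
  | mul a b _ _ h1 h2 =>
    intro β
    have e1 := h2 (β.comp (LinearMap.mulLeft ℂ a))
    have e2 := h1 (β.compl₂ (LinearMap.mulLeft ℂ b))
    simp only [LinearMap.comp_apply, LinearMap.compl₂_apply, LinearMap.mulLeft_apply] at e1 e2
    calc ∑ s ∈ F.powerset, β (a * b * ∏ i ∈ s, z i) (∏ i ∈ s, z i)
        = ∑ s ∈ F.powerset, β (a * (b * ∏ i ∈ s, z i)) (∏ i ∈ s, z i) := by
          simp only [mul_assoc]
      _ = ∑ s ∈ F.powerset, β (a * ∏ i ∈ s, z i) (b * ∏ i ∈ s, z i) := e1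
      _ = ∑ s ∈ F.powerset, β (∏ i ∈ s, z i) (b * (a * ∏ i ∈ s, z i)) := e2
      _ = ∑ s ∈ F.powerset, β (∏ i ∈ s, z i) (a * b * ∏ i ∈ s, z i) := by
          apply Finset.sum_congr rfl
          intro s _
          congr 1
          ring

end comm

variable {A : Type} [NormedCommRing A] [NormedAlgebra ℂ A] (T : Tower A)

/-- sequences that are constant from `M + 1` on -/
noncomputable def Ph (M : ℕ) : (ℕ → A) →ₐ[ℂ] (ℕ →ᵇ A) where
  toFun d := ofNormedAddCommGroupDiscrete (fun n => d (min n (M+1)))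
    (∑ k ∈ Finset.range (M+2), ‖d k‖) (fun n =>
      Finset.single_le_sum (f := fun k => ‖d k‖) (fun k _ => norm_nonneg _)
        (Finset.mem_range.2 (by have := min_le_right n (M+1); omega)))
  map_one' := by ext n; rfl
  map_mul' a b := by ext n; rfl
  map_zero' := by ext n; rfl
  map_add' a b := by ext n; rfl
  commutes' r := by ext n; rfl

lemma Ph_apply (M : ℕ) (d : ℕ → A) (n : ℕ) : Ph M d n = d (min n (M+1)) := rfl

/-- the sequence `t m n` -/
noncomputable def tau (m : ℕ) : ℕ →ᵇ A :=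
  ofNormedAddCommGroupDiscrete (fun n => T.t m n) 1 (fun n => T.t_norm m n)

lemma tau_apply (m n : ℕ) : tau T m n = T.t m n := rfl

lemma tau_norm (m : ℕ) : ‖tau T m‖ ≤ 1 :=
  (BoundedContinuousFunction.norm_le zero_le_one).2 fun n => T.t_norm m n

lemma t_le {m n : ℕ} (h : n ≤ m) : T.t m n = 1 := by
  unfold Tower.t
  rw [Finset.Ico_eq_empty_of_le h, Finset.prod_empty]

lemma mem_BB {b : ℕ →ᵇ A} (h : b ∈ T.B0) : b ∈ T.BB :=
  Subalgebra.le_topologicalClosure _ (Algebra.subset_adjoin h)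

lemma tau_B0 (m : ℕ) : tau T m ∈ T.B0 :=
  ⟨fun n => T.t_mem le_rfl, m, 1, Subalgebra.one_mem _, fun n _ => by rw [tau_apply, one_mul]⟩

lemma Ph_B0 (M : ℕ) (d : ℕ → A) (hd : ∀ k, k ≤ M + 1 → d k ∈ T.alg k) (m : ℕ) (hm : M + 1 ≤ m) :
    Ph M d * tau T m ∈ T.B0 := by
  refine ⟨fun n => ?_, m, d (M+1), T.alg_mono hm (hd _ le_rfl), fun n hn => ?_⟩
  · rw [BoundedContinuousFunction.mul_apply, Ph_apply, tau_apply]
    exact Subalgebra.mul_mem _ (T.alg_mono (min_le_left _ _) (hd _ (min_le_right _ _)))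
      (T.t_mem le_rfl)
  · rw [BoundedContinuousFunction.mul_apply, Ph_apply, tau_apply, min_eq_right (hm.trans hn)]

abbrev KX : Type := Σ _ : ℕ, Option (ℕ × ℕ)

/-- the involutions -/
noncomputable def zz (p : KX) (n : ℕ) : A := if n = p.1 then p.2.elim (-1) T.x else 1

/-- the finite set of indices -/
noncomputable def FF (M : ℕ) : Finset KX := (Finset.range (M+2)).sigma fun c => Finset.insertNone (T.I c)

lemma zz_sq (p : KX) : zz T p * zz T p = 1 := by
  funext n
  obtain ⟨c, o⟩ := p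
  simp only [Pi.mul_apply, zz, Pi.one_apply]
  split_ifs with h
  · cases o with
    | none => simp
    | some i => simpa using T.x_sq i
  · simp

lemma zz_norm (p : KX) (n : ℕ) : ‖zz T p n‖ ≤ 1 := by
  obtain ⟨c, o⟩ := p
  simp only [zz]
  split_ifs with h
  · cases o with
    | none => simpa using T.one_norm
    | some i => simpa using T.x_norm i
  · exact T.one_norm

lemma zz_mem (M : ℕ) (p : KX) (hp : p ∈ FF T M) (n : ℕ) : zz T p n ∈ T.alg n := by
  obtain ⟨c, o⟩ := p
  simp only [FF, Finset.mem_sigma, Finset.mem_range] at hp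
  simp only [zz]
  split_ifs with h
  · subst h
    cases o with
    | none =>
      simp only [Option.elim_none]
      exact Subalgebra.neg_mem _ (Subalgebra.one_mem _)
    | some i =>
      simp only [Option.elim_some]
      have hi : i ∈ T.I n := by simpa using hp.2
      exact Algebra.subset_adjoin ⟨i, by simpa using hi, rfl⟩
  · exact Subalgebra.one_mem _

lemma zs_mem (M : ℕ) (s : Finset KX) (hs : s ⊆ FF T M) (n : ℕ) : (∏ i ∈ s, zz T i) n ∈ T.alg n := by
  rw [Finset.prod_apply]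
  exact Subalgebra.prod_mem _ fun i hi => zz_mem T M i (hs hi) n

lemma zs_norm (s : Finset KX) (n : ℕ) : ‖(∏ i ∈ s, zz T i) n‖ ≤ 1 := by
  rw [Finset.prod_apply]
  exact T.norm_prod_le _ _ fun i _ => zz_norm T i n

lemma zs_sq (s : Finset KX) : (∏ i ∈ s, zz T i) * (∏ i ∈ s, zz T i) = 1 := by
  rw [← Finset.prod_mul_distrib]
  exact Finset.prod_eq_one fun i _ => zz_sq T i

lemma single_one_mem (M k : ℕ) (hk : k < M + 2) :
    (Pi.single k (1 : A) : ℕ → A) ∈ Algebra.adjoin ℂ (zz T '' (FF T M : Set KX)) := by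
  have e : (Pi.single k (1 : A) : ℕ → A) = (1/2 : ℂ) • (1 - zz T ⟨k, none⟩) := by
    funext n
    by_cases h : n = k
    · subst h
      simp only [Pi.single_eq_same, Pi.smul_apply, Pi.sub_apply, Pi.one_apply, zz, if_true,
        Option.elim_none]
      rw [sub_neg_eq_add, ← two_smul ℂ (1 : A), smul_smul]
      norm_num
    · rw [Pi.single_eq_of_ne h]
      simp only [Pi.smul_apply, Pi.sub_apply, Pi.one_apply, zz, if_neg h, sub_self, smul_zero]
  rw [e]
  have hmem : (⟨k, none⟩ : KX) ∈ (FF T M : Set KX) := by simp [FF, hk]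
  exact Subalgebra.smul_mem _ (Subalgebra.sub_mem _ (Subalgebra.one_mem _)
    (Algebra.subset_adjoin (Set.mem_image_of_mem (zz T) hmem))) _

lemma single_mem (M k : ℕ) (hk : k < M + 2) (w : A) (hw : w ∈ T.alg k) :
    (Pi.single k w : ℕ → A) ∈ Algebra.adjoin ℂ (zz T '' (FF T M : Set KX)) := by
  unfold Tower.alg at hw
  induction hw using Algebra.adjoin_induction with
  | mem a ha =>
    obtain ⟨i, hi, rfl⟩ := ha
    have e : (Pi.single k (T.x i) : ℕ → A) = Pi.single k 1 * zz T ⟨k, some i⟩ := by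
      funext n
      by_cases h : n = k
      · subst h
        simp [zz]
      · simp [Pi.single_eq_of_ne h]
    rw [e]
    have hmem : (⟨k, some i⟩ : KX) ∈ (FF T M : Set KX) := by
      rw [Finset.mem_coe, FF, Finset.mem_sigma, Finset.mem_range]
      exact ⟨hk, by simpa using hi⟩
    exact Subalgebra.mul_mem _ (single_one_mem T M k hk)
      (Algebra.subset_adjoin (Set.mem_image_of_mem (zz T) hmem))
  | algebraMap r =>
    have e : (Pi.single k (algebraMap ℂ A r) : ℕ → A) = r • Pi.single k 1 := by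
      rw [Algebra.algebraMap_eq_smul_one, Pi.single_smul]
    rw [e]
    exact Subalgebra.smul_mem _ (single_one_mem T M k hk) _
  | add a b _ _ h1 h2 =>
    rw [Pi.single_add]
    exact Subalgebra.add_mem _ h1 h2
  | mul a b _ _ h1 h2 =>
    rw [Pi.single_mul]
    exact Subalgebra.mul_mem _ h1 h2

/-- truncation of a sequence -/
noncomputable def trc (M : ℕ) (a : ℕ → A) : ℕ → A := ∑ k ∈ Finset.range (M+2), Pi.single k (a k)

lemma trc_apply (M : ℕ) (a : ℕ → A) (n : ℕ) (hn : n ≤ M + 1) : trc M a n = a n := by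
  unfold trc
  rw [Finset.sum_apply, Finset.sum_eq_single n]
  · simp
  · intro b _ hb
    rw [Pi.single_eq_of_ne (Ne.symm hb)]
  · intro h
    exact absurd (Finset.mem_range.2 (by omega)) h

lemma trc_mem (M : ℕ) (a : ℕ → A) (ha : ∀ n, a n ∈ T.alg n) :
    trc M a ∈ Algebra.adjoin ℂ (zz T '' (FF T M : Set KX)) :=
  Subalgebra.sum_mem _ fun k hk => single_mem T M k (Finset.mem_range.1 hk) _ (ha k)

lemma eps_nonneg (k : ℕ) : 0 ≤ T.eps k :=
  (norm_nonneg _).trans (T.t_rel (m := k) (k := k) (n := k+1) le_rfl le_rfl)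

/-- a member of `B0` is nearly annihilated by `1 - tau (k+1)` and nearly constant -/
lemma tail (b : ℕ →ᵇ A) (hb : b ∈ T.B0) : ∃ (K : ℕ) (C : ℝ), 0 ≤ C ∧ ∀ k, K ≤ k →
    ‖b * (1 - tau T (k+1))‖ ≤ C * T.eps k ∧ ‖b - Ph k (trc k b)‖ ≤ C * T.eps k := by
  obtain ⟨-, K, v, -, hK⟩ := hb
  refine ⟨K, ‖v‖, norm_nonneg _, fun k hk => ⟨?_, ?_⟩⟩
  · refine (BoundedContinuousFunction.norm_le (mul_nonneg (norm_nonneg _) (eps_nonneg T k))).2 fun n => ?_
    rw [BoundedContinuousFunction.mul_apply, BoundedContinuousFunction.coe_sub, Pi.sub_apply,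
      tau_apply]
    by_cases hn : n ≤ k + 1
    · rw [t_le T hn]
      simpa using mul_nonneg (norm_nonneg _) (eps_nonneg T k)
    · have hn' : k + 1 ≤ n := by omega
      rw [hK n (by omega), ← T.t_mul (show K ≤ k + 1 by omega) hn']
      have e : v * (T.t K (k+1) * T.t (k+1) n) * ((1 : ℕ →ᵇ A) n - T.t (k+1) n)
          = v * T.t (k+1) n * (T.t K (k+1) * (1 - T.t (k+1) n)) := by
        show v * (T.t K (k+1) * T.t (k+1) n) * (1 - T.t (k+1) n) = _
        ring
      rw [e]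
      refine (norm_mul_le _ _).trans ?_
      refine mul_le_mul ?_ (T.t_rel hk hn') (norm_nonneg _) (norm_nonneg _)
      refine (norm_mul_le _ _).trans ?_
      exact mul_le_of_le_one_right (norm_nonneg _) (T.t_norm _ _)
  · refine (BoundedContinuousFunction.norm_le (mul_nonneg (norm_nonneg _) (eps_nonneg T k))).2 fun n => ?_
    rw [BoundedContinuousFunction.coe_sub, Pi.sub_apply, Ph_apply, trc_apply _ _ _ (min_le_right _ _)]
    by_cases hn : n ≤ k + 1
    · rw [min_eq_left hn, sub_self, norm_zero]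
      exact mul_nonneg (norm_nonneg _) (eps_nonneg T k)
    · have hn' : k + 1 ≤ n := by omega
      rw [min_eq_right hn', hK n (by omega), hK (k+1) (by omega),
        ← T.t_mul (show K ≤ k + 1 by omega) hn']
      have e : v * (T.t K (k+1) * T.t (k+1) n) - v * T.t K (k+1)
          = - (v * (T.t K (k+1) * (1 - T.t (k+1) n))) := by ring
      rw [e, norm_neg]
      refine (norm_mul_le _ _).trans ?_
      exact mul_le_mul_of_nonneg_left (T.t_rel hk hn') (norm_nonneg _)

/-- an algebraic retraction -/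
lemma exists_rho : ∃ ρ : (ℕ →ᵇ A) →ₗ[ℂ] T.BB, ∀ b : T.BB, ρ (b : ℕ →ᵇ A) = b := by
  obtain ⟨ρ, hρ⟩ := (T.BB.val.toLinearMap).exists_leftInverse_of_injective
    (LinearMap.ker_eq_bot.2 Subtype.val_injective)
  exact ⟨ρ, fun b => LinearMap.congr_fun hρ b⟩

lemma Ph_norm (M : ℕ) (d : ℕ → A) (hd : ∀ k, ‖d k‖ ≤ 1) : ‖Ph M d‖ ≤ 1 :=
  (BoundedContinuousFunction.norm_le zero_le_one).2 fun n => hd _

include T in
lemma one_norm_E : ‖(1 : ℕ →ᵇ A)‖ ≤ 1 :=
  (BoundedContinuousFunction.norm_le zero_le_one).2 fun _ => T.one_norm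

lemma one_sub_norm (m : ℕ) : ‖(1 : ℕ →ᵇ A) - tau T m‖ ≤ 2 := by
  have h1 := one_norm_E T
  have h2 := tau_norm T m
  have h3 := norm_sub_le (1 : ℕ →ᵇ A) (tau T m)
  linarith

/-- the tensor without the scalar factor -/
noncomputable def PP (M m : ℕ) (s : Finset KX) : ℕ →ᵇ A := Ph M (∏ i ∈ s, zz T i) * tau T m

lemma PP_norm (M m : ℕ) (s : Finset KX) : ‖PP T M m s‖ ≤ 1 := by
  refine (norm_mul_le _ _).trans ?_
  have h1 := Ph_norm M (∏ i ∈ s, zz T i) (zs_norm T s)
  have h2 := tau_norm T m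
  nlinarith [norm_nonneg (Ph M (∏ i ∈ s, zz T i)), norm_nonneg (tau T m)]

lemma PP_mem (M m : ℕ) (hm : M + 1 ≤ m) (s : Finset KX) (hs : s ⊆ FF T M) : PP T M m s ∈ T.BB :=
  mem_BB T (Ph_B0 T M _ (fun k _ => zs_mem T M s hs k) m hm)

lemma PP_mul (M m m' : ℕ) (s : Finset KX) : PP T M m s * PP T M m' s = tau T m * tau T m' := by
  unfold PP
  have e : Ph M (∏ i ∈ s, zz T i) * Ph M (∏ i ∈ s, zz T i) = 1 := by
    rw [← map_mul, zs_sq, map_one]
  calc Ph M (∏ i ∈ s, zz T i) * tau T m * (Ph M (∏ i ∈ s, zz T i) * tau T m')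
      = (Ph M (∏ i ∈ s, zz T i) * Ph M (∏ i ∈ s, zz T i)) * (tau T m * tau T m') := by ring
    _ = _ := by rw [e, one_mul]

/-- the scalar factor -/
noncomputable def lam (M : ℕ) : ℂ := ((2 : ℂ) ^ (FF T M).card)⁻¹

lemma lam_norm (M : ℕ) : (2 : ℝ) ^ (FF T M).card * ‖lam T M‖ = 1 := by
  unfold lam
  rw [norm_inv, norm_pow, Complex.norm_ofNat]
  exact mul_inv_cancel₀ (by positivity)

lemma lam_mul (M : ℕ) : ((2 : ℂ) ^ (FF T M).card) * lam T M = 1 := by
  unfold lam
  exact mul_inv_cancel₀ (pow_ne_zero _ two_ne_zero)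

/-- the sum of the products is nearly one -/
lemma sum_near (M : ℕ) : ‖(1 - tau T M) * (1 - tau T (M+1)) + tau T (M+1) * tau T (M+2) - 1‖
    ≤ T.eps M + T.eps (M+1) := by
  have h0 : 0 ≤ T.eps M + T.eps (M+1) := add_nonneg (eps_nonneg T _) (eps_nonneg T _)
  refine (BoundedContinuousFunction.norm_le h0).2 fun n => ?_
  show ‖(1 - T.t M n) * (1 - T.t (M+1) n) + T.t (M+1) n * T.t (M+2) n - 1‖ ≤ _
  by_cases h1 : n ≤ M
  · rw [t_le T h1, t_le T (show n ≤ M + 1 by omega), t_le T (show n ≤ M + 2 by omega)]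
    simpa using h0
  · have hM1 : M + 1 ≤ n := by omega
    have a1 : ‖T.t M n * (1 - T.t (M+1) n)‖ ≤ T.eps M := by
      rw [← T.t_mul (show M ≤ M + 1 by omega) hM1]
      have e : T.t M (M+1) * T.t (M+1) n * (1 - T.t (M+1) n)
          = T.t (M+1) n * (T.t M (M+1) * (1 - T.t (M+1) n)) := by ring
      rw [e]
      refine (norm_mul_le _ _).trans ?_
      calc ‖T.t (M+1) n‖ * ‖T.t M (M+1) * (1 - T.t (M+1) n)‖ ≤ 1 * T.eps M :=
            mul_le_mul (T.t_norm _ _) (T.t_rel le_rfl hM1) (norm_nonneg _) zero_le_one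
        _ = T.eps M := one_mul _
    have a2 : ‖T.t (M+1) n * (1 - T.t (M+2) n)‖ ≤ T.eps (M+1) := by
      by_cases h2 : n ≤ M + 1
      · rw [t_le T (show n ≤ M + 2 by omega)]
        simpa using eps_nonneg T (M+1)
      · have hM2 : M + 2 ≤ n := by omega
        rw [← T.t_mul (show M + 1 ≤ M + 2 by omega) hM2]
        have e : T.t (M+1) (M+2) * T.t (M+2) n * (1 - T.t (M+2) n)
            = T.t (M+2) n * (T.t (M+1) (M+2) * (1 - T.t (M+2) n)) := by ring
        rw [e]
        refine (norm_mul_le _ _).trans ?_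
        calc ‖T.t (M+2) n‖ * ‖T.t (M+1) (M+2) * (1 - T.t (M+2) n)‖ ≤ 1 * T.eps (M+1) :=
              mul_le_mul (T.t_norm _ _) (T.t_rel le_rfl hM2) (norm_nonneg _) zero_le_one
          _ = T.eps (M+1) := one_mul _
    have e : (1 - T.t M n) * (1 - T.t (M+1) n) + T.t (M+1) n * T.t (M+2) n - 1
        = -(T.t M n * (1 - T.t (M+1) n)) - T.t (M+1) n * (1 - T.t (M+2) n) := by ring
    rw [e]
    refine (norm_sub_le _ _).trans ?_
    rw [norm_neg]
    linarith

end TB2

open TB2 in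
theorem taskB2 : TaskB2 := by
  intro hD hB1 A _ _ _ T
  obtain ⟨ρ, hρ⟩ := exists_rho T
  have hρc : ∀ p : ℕ →ᵇ A, p ∈ T.BB → ((ρ p : T.BB) : ℕ →ᵇ A) = p := fun p hp => by
    have := hρ ⟨p, hp⟩
    exact congrArg Subtype.val this
  have hρn : ∀ p : ℕ →ᵇ A, p ∈ T.BB → ‖ρ p‖ = ‖p‖ := fun p hp => by
    rw [← hρc p hp]
    simp only [hρ]
    rfl
  have hρm : ∀ (a : T.BB) (p : ℕ →ᵇ A), p ∈ T.BB → a * ρ p = ρ ((a : ℕ →ᵇ A) * p) := fun a p hp => by
    have h1 : ((a * ρ p : T.BB) : ℕ →ᵇ A) = (a : ℕ →ᵇ A) * p := by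
      show (a : ℕ →ᵇ A) * ((ρ p : T.BB) : ℕ →ᵇ A) = _
      rw [hρc p hp]
    rw [← h1, hρ]
  have h1m : ∀ m, (1 : ℕ →ᵇ A) - tau T m ∈ T.BB := fun m =>
    Subalgebra.sub_mem _ (Subalgebra.one_mem _) (mem_BB T (tau_B0 T m))
  -- the approximate diagonal
  let J : ℕ → Type := fun M => Option ↥((FF T M).powerset)
  let xx : ∀ M, J M → T.BB := fun M j =>
    j.elim (ρ (1 - tau T M)) (fun s => lam T M • ρ (PP T M (M+1) s.1))
  let yy : ∀ M, J M → T.BB := fun M j =>
    j.elim (ρ (1 - tau T (M+1))) (fun s => ρ (PP T M (M+2) s.1))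
  have hsum : ∀ (M : ℕ) (G : T.BB → T.BB → ℂ), ∑ j, G (xx M j) (yy M j)
      = G (ρ (1 - tau T M)) (ρ (1 - tau T (M+1)))
        + ∑ s ∈ (FF T M).powerset, G (lam T M • ρ (PP T M (M+1) s)) (ρ (PP T M (M+2) s)) := by
    intro M G
    rw [Fintype.sum_option]
    congr 1
    exact Finset.sum_coe_sort (FF T M).powerset
      (fun s => G (lam T M • ρ (PP T M (M+1) s)) (ρ (PP T M (M+2) s)))
  have hxn : ∀ M, ‖ρ (1 - tau T M)‖ ≤ 2 := fun M => by
    rw [hρn _ (h1m M)]; exact one_sub_norm T M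
  have hPn : ∀ M m, M + 1 ≤ m → ∀ s ∈ (FF T M).powerset, ‖ρ (PP T M m s)‖ ≤ 1 := fun M m hm s hs => by
    rw [hρn _ (PP_mem T M m hm s (Finset.mem_powerset.1 hs))]; exact PP_norm T M m s
  have hcard : ∀ M (C : ℝ), ∑ s ∈ (FF T M).powerset, ‖lam T M‖ * C = C := by
    intro M C
    rw [Finset.sum_const, Finset.card_powerset, nsmul_eq_mul]
    push_cast
    rw [← mul_assoc, lam_norm, one_mul]
  -- bound
  have hbd : ∀ M (B : T.BB →L[ℂ] T.BB →L[ℂ] ℂ), ‖∑ j, B (xx M j) (yy M j)‖ ≤ 5 * ‖B‖ := by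
    intro M B
    rw [hsum M (fun x y => B x y)]
    refine (norm_add_le _ _).trans ?_
    have a1 : ‖B (ρ (1 - tau T M)) (ρ (1 - tau T (M+1)))‖ ≤ 4 * ‖B‖ := by
      refine (B.le_opNorm₂ _ _).trans ?_
      have b1 := hxn M
      have b2 := hxn (M+1)
      calc ‖B‖ * ‖ρ (1 - tau T M)‖ * ‖ρ (1 - tau T (M+1))‖ ≤ ‖B‖ * 2 * 2 := by gcongr
        _ = 4 * ‖B‖ := by ring
    have a2 : ‖∑ s ∈ (FF T M).powerset, B (lam T M • ρ (PP T M (M+1) s)) (ρ (PP T M (M+2) s))‖
        ≤ ‖B‖ := by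
      refine (norm_sum_le _ _).trans ?_
      calc ∑ s ∈ (FF T M).powerset, ‖B (lam T M • ρ (PP T M (M+1) s)) (ρ (PP T M (M+2) s))‖
          ≤ ∑ s ∈ (FF T M).powerset, ‖lam T M‖ * ‖B‖ := by
            apply Finset.sum_le_sum
            intro s hs
            refine (B.le_opNorm₂ _ _).trans ?_
            rw [norm_smul]
            have b1 := hPn M (M+1) le_rfl s hs
            have b2 := hPn M (M+2) (by omega) s hs
            calc ‖B‖ * (‖lam T M‖ * ‖ρ (PP T M (M+1) s)‖) * ‖ρ (PP T M (M+2) s)‖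
                ≤ ‖B‖ * (‖lam T M‖ * 1) * 1 := by gcongr
              _ = ‖lam T M‖ * ‖B‖ := by ring
        _ = ‖B‖ := hcard M _
    linarith
  -- the sum of the products
  have hprod : ∀ M, ((∑ j, xx M j * yy M j : T.BB) : ℕ →ᵇ A)
      = (1 - tau T M) * (1 - tau T (M+1)) + tau T (M+1) * tau T (M+2) := by
    intro M
    have e1 : ∑ j, xx M j * yy M j = ρ (1 - tau T M) * ρ (1 - tau T (M+1))
        + ∑ s ∈ (FF T M).powerset, (lam T M • ρ (PP T M (M+1) s)) * ρ (PP T M (M+2) s) := by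
      rw [Fintype.sum_option]
      congr 1
      exact Finset.sum_coe_sort (FF T M).powerset
        (fun s => (lam T M • ρ (PP T M (M+1) s)) * ρ (PP T M (M+2) s))
    have hv : ∀ b : T.BB, (b : ℕ →ᵇ A) = T.BB.val b := fun _ => rfl
    rw [e1, hv, map_add, map_mul, map_sum]
    congr 1
    · show ((ρ (1 - tau T M) : T.BB) : ℕ →ᵇ A) * ((ρ (1 - tau T (M+1)) : T.BB) : ℕ →ᵇ A) = _
      rw [hρc _ (h1m _), hρc _ (h1m _)]
    · have e2 : ∀ s ∈ (FF T M).powerset, T.BB.val ((lam T M • ρ (PP T M (M+1) s)) * ρ (PP T M (M+2) s))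
          = lam T M • (tau T (M+1) * tau T (M+2)) := by
        intro s hs
        have hs' := Finset.mem_powerset.1 hs
        rw [map_mul, map_smul]
        show (lam T M • ((ρ (PP T M (M+1) s) : T.BB) : ℕ →ᵇ A)) * ((ρ (PP T M (M+2) s) : T.BB) : ℕ →ᵇ A) = _
        rw [hρc _ (PP_mem T M (M+1) le_rfl s hs'), hρc _ (PP_mem T M (M+2) (by omega) s hs'),
          smul_mul_assoc, PP_mul]
      rw [Finset.sum_congr rfl e2, Finset.sum_const, Finset.card_powerset, ← Nat.cast_smul_eq_nsmul ℂ,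
        smul_smul]
      push_cast
      rw [lam_mul, one_smul]
  have hprodn : ∀ M, ‖(∑ j, xx M j * yy M j : T.BB) - 1‖ ≤ T.eps M + T.eps (M+1) := by
    intro M
    have h1 := sum_near T M
    rw [← hprod M] at h1
    exact h1
  have heps2 : Tendsto (fun M => T.eps M + T.eps (M+1)) atTop (𝓝 0) := by
    have h1 := T.eps_tendsto
    have h2 : Tendsto (fun M => T.eps (M+1)) atTop (𝓝 0) := h1.comp (tendsto_add_atTop_nat 1)
    simpa using h1.add h2
  refine hD T.BB J xx yy 5 hbd ?_ ?_ ?_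
  · -- commutators
    intro a B
    let G : ℕ → T.BB → ℂ := fun M a => ∑ j, (B (a * xx M j) (yy M j) - B (xx M j) (yy M j * a))
    have hGadd : ∀ M a b, G M (a + b) = G M a + G M b := by
      intro M a b
      simp only [G]
      rw [← Finset.sum_add_distrib]
      apply Finset.sum_congr rfl
      intro j _
      rw [add_mul, mul_add, map_add, map_add, ContinuousLinearMap.add_apply]
      ring
    have hGone : ∀ M (c : ℂ), G M (c • 1) = 0 := by
      intro M c
      simp only [G]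
      apply Finset.sum_eq_zero
      intro j _
      rw [smul_mul_assoc, one_mul, mul_smul_comm, mul_one, map_smul, map_smul,
        ContinuousLinearMap.smul_apply, sub_self]
    have hGbd : ∀ M a, ‖G M a‖ ≤ 10 * ‖B‖ * ‖a‖ := by
      intro M a
      have hLa : ‖ContinuousLinearMap.mul ℂ T.BB a‖ ≤ ‖a‖ := ContinuousLinearMap.opNorm_mul_apply_le ℂ _ a
      have e : G M a = ∑ j, (B.comp (ContinuousLinearMap.mul ℂ T.BB a)) (xx M j) (yy M j)
          - ∑ j, ((B.flip.comp (ContinuousLinearMap.mul ℂ T.BB a)).flip) (xx M j) (yy M j) := by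
        simp only [G]
        rw [← Finset.sum_sub_distrib]
        apply Finset.sum_congr rfl
        intro j _
        simp only [ContinuousLinearMap.comp_apply, ContinuousLinearMap.flip_apply,
          ContinuousLinearMap.mul_apply']
        rw [mul_comm (yy M j) a]
      rw [e]
      refine (norm_sub_le _ _).trans ?_
      have c1 := hbd M (B.comp (ContinuousLinearMap.mul ℂ T.BB a))
      have c2 := hbd M ((B.flip.comp (ContinuousLinearMap.mul ℂ T.BB a)).flip)
      have d1 : ‖B.comp (ContinuousLinearMap.mul ℂ T.BB a)‖ ≤ ‖B‖ * ‖a‖ :=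
        (ContinuousLinearMap.opNorm_comp_le _ _).trans (by gcongr)
      have d2 : ‖(B.flip.comp (ContinuousLinearMap.mul ℂ T.BB a)).flip‖ ≤ ‖B‖ * ‖a‖ := by
        rw [ContinuousLinearMap.opNorm_flip]
        refine (ContinuousLinearMap.opNorm_comp_le _ _).trans ?_
        rw [ContinuousLinearMap.opNorm_flip]
        gcongr
      linarith
    -- members of `B0`
    have hGB0 : ∀ (b : ℕ →ᵇ A) (hb : b ∈ T.B0), Tendsto (fun M => G M ⟨b, mem_BB T hb⟩) atTop (𝓝 0) := by
      intro b hb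
      obtain ⟨K, C, hC, hK⟩ := tail T b hb
      have hlim : Tendsto (fun M : ℕ => ‖B‖ * C * (2 * T.eps (M-1) + 4 * T.eps M)) atTop (𝓝 0) := by
        have h1 := T.eps_tendsto
        have h2 : Tendsto (fun M => T.eps (M-1)) atTop (𝓝 0) := h1.comp (tendsto_sub_atTop_nat 1)
        simpa using ((h2.const_mul 2).add (h1.const_mul 4)).const_mul (‖B‖ * C)
      refine squeeze_zero_norm' ?_ hlim
      filter_upwards [eventually_ge_atTop (K+1)] with M hM
      obtain ⟨k, rfl⟩ : ∃ k, M = k + 1 := ⟨M - 1, by omega⟩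
      rw [Nat.add_sub_cancel]
      set bb : T.BB := ⟨b, mem_BB T hb⟩ with hbb
      have hbbc : (bb : ℕ →ᵇ A) = b := rfl
      -- split the sum
      have hsp : G (k+1) bb
          = (B (bb * ρ (1 - tau T (k+1))) (ρ (1 - tau T (k+1+1)))
              - B (ρ (1 - tau T (k+1))) (ρ (1 - tau T (k+1+1)) * bb))
            + ∑ s ∈ (FF T (k+1)).powerset,
              (B (bb * (lam T (k+1) • ρ (PP T (k+1) (k+1+1) s))) (ρ (PP T (k+1) (k+1+2) s))
              - B (lam T (k+1) • ρ (PP T (k+1) (k+1+1) s)) (ρ (PP T (k+1) (k+1+2) s) * bb)) :=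
        hsum (k+1) (fun x y => B (bb * x) y - B x (y * bb))
      rw [hsp]
      have hn1 : ‖bb * ρ (1 - tau T (k+1))‖ ≤ C * T.eps k := by
        rw [hρm _ _ (h1m _), hρn]
        · exact (hK k (by omega)).1
        · exact Subalgebra.mul_mem _ bb.2 (h1m _)
      have hn2 : ‖ρ (1 - tau T (k+1+1)) * bb‖ ≤ C * T.eps (k+1) := by
        rw [mul_comm, hρm _ _ (h1m _), hρn]
        · exact (hK (k+1) (by omega)).1
        · exact Subalgebra.mul_mem _ bb.2 (h1m _)
      have p1 : ‖B (bb * ρ (1 - tau T (k+1))) (ρ (1 - tau T (k+1+1)))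
              - B (ρ (1 - tau T (k+1))) (ρ (1 - tau T (k+1+1)) * bb)‖
          ≤ ‖B‖ * C * (2 * T.eps k + 2 * T.eps (k+1)) := by
        refine (norm_sub_le _ _).trans ?_
        have q1 : ‖B (bb * ρ (1 - tau T (k+1))) (ρ (1 - tau T (k+1+1)))‖
            ≤ ‖B‖ * (C * T.eps k) * 2 := by
          refine (B.le_opNorm₂ _ _).trans ?_
          have := hxn (k+1+1)
          have h0 := mul_nonneg hC (eps_nonneg T k)
          gcongr
        have q2 : ‖B (ρ (1 - tau T (k+1))) (ρ (1 - tau T (k+1+1)) * bb)‖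
            ≤ ‖B‖ * 2 * (C * T.eps (k+1)) := by
          refine (B.le_opNorm₂ _ _).trans ?_
          have := hxn (k+1)
          gcongr
        linarith
      -- the main sum
      set cc : ℕ → A := trc (k+1) b with hcc
      set g : ℕ →ᵇ A := b - Ph (k+1) cc with hg
      have hgn : ‖g‖ ≤ C * T.eps (k+1) := (hK (k+1) (by omega)).2
      have hccm : ∀ n, n ≤ k + 1 + 1 → cc n ∈ T.alg n := fun n hn => by
        rw [hcc, trc_apply _ _ _ hn]
        exact hb.1 n
      have hcP : ∀ m, k + 1 + 1 ≤ m → ∀ s ∈ (FF T (k+1)).powerset,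
          Ph (k+1) cc * PP T (k+1) m s ∈ T.BB := by
        intro m hm s hs
        have e : Ph (k+1) cc * PP T (k+1) m s = Ph (k+1) (cc * ∏ i ∈ s, zz T i) * tau T m := by
          unfold PP
          rw [map_mul, mul_assoc]
        rw [e]
        exact mem_BB T (Ph_B0 T (k+1) _ (fun n hn => Subalgebra.mul_mem _ (hccm n hn)
          (zs_mem T (k+1) s (Finset.mem_powerset.1 hs) n)) m hm)
      have hgP : ∀ m, k + 1 + 1 ≤ m → ∀ s ∈ (FF T (k+1)).powerset,
          g * PP T (k+1) m s ∈ T.BB := by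
        intro m hm s hs
        rw [hg, sub_mul]
        exact Subalgebra.sub_mem _ (Subalgebra.mul_mem _ (mem_BB T hb)
          (PP_mem T (k+1) m hm s (Finset.mem_powerset.1 hs))) (hcP m hm s hs)
      have hdec : ∀ m, k + 1 + 1 ≤ m → ∀ s ∈ (FF T (k+1)).powerset,
          bb * ρ (PP T (k+1) m s) = ρ (g * PP T (k+1) m s) + ρ (Ph (k+1) cc * PP T (k+1) m s) := by
        intro m hm s hs
        rw [hρm _ _ (PP_mem T (k+1) m hm s (Finset.mem_powerset.1 hs)), ← map_add, ← add_mul, hg,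
          sub_add_cancel]
      have hgPn : ∀ m, k + 1 + 1 ≤ m → ∀ s ∈ (FF T (k+1)).powerset,
          ‖ρ (g * PP T (k+1) m s)‖ ≤ C * T.eps (k+1) := by
        intro m hm s hs
        rw [hρn _ (hgP m hm s hs)]
        refine (norm_mul_le _ _).trans ?_
        exact (mul_le_of_le_one_right (norm_nonneg _) (PP_norm T (k+1) m s)).trans hgn
      let β : (ℕ → A) →ₗ[ℂ] (ℕ → A) →ₗ[ℂ] ℂ := LinearMap.mk₂ ℂ
        (fun p q => B (ρ (Ph (k+1) p * tau T (k+1+1))) (ρ (Ph (k+1) q * tau T (k+1+2))))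
        (by intro p p' q; simp only [map_add, add_mul, ContinuousLinearMap.add_apply])
        (by intro r p q; simp only [map_smul, smul_mul_assoc, ContinuousLinearMap.smul_apply])
        (by intro p q q'; simp only [map_add, add_mul])
        (by intro r p q; simp only [map_smul, smul_mul_assoc])
      have hβ : ∀ p q, β p q
          = B (ρ (Ph (k+1) p * tau T (k+1+1))) (ρ (Ph (k+1) q * tau T (k+1+2))) := fun p q => rfl
      have hcomm := comm_adjoin (FF T (k+1)) (zz T) (zz_sq T) cc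
        (trc_mem T (k+1) b hb.1) β
      have hexact : ∑ s ∈ (FF T (k+1)).powerset,
          (B (ρ (Ph (k+1) cc * PP T (k+1) (k+1+1) s)) (ρ (PP T (k+1) (k+1+2) s))
            - B (ρ (PP T (k+1) (k+1+1) s)) (ρ (Ph (k+1) cc * PP T (k+1) (k+1+2) s))) = 0 := by
        rw [Finset.sum_sub_distrib, sub_eq_zero]
        simp only [hβ, map_mul] at hcomm
        simp only [PP, ← mul_assoc]
        exact hcomm
      have hterm : ∀ s ∈ (FF T (k+1)).powerset,
          (B (bb * (lam T (k+1) • ρ (PP T (k+1) (k+1+1) s))) (ρ (PP T (k+1) (k+1+2) s))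
              - B (lam T (k+1) • ρ (PP T (k+1) (k+1+1) s)) (ρ (PP T (k+1) (k+1+2) s) * bb))
          = lam T (k+1) * (B (ρ (g * PP T (k+1) (k+1+1) s)) (ρ (PP T (k+1) (k+1+2) s))
              - B (ρ (PP T (k+1) (k+1+1) s)) (ρ (g * PP T (k+1) (k+1+2) s)))
            + lam T (k+1) * (B (ρ (Ph (k+1) cc * PP T (k+1) (k+1+1) s)) (ρ (PP T (k+1) (k+1+2) s))
              - B (ρ (PP T (k+1) (k+1+1) s)) (ρ (Ph (k+1) cc * PP T (k+1) (k+1+2) s))) := by
        intro s hs
        rw [mul_smul_comm, hdec (k+1+1) le_rfl s hs, mul_comm _ bb, hdec (k+1+2) (by omega) s hs]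
        simp only [map_smul, map_add, ContinuousLinearMap.smul_apply, ContinuousLinearMap.add_apply,
          smul_eq_mul]
        ring
      have p2 : ‖∑ s ∈ (FF T (k+1)).powerset,
              (B (bb * (lam T (k+1) • ρ (PP T (k+1) (k+1+1) s))) (ρ (PP T (k+1) (k+1+2) s))
              - B (lam T (k+1) • ρ (PP T (k+1) (k+1+1) s)) (ρ (PP T (k+1) (k+1+2) s) * bb))‖
          ≤ ‖B‖ * C * (2 * T.eps (k+1)) := by
        rw [Finset.sum_congr rfl hterm, Finset.sum_add_distrib, ← Finset.mul_sum, ← Finset.mul_sum,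
          hexact, mul_zero, add_zero, Finset.mul_sum]
        refine (norm_sum_le _ _).trans ?_
        calc ∑ s ∈ (FF T (k+1)).powerset,
              ‖lam T (k+1) * (B (ρ (g * PP T (k+1) (k+1+1) s)) (ρ (PP T (k+1) (k+1+2) s))
              - B (ρ (PP T (k+1) (k+1+1) s)) (ρ (g * PP T (k+1) (k+1+2) s)))‖
            ≤ ∑ s ∈ (FF T (k+1)).powerset, ‖lam T (k+1)‖ * (‖B‖ * C * (2 * T.eps (k+1))) := by
              apply Finset.sum_le_sum
              intro s hs
              rw [norm_mul]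
              apply mul_le_mul_of_nonneg_left _ (norm_nonneg _)
              refine (norm_sub_le _ _).trans ?_
              have r1 : ‖B (ρ (g * PP T (k+1) (k+1+1) s)) (ρ (PP T (k+1) (k+1+2) s))‖
                  ≤ ‖B‖ * (C * T.eps (k+1)) * 1 := by
                refine (B.le_opNorm₂ _ _).trans ?_
                have u1 := hgPn (k+1+1) le_rfl s hs
                have u2 := hPn (k+1) (k+1+2) (by omega) s hs
                have h0 := mul_nonneg hC (eps_nonneg T (k+1))
                gcongr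
              have r2 : ‖B (ρ (PP T (k+1) (k+1+1) s)) (ρ (g * PP T (k+1) (k+1+2) s))‖
                  ≤ ‖B‖ * 1 * (C * T.eps (k+1)) := by
                refine (B.le_opNorm₂ _ _).trans ?_
                have u1 := hgPn (k+1+2) (by omega) s hs
                have u2 := hPn (k+1) (k+1+1) le_rfl s hs
                gcongr
              linarith
          _ = ‖B‖ * C * (2 * T.eps (k+1)) := hcard (k+1) _
      refine (norm_add_le _ _).trans ?_
      have e3 : ‖B‖ * C * (2 * T.eps k + 4 * T.eps (k+1))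
          = ‖B‖ * C * (2 * T.eps k + 2 * T.eps (k+1)) + ‖B‖ * C * (2 * T.eps (k+1)) := by ring
      rw [e3]
      exact add_le_add p1 p2
    -- all of `BB`
    show Tendsto (fun M => G M a) atTop (𝓝 0)
    rw [Metric.tendsto_atTop]
    intro ε hε
    set δ : ℝ := ε / (2 * (10 * ‖B‖ + 1)) with hδ
    have hBp : 0 < 10 * ‖B‖ + 1 := by positivity
    have hδp : 0 < δ := by rw [hδ]; positivity
    obtain ⟨c, b, hb, hlt⟩ := hB1 A T (a : ℕ →ᵇ A) a.2 δ hδp
    set bb : T.BB := ⟨b, mem_BB T hb⟩ with hbb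
    have hna : ‖a - (c • 1 + bb)‖ < δ := hlt
    obtain ⟨N, hN⟩ := (Metric.tendsto_atTop.1 (hGB0 b hb)) (ε / 2) (half_pos hε)
    refine ⟨N, fun M hM => ?_⟩
    rw [dist_zero_right]
    have e4 : G M a = G M (a - (c • 1 + bb)) + (G M (c • 1) + G M bb) := by
      rw [← hGadd, ← hGadd, sub_add_cancel]
    rw [e4, hGone, zero_add]
    have h5 := hN M hM
    rw [dist_zero_right] at h5
    have h6 : ‖G M (a - (c • 1 + bb))‖ ≤ ε / 2 := by
      refine (hGbd M _).trans ?_
      calc 10 * ‖B‖ * ‖a - (c • 1 + bb)‖ ≤ (10 * ‖B‖ + 1) * δ := by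
            apply mul_le_mul (by linarith) hna.le (norm_nonneg _) hBp.le
        _ = ε / 2 := by rw [hδ]; field_simp
    calc ‖G M (a - (c • 1 + bb)) + G M bb‖ ≤ ‖G M (a - (c • 1 + bb))‖ + ‖G M bb‖ := norm_add_le _ _
      _ < ε := by linarith
  · -- approximate identity
    intro a
    rw [tendsto_iff_norm_sub_tendsto_zero]
    refine squeeze_zero (fun M => norm_nonneg _) (fun M => ?_)
      (by simpa using heps2.mul_const ‖a‖ : Tendsto (fun M => (T.eps M + T.eps (M+1)) * ‖a‖) atTop (𝓝 0))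
    have e : (∑ j, xx M j * yy M j) * a - a = ((∑ j, xx M j * yy M j) - 1) * a := by ring
    rw [e]
    refine (norm_mul_le _ _).trans ?_
    exact mul_le_mul_of_nonneg_right (hprodn M) (norm_nonneg _)
  · intro M
    have h1 : ‖∑ j, xx M j * yy M j‖ = ‖(1 - tau T M) * (1 - tau T (M+1)) + tau T (M+1) * tau T (M+2)‖ := by
      rw [← hprod M]; rfl
    rw [h1]
    refine (norm_add_le _ _).trans ?_
    have a1 := one_sub_norm T M
    have a2 := one_sub_norm T (M+1)
    have a3 := tau_norm T (M+1)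
    have a4 := tau_norm T (M+2)
    have b1 : ‖(1 - tau T M) * (1 - tau T (M+1))‖ ≤ 2 * 2 :=
      (norm_mul_le _ _).trans (mul_le_mul a1 a2 (norm_nonneg _) (by norm_num))
    have b2 : ‖tau T (M+1) * tau T (M+2)‖ ≤ 1 * 1 :=
      (norm_mul_le _ _).trans (mul_le_mul a3 a4 (norm_nonneg _) (by norm_num))
    linarith

end H611R4
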